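import Pool.Agent.Helper9.DG.Defs

/-!
PROJECT DG, module DG-13. Polynomials in two variables: coefficientwise derivative, chain rule, degrees.

`coeff_dX`: `Polynomial.sum_def`, `finset_sum_coeff`, `coeff_monomial`, `derivative 0 = 0`. `derivative_eval`: `eval_eq_sum_range`, `derivative_sum`, `derivative_mul`, `derivative_pow`; or
induction (`Polynomial.induction_on'`: additive; `f = monomial n a`: `(a U^n)' = a' U^n + n a U^(n-1) U'`).
`BB` lemmas: `natDegree_mul_le`, `coeff_mul` (a sum over the antidiagonal of products, `natDegree_sum_le_of_forall_le`), `natDegree_add_le`, `natDegree_derivative_le`, `coeff_derivative`.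
Proved by helper59.
-/

set_option autoImplicit false

namespace Pool.Agent.Helper9.DG

open Polynomial Finset

theorem coeff_dX (f : ℤ[X][X]) (i : ℕ) : (dX f).coeff i = derivative (f.coeff i) := by
  unfold dX
  rw [Polynomial.sum_def, finsetSum_coeff]
  simp only [coeff_monomial]
  rw [Finset.sum_ite_eq' f.support i (fun j => derivative (f.coeff j))]
  split_ifs with h
  · rfl
  · rw [notMem_support_iff.mp h, derivative_zero]

theorem dX_add (f g : ℤ[X][X]) : dX (f + g) = dX f + dX g := by
  ext1 i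
  rw [coeff_dX, coeff_add, coeff_add, coeff_dX, coeff_dX, derivative_add]

theorem dX_monomial (n : ℕ) (a : ℤ[X]) : dX (monomial n a) = monomial n (derivative a) := by
  ext1 i
  rw [coeff_dX, coeff_monomial, coeff_monomial]
  split_ifs
  · rfl
  · exact derivative_zero

theorem derivative_eval_biv (f : ℤ[X][X]) (U : ℤ[X]) :
    derivative (f.eval U) = (dX f).eval U + (derivative f).eval U * derivative U := by
  induction f using Polynomial.induction_on' with
  | add p q hp hq =>
    rw [eval_add, derivative_add, hp, hq, dX_add, eval_add, derivative_add, eval_add]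
    ring
  | monomial n a =>
    rw [eval_monomial, dX_monomial, eval_monomial, derivative_mul, derivative_pow,
      derivative_monomial, eval_monomial]
    simp only [map_natCast]
    ring

theorem BB.mono {t x t' x' : ℕ} {f : ℤ[X][X]} (h : BB t x f) (ht : t ≤ t') (hx : x ≤ x') :
    BB t' x' f := ⟨h.1.trans ht, fun i => (h.2 i).trans hx⟩

theorem BB.add {t x : ℕ} {f g : ℤ[X][X]} (hf : BB t x f) (hg : BB t x g) : BB t x (f + g) := by
  refine ⟨(natDegree_add_le _ _).trans (max_le hf.1 hg.1), fun i => ?_⟩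
  rw [coeff_add]
  exact (natDegree_add_le _ _).trans (max_le (hf.2 i) (hg.2 i))

theorem BB.neg {t x : ℕ} {f : ℤ[X][X]} (hf : BB t x f) : BB t x (-f) := by
  refine ⟨by rw [natDegree_neg]; exact hf.1, fun i => ?_⟩
  rw [coeff_neg, natDegree_neg]
  exact hf.2 i

theorem BB.sub {t x : ℕ} {f g : ℤ[X][X]} (hf : BB t x f) (hg : BB t x g) : BB t x (f - g) := by
  rw [sub_eq_add_neg]
  exact hf.add hg.neg

theorem BB.mul {t x t' x' : ℕ} {f g : ℤ[X][X]} (hf : BB t x f) (hg : BB t' x' g) :
    BB (t + t') (x + x') (f * g) := by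
  refine ⟨natDegree_mul_le.trans (add_le_add hf.1 hg.1), fun i => ?_⟩
  rw [coeff_mul]
  refine natDegree_sum_le_of_forall_le _ _ fun c _ => ?_
  exact natDegree_mul_le.trans (add_le_add (hf.2 _) (hg.2 _))

theorem BB_one : BB 0 0 (1 : ℤ[X][X]) := by
  refine ⟨by simp, fun i => ?_⟩
  rw [coeff_one]
  split_ifs <;> simp

theorem BB.pow {t x : ℕ} {f : ℤ[X][X]} (hf : BB t x f) (n : ℕ) : BB (n * t) (n * x) (f ^ n) := by
  induction n with
  | zero => simpa using BB_one
  | succ n ih =>
    rw [pow_succ, Nat.succ_mul, Nat.succ_mul]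
    exact ih.mul hf

theorem BB_intCast (n : ℤ) : BB 0 0 (n : ℤ[X][X]) := by
  refine ⟨by simp, fun i => ?_⟩
  have h : ((n : ℤ[X][X])) = C (C n) := by simp
  rw [h, coeff_C]
  split_ifs <;> simp

theorem BB_X : BB 1 0 (X : ℤ[X][X]) := by
  refine ⟨natDegree_X_le, fun i => ?_⟩
  rw [coeff_X]
  split_ifs <;> simp

theorem BB.derivative {t x : ℕ} {f : ℤ[X][X]} (hf : BB t x f) :
    BB t x (Polynomial.derivative f) := by
  refine ⟨(natDegree_derivative_le f).trans ((Nat.sub_le _ _).trans hf.1), fun i => ?_⟩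
  rw [coeff_derivative]
  refine natDegree_mul_le.trans ?_
  have h : (((i : ℤ[X]) + 1)).natDegree = 0 := by
    have : ((i : ℤ[X]) + 1) = ((i + 1 : ℕ) : ℤ[X]) := by push_cast; ring
    rw [this]
    exact natDegree_natCast _
  rw [h, add_zero]
  exact hf.2 _

theorem BB.dX {t x : ℕ} {f : ℤ[X][X]} (hf : BB t x f) : BB t x (dX f) := by
  refine ⟨?_, fun i => ?_⟩
  · rw [natDegree_le_iff_coeff_eq_zero]
    intro N hN
    rw [coeff_dX, coeff_eq_zero_of_natDegree_lt (lt_of_le_of_lt hf.1 hN), derivative_zero]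
  · rw [coeff_dX]
    exact (natDegree_derivative_le _).trans ((Nat.sub_le _ _).trans (hf.2 i))

end Pool.Agent.Helper9.DG
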