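import Pool.Agent.Helper9.DG.EvalTail

/-!
PROJECT DG, module DG-04. A power series with small coefficients which nearly vanishes at `1 / b` vanishes to a high order.

Suppose not: let `k < M` be the least index with `q_k ≠ 0` (`X_pow_dvd_iff`, `Nat.find`). `q = q_k X^k + q'`, where `X^(k+1) ∣ q'` and `q'` has the coefficients of `q` otherwise
(`q' = q - monomial k q_k`), so `eval_tail` gives `|aeval (1/b) q'| ≤ 2 K (k + 2)^d b^(-k-1)`. Then `b^(-k) ≤ |q_k| b^(-k) ≤ |aeval (1/b) q| + |aeval (1/b) q'|`; multiply by `b^k`: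
`1 ≤ b^(k - M)/4 + 2 K (M + 1)^d / b ≤ 1/4 + 1/4`, a contradiction.
-/

set_option autoImplicit false

namespace Pool.Agent.Helper9.DG

open Polynomial Finset

theorem carry (q : ℤ[X]) (K d M b : ℕ) (hb : 2 ^ (d + 1) ≤ b)
    (hK : ∀ k, |q.coeff k| ≤ ((K * (k + 1) ^ d : ℕ) : ℤ)) (h1 : 8 * K * (M + 1) ^ d ≤ b)
    (h2 : |aeval (1 / (b : ℝ)) q| ≤ 1 / (4 * (b : ℝ) ^ M)) : X ^ M ∣ q := by
  have hb' : (2 : ℝ) ^ (d + 1) ≤ b := by exact_mod_cast hb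
  have hb1 : (1 : ℝ) ≤ b := le_trans (one_le_pow₀ (by norm_num)) hb'
  have hb0 : (0 : ℝ) < b := lt_of_lt_of_le one_pos hb1
  rw [X_pow_dvd_iff]
  by_contra hcon
  push Not at hcon
  classical
  have hex : ∃ k, k < M ∧ q.coeff k ≠ 0 := hcon
  obtain ⟨hkM, hk0⟩ := Nat.find_spec hex
  have hmin : ∀ j, j < Nat.find hex → q.coeff j = 0 := by
    intro j hj
    by_contra h
    exact Nat.find_min hex hj ⟨hj.trans hkM, h⟩
  generalize Nat.find hex = k at hkM hk0 hmin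
  set q' : ℤ[X] := q - monomial k (q.coeff k) with hq'
  have hc : ∀ j, q'.coeff j = if j = k then 0 else q.coeff j := by
    intro j
    rw [hq', coeff_sub, coeff_monomial]
    by_cases h : k = j
    · subst h
      simp
    · rw [if_neg h, if_neg (fun h' => h h'.symm), sub_zero]
  have hdvd : X ^ (k + 1) ∣ q' := by
    rw [X_pow_dvd_iff]
    intro j hj
    rw [hc]
    by_cases h : j = k
    · rw [if_pos h]
    · rw [if_neg h]
      exact hmin j (by omega)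
  have hK' : ∀ j, |q'.coeff j| ≤ ((K * (j + 1) ^ d : ℕ) : ℤ) := by
    intro j
    rw [hc]
    by_cases h : j = k
    · rw [if_pos h, abs_zero]
      exact Int.natCast_nonneg _
    · rw [if_neg h]
      exact hK j
  have h3 := eval_tail q' K d (k + 1) b hb hdvd hK'
  have h4 : aeval (1 / (b : ℝ)) q = (q.coeff k : ℝ) * (1 / (b : ℝ)) ^ k + aeval (1 / (b : ℝ)) q' := by
    have h5 : q = monomial k (q.coeff k) + q' := by
      rw [hq']
      ring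
    conv_lhs => rw [h5]
    rw [map_add, aeval_monomial]
    rfl
  have h6 : (1 : ℝ) ≤ |(q.coeff k : ℝ)| := by
    rw [← Int.cast_abs]
    exact_mod_cast Int.one_le_abs hk0
  have h7 : (1 / (b : ℝ)) ^ k ≤ |(q.coeff k : ℝ)| * (1 / (b : ℝ)) ^ k :=
    le_mul_of_one_le_left (by positivity) h6
  have h8 : |(q.coeff k : ℝ)| * (1 / (b : ℝ)) ^ k ≤
      |aeval (1 / (b : ℝ)) q| + |aeval (1 / (b : ℝ)) q'| := by
    have h9 : (q.coeff k : ℝ) * (1 / (b : ℝ)) ^ k =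
        aeval (1 / (b : ℝ)) q - aeval (1 / (b : ℝ)) q' := by
      rw [h4]
      ring
    calc |(q.coeff k : ℝ)| * (1 / (b : ℝ)) ^ k
        = |(q.coeff k : ℝ) * (1 / (b : ℝ)) ^ k| := by
          rw [abs_mul, abs_of_nonneg (by positivity : (0 : ℝ) ≤ (1 / (b : ℝ)) ^ k)]
      _ = |aeval (1 / (b : ℝ)) q - aeval (1 / (b : ℝ)) q'| := by rw [h9]
      _ ≤ _ := abs_sub _ _
  have h10 : (1 / (b : ℝ)) ^ k ≤ 1 / (4 * (b : ℝ) ^ M) +
      2 * K * (((k + 1 : ℕ) : ℝ) + 1) ^ d / (b : ℝ) ^ (k + 1) := by linarith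
  have hbk : (0 : ℝ) < (b : ℝ) ^ k := pow_pos hb0 k
  have h11 : (1 : ℝ) ≤ (b : ℝ) ^ k * (1 / (4 * (b : ℝ) ^ M)) +
      (b : ℝ) ^ k * (2 * K * (((k + 1 : ℕ) : ℝ) + 1) ^ d / (b : ℝ) ^ (k + 1)) := by
    rw [← mul_add]
    calc (1 : ℝ) = (b : ℝ) ^ k * (1 / (b : ℝ)) ^ k := by
          rw [← mul_pow, mul_one_div_cancel hb0.ne', one_pow]
      _ ≤ _ := mul_le_mul_of_nonneg_left h10 hbk.le
  have h12 : (b : ℝ) ^ k * (1 / (4 * (b : ℝ) ^ M)) ≤ 1 / 4 := by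
    have h13 : (b : ℝ) ^ k ≤ (b : ℝ) ^ M := pow_le_pow_right₀ hb1 hkM.le
    have hbM : (0 : ℝ) < (b : ℝ) ^ M := pow_pos hb0 M
    rw [mul_one_div, div_le_div_iff₀ (by positivity) (by norm_num)]
    linarith
  have h14 : (b : ℝ) ^ k * (2 * K * (((k + 1 : ℕ) : ℝ) + 1) ^ d / (b : ℝ) ^ (k + 1)) ≤ 1 / 4 := by
    have h15 : (((k + 1 : ℕ) : ℝ) + 1) ^ d ≤ ((M : ℝ) + 1) ^ d := by
      apply pow_le_pow_left₀ (by positivity)
      have : ((k + 1 : ℕ) : ℝ) ≤ (M : ℝ) := by exact_mod_cast hkM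
      linarith
    have h16 : 8 * (K : ℝ) * ((M : ℝ) + 1) ^ d ≤ b := by exact_mod_cast h1
    have h17 : (b : ℝ) ^ k * (2 * K * (((k + 1 : ℕ) : ℝ) + 1) ^ d / (b : ℝ) ^ (k + 1)) =
        2 * K * (((k + 1 : ℕ) : ℝ) + 1) ^ d / b := by
      rw [pow_succ]
      field_simp
    rw [h17, div_le_div_iff₀ hb0 (by norm_num)]
    have h18 : 2 * (K : ℝ) * (((k + 1 : ℕ) : ℝ) + 1) ^ d ≤ 2 * K * ((M : ℝ) + 1) ^ d :=
      mul_le_mul_of_nonneg_left h15 (by positivity)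
    linarith
  linarith

end Pool.Agent.Helper9.DG
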