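import Mathlib

/-!
PROJECT DG, module DG-19. A long gap.

`κ_i = (2 (d + 1))^i κ`, `i ≤ d + 1`. The intervals `[κ_i, κ_(i+1))`, `i = 0, ..., d`, are disjoint and there are `d + 1` of them, `|Z| ≤ d`: one of them contains no element of `Z`
(pigeonhole: otherwise choose an element of `Z` in each; this is an injection). In `[κ_i, 2 κ_i)` there are `κ_i ≥ (S + 2)(J + 1) > (S + 1)(J + 1)` integers, i.e. at least `S + 1` disjoint
blocks of `J + 1` consecutive integers `[κ_i + l (J + 1), κ_i + (l + 1)(J + 1))`, `l ≤ S`; at most `S` of the integers `n < K` have `u_n ≠ 0`, so one block consists of zeros of `u`. From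
its end on, strong induction with `hstep`: `u_n = 0` for all `n < κ_(i+1) ≤ K` (`n ≥ J` as `κ_i ≥ J`; `n ∉ Z`). Take `h = 2 κ_i`: `(d + 1) h = κ_(i+1)`.
Proved by helper59.
-/

set_option autoImplicit false

namespace Pool.Agent.Helper9.DG

open Polynomial Finset

/-- Pigeonhole: `m + 1` consecutive disjoint intervals cannot all meet a set with `m` elements. -/
theorem exists_free (m : ℕ) (a : ℕ → ℕ) (ha : Monotone a) (Z : Finset ℕ) (hZ : Z.card ≤ m) :
    ∃ i, i ≤ m ∧ ∀ z ∈ Z, ¬ (a i ≤ z ∧ z < a (i + 1)) := by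
  by_contra hcon
  push Not at hcon
  choose! z hz1 hz2 using hcon
  have hinj : Set.InjOn z (range (m + 1) : Set ℕ) := by
    intro i hi j hj hij
    have hi' : i ≤ m := by
      have := Finset.mem_range.mp (Finset.mem_coe.mp hi); omega
    have hj' : j ≤ m := by
      have := Finset.mem_range.mp (Finset.mem_coe.mp hj); omega
    rcases lt_trichotomy i j with h | h | h
    · have h1 := (hz2 i hi').2
      have h2 := (hz2 j hj').1
      have h3 : a (i + 1) ≤ a j := ha h
      omega
    · exact h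
    · have h1 := (hz2 j hj').2
      have h2 := (hz2 i hi').1
      have h3 : a (j + 1) ≤ a i := ha h
      omega
  have hle : (range (m + 1)).card ≤ Z.card := by
    refine Finset.card_le_card_of_injOn z ?_ hinj
    intro i hi
    have hi' : i ≤ m := by
      have := Finset.mem_range.mp (Finset.mem_coe.mp hi); omega
    exact hz1 i hi'
  rw [card_range] at hle
  omega

theorem gap (d S J K κ : ℕ) (u : ℕ → ℤ) (Z : Finset ℕ) (hZ : Z.card ≤ d)
    (hS : ((range K).filter (fun n => u n ≠ 0)).card ≤ S) (hκ : (S + 2) * (J + 1) ≤ κ)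
    (hK : (2 * (d + 1)) ^ (d + 1) * κ ≤ K)
    (hstep : ∀ n, J ≤ n → n < K → n ∉ Z → (∀ j, 1 ≤ j → j ≤ J → u (n - j) = 0) → u n = 0) :
    ∃ h, κ ≤ h ∧ (d + 1) * h ≤ K ∧ ∀ n, h ≤ n → n < (d + 1) * h → u n = 0 := by
  have hmono : Monotone (fun i => (2 * (d + 1)) ^ i * κ) := by
    intro i j hij
    exact Nat.mul_le_mul_right _ (Nat.pow_le_pow_right (by omega) hij)
  obtain ⟨i, hi, hfree⟩ := exists_free d _ hmono Z hZ
  have hle1 : (2 * (d + 1)) ^ (i + 1) * κ ≤ K := (hmono (by omega : i + 1 ≤ d + 1)).trans hK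
  have hκi : κ ≤ (2 * (d + 1)) ^ i * κ := Nat.le_mul_of_pos_left _ (by positivity)
  have hsucc : (2 * (d + 1)) ^ (i + 1) * κ = (d + 1) * (2 * ((2 * (d + 1)) ^ i * κ)) := by ring
  rw [hsucc] at hle1 hfree
  generalize (2 * (d + 1)) ^ i * κ = k at *
  have hk2 : 2 * k ≤ (d + 1) * (2 * k) := Nat.le_mul_of_pos_left _ (by omega)
  -- a free block
  have hmono2 : Monotone (fun l => k + l * (J + 1)) := by
    intro l l' hl
    exact Nat.add_le_add_left (Nat.mul_le_mul_right _ hl) _
  obtain ⟨l, hl, hblock⟩ := exists_free S _ hmono2 _ hS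
  simp only [mem_filter, mem_range, ne_eq, and_imp] at hblock
  have hlS : (l + 1) * (J + 1) ≤ (S + 1) * (J + 1) := Nat.mul_le_mul_right _ (by omega)
  have hS2 : (S + 2) * (J + 1) = (S + 1) * (J + 1) + (J + 1) := by ring
  have hl1 : (l + 1) * (J + 1) = l * (J + 1) + (J + 1) := by ring
  have hzero : ∀ n, k + l * (J + 1) ≤ n → n < (d + 1) * (2 * k) → u n = 0 := by
    intro n
    induction n using Nat.strong_induction_on with
    | _ n ih =>
      intro hn1 hn2
      by_cases hn3 : n < k + (l + 1) * (J + 1)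
      · by_contra hne
        exact hblock n (by omega) hne ⟨hn1, hn3⟩
      · refine hstep n (by omega) (by omega) ?_ ?_
        · intro hnZ
          exact hfree n hnZ ⟨by omega, hn2⟩
        · intro j hj1 hj2
          exact ih (n - j) (by omega) (by omega) (by omega)
  refine ⟨2 * k, by omega, hle1, ?_⟩
  intro n hn1 hn2
  exact hzero n (by omega) hn2

end Pool.Agent.Helper9.DG
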