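import Pool.Agent.Helper9.DG.Defs

/-!
PROJECT DG, module DG-08. The monic polynomial of `A_d V`.

`mon_monic`, `natDegree_mon`: `monic_X_pow_add` with the sum of degree `< d` (`degree_sum_fin_lt` or `degree_sum_le`).
`coeff_mon`: for `i < d`.
`eval_mon`: `(A_d V)^d + ∑_{i<d} A_i A_d^(d-1-i) (A_d V)^i = A_d^(d-1) (A_d V^d + ∑_{i<d} A_i V^i)`.
`eval_derivative_mon`: `d (A_d V)^(d-1) + ∑_{1 ≤ i < d} i A_i A_d^(d-1-i) (A_d V)^(i-1) = A_d^(d-2) ∑_{i ≤ d} i A_i V^(i-1)`.
`BB_mon`: `natDegree (A_i A_d^(d-1-i)) ≤ L + (d-1-i) L ≤ d L` (and the leading coefficient `1`, the coefficients beyond are `0`).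
-/

set_option autoImplicit false

namespace Pool.Agent.Helper9.DG

open Polynomial Finset

private theorem monic_cs (d : ℕ) (a : ℕ → ℤ[X]) (n : ℕ) :
    (∑ i ∈ range d, C (a i) * (X : ℤ[X][X]) ^ i).coeff n = if n < d then a n else 0 := by
  rw [finsetSum_coeff]
  simp only [coeff_C_mul_X_pow]
  rw [Finset.sum_ite_eq]
  simp only [Finset.mem_range]

private theorem monic_deg (d : ℕ) (a : ℕ → ℤ[X]) :
    (∑ i ∈ range d, C (a i) * (X : ℤ[X][X]) ^ i).degree < d := by
  rw [degree_lt_iff_coeff_zero]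
  intro m hm
  rw [monic_cs, if_neg (by omega)]

theorem mon_monic (d : ℕ) (A : ℕ → ℤ[X]) : (mon d A).Monic := by
  unfold mon
  exact monic_X_pow_add (monic_deg d _)

theorem natDegree_mon (d : ℕ) (A : ℕ → ℤ[X]) : (mon d A).natDegree = d := by
  unfold mon
  refine natDegree_eq_of_degree_eq_some ?_
  rw [degree_add_eq_left_of_degree_lt, degree_X_pow]
  rw [degree_X_pow]
  exact monic_deg d _

private theorem monic_coeff (d : ℕ) (A : ℕ → ℤ[X]) (i : ℕ) :
    (mon d A).coeff i = (if i = d then 1 else 0) +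
      (if i < d then A i * A d ^ (d - 1 - i) else 0) := by
  unfold mon
  rw [coeff_add, coeff_X_pow, monic_cs d (fun i => A i * A d ^ (d - 1 - i)) i]

theorem coeff_mon (d : ℕ) (A : ℕ → ℤ[X]) (i : ℕ) (hi : i < d) :
    (mon d A).coeff i = A i * A d ^ (d - 1 - i) := by
  rw [monic_coeff, if_neg (by omega), if_pos hi, zero_add]

theorem eval_mon (d : ℕ) (A : ℕ → ℤ[X]) (V : ℤ[X]) (hd : 1 ≤ d) :
    (mon d A).eval (A d * V) = A d ^ (d - 1) * fm d A V := by
  unfold mon fm
  rw [eval_add, eval_pow, eval_X, eval_finsetSum, sum_range_succ, mul_add, mul_sum, add_comm]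
  congr 1
  · refine sum_congr rfl fun i hi => ?_
    rw [mem_range] at hi
    rw [eval_mul, eval_C, eval_pow, eval_X, mul_pow]
    have h1 : A d ^ (d - 1) = A d ^ (d - 1 - i) * A d ^ i := by
      rw [← pow_add]
      congr 1
      omega
    rw [h1]
    ring
  · have h1 : A d ^ d = A d ^ (d - 1) * A d := by
      rw [← pow_succ]
      congr 1
      omega
    rw [mul_pow, h1]
    ring

theorem eval_derivative_mon (d : ℕ) (A : ℕ → ℤ[X]) (V : ℤ[X]) (hd : 2 ≤ d) :
    (derivative (mon d A)).eval (A d * V) = A d ^ (d - 2) * fmT d A V := by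
  unfold mon fmT
  rw [derivative_add, derivative_X_pow, derivative_sum, eval_add, eval_finsetSum, sum_range_succ,
    mul_add, mul_sum, add_comm]
  congr 1
  · refine sum_congr rfl fun i hi => ?_
    rw [mem_range] at hi
    rw [derivative_C_mul_X_pow, eval_mul, eval_C, eval_pow, eval_X]
    rcases Nat.eq_zero_or_pos i with h0 | h0
    · subst h0
      simp
    · have h1 : A d ^ (d - 2) = A d ^ (d - 1 - i) * A d ^ (i - 1) := by
        rw [← pow_add]
        congr 1
        omega
      rw [h1, mul_pow]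
      ring
  · rw [eval_mul, eval_C, eval_pow, eval_X, mul_pow]
    have h1 : A d ^ (d - 1) = A d ^ (d - 2) * A d := by
      rw [← pow_succ]
      congr 1
      omega
    rw [h1]
    ring

theorem BB_mon (d L : ℕ) (A : ℕ → ℤ[X]) (hA : ∀ i, (A i).natDegree ≤ L) :
    BB d (d * L) (mon d A) := by
  refine ⟨(natDegree_mon d A).le, fun i => ?_⟩
  rw [monic_coeff]
  rcases lt_trichotomy i d with h | h | h
  · rw [if_neg (by omega), if_pos h, zero_add]
    refine natDegree_mul_le.trans ?_
    have h1 : (A d ^ (d - 1 - i)).natDegree ≤ (d - 1 - i) * L :=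
      natDegree_pow_le.trans (Nat.mul_le_mul_left _ (hA d))
    have h2 := hA i
    have h3 : L + (d - 1 - i) * L = (d - i) * L := by
      have h4 : d - i = d - 1 - i + 1 := by omega
      rw [h4]
      ring
    have h5 : (d - i) * L ≤ d * L := Nat.mul_le_mul_right _ (by omega)
    omega
  · rw [if_pos h, if_neg (by omega), add_zero, natDegree_one]
    exact Nat.zero_le _
  · rw [if_neg (by omega), if_neg (by omega), add_zero, natDegree_zero]
    exact Nat.zero_le _

end Pool.Agent.Helper9.DG
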