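import Pool.Agent.Helper9.DG.Biv

/-!
PROJECT DG, module DG-16. A linear relation modulo `f`. (Proved by helper9.)

`δ = 5 d^2 l`. Unknown integers: the coefficients of `a_0, ..., a_d` (degree `≤ δ`): `(d + 1)(δ + 1)`, and of `c = ∑_{i ≤ 2 d^2 - d} c_i T^i`, `deg c_i ≤ δ + 2 d l`:
`(2 d^2 - d + 1)(δ + 2 d l + 1)`. Equations: the coefficients of `T^i X^j`, `i ≤ 2 d^2`, `j ≤ δ + 2 d l + l`, of `∑ a_k W_k - c f`: `(2 d^2 + 1)(δ + 2 d l + l + 1)`; all other coefficients
vanish automatically (degrees). Unknowns minus equations: `(δ + 1) - 2 d^2 l - (2 d^2 + 1) l = d^2 l - l + 1 ≥ 1`.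
-/

set_option autoImplicit false

namespace Pool.Agent.Helper9.DG

open Polynomial Finset

/-- More polynomials than coefficients: a linear relation over the integers. -/
theorem exists_int_rel {ι : Type*} [Fintype ι] (g : ι → ℤ[X][X]) (T x : ℕ)
    (hg : ∀ u, BB T x (g u)) (hcard : (T + 1) * (x + 1) < Fintype.card ι) :
    ∃ t : ι → ℤ, t ≠ 0 ∧ ∑ u, C (C (t u)) * g u = 0 := by
  classical
  obtain ⟨A, hA⟩ : ∃ A : Matrix (Fin (T + 1) × Fin (x + 1)) ι ℤ,
      A = fun p u => ((g u).coeff p.1.1).coeff p.2.1 := ⟨_, rfl⟩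
  have h1 : Fintype.card (Fin (T + 1) × Fin (x + 1)) = (T + 1) * (x + 1) := by
    rw [Fintype.card_prod, Fintype.card_fin, Fintype.card_fin]
  obtain ⟨t, ht0, htA, -⟩ := Int.Matrix.exists_ne_zero_int_vec_norm_le A (by rwa [h1])
    (by rw [h1]; positivity)
  refine ⟨t, ht0, ?_⟩
  ext i j
  rw [finsetSum_coeff, finsetSum_coeff, coeff_zero, coeff_zero]
  have h2 : ∀ u, ((C (C (t u)) * g u).coeff i).coeff j = t u * ((g u).coeff i).coeff j := by
    intro u
    rw [coeff_C_mul, coeff_C_mul]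
  simp only [h2]
  by_cases hi : i < T + 1
  · by_cases hj : j < x + 1
    · have h3 : Matrix.mulVec A t (⟨i, hi⟩, ⟨j, hj⟩) = 0 := by rw [htA]; rfl
      rw [Matrix.mulVec, dotProduct, hA] at h3
      rw [← h3]
      refine Finset.sum_congr rfl (fun u _ => ?_)
      ring
    · refine Finset.sum_eq_zero (fun u _ => ?_)
      have : ((g u).coeff i).natDegree < j := lt_of_le_of_lt ((hg u).2 i) (by omega)
      rw [coeff_eq_zero_of_natDegree_lt this, mul_zero]
  · refine Finset.sum_eq_zero (fun u _ => ?_)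
    have : (g u).natDegree < i := lt_of_le_of_lt (hg u).1 (by omega)
    rw [coeff_eq_zero_of_natDegree_lt this, coeff_zero, mul_zero]

/-- A sum of monomials with integer coefficients. -/
theorem coeff_sum_fin (n : ℕ) (t : Fin n → ℤ) (i : Fin n) :
    (∑ m : Fin n, C (t m) * X ^ m.1 : ℤ[X]).coeff i.1 = t i := by
  rw [finsetSum_coeff, Finset.sum_eq_single i]
  · simp
  · intro j _ hj
    have : i.1 ≠ j.1 := fun h => hj (Fin.ext h.symm)
    rw [coeff_C_mul, coeff_X_pow, if_neg this, mul_zero]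
  · intro h
    exact absurd (Finset.mem_univ i) h

theorem natDegree_sum_fin (n x : ℕ) (hn : n = x + 1) (t : Fin n → ℤ) :
    (∑ m : Fin n, C (t m) * X ^ m.1 : ℤ[X]).natDegree ≤ x := by
  refine natDegree_sum_le_of_forall_le _ _ fun i _ => ?_
  refine (natDegree_C_mul_X_pow_le _ _).trans ?_
  have := i.2
  omega

theorem BB_C_X_pow (m : ℕ) : BB 0 m (C (X ^ m) : ℤ[X][X]) := by
  refine ⟨by rw [natDegree_C], fun i => ?_⟩
  rw [coeff_C]
  split_ifs
  · rw [natDegree_X_pow]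
  · rw [natDegree_zero]; exact Nat.zero_le _

theorem exists_rel (f : ℤ[X][X]) (d l : ℕ) (hd : 1 ≤ d) (hl : 1 ≤ l) (hf : BB d l f)
    (hf0 : f ≠ 0) (W : ℕ → ℤ[X][X]) (hW : ∀ k ≤ d, BB (2 * d ^ 2) (2 * d * l) (W k)) :
    ∃ (a : ℕ → ℤ[X]) (c : ℤ[X][X]), (∀ k, (a k).natDegree ≤ 5 * d ^ 2 * l) ∧
      (∃ k ≤ d, a k ≠ 0) ∧ ∑ k ∈ range (d + 1), C (a k) * W k = c * f := by
  classical
  obtain ⟨δ, hδ⟩ : ∃ δ, δ = 5 * d ^ 2 * l := ⟨_, rfl⟩
  obtain ⟨p, hp⟩ : ∃ p, 2 * d ^ 2 = p + d := by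
    refine ⟨2 * d ^ 2 - d, ?_⟩
    have : d ≤ 2 * d ^ 2 := by nlinarith
    omega
  obtain ⟨x, hx⟩ : ∃ x, x = δ + 2 * d * l := ⟨_, rfl⟩
  -- the family
  obtain ⟨g, hgdef⟩ : ∃ g : (Fin (d + 1) × Fin (δ + 1)) ⊕ (Fin (p + 1) × Fin (x + 1)) → ℤ[X][X],
      g = Sum.elim (fun km => C (X ^ km.2.1) * W km.1.1)
        (fun im => -(C (X ^ im.2.1) * X ^ im.1.1 * f)) := ⟨_, rfl⟩
  have hg : ∀ u, BB (2 * d ^ 2) (x + l) (g u) := by
    rintro (⟨k, m⟩ | ⟨i, m⟩)
    · rw [hgdef, Sum.elim_inl]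
      have h1 := (BB_C_X_pow m.1).mul (hW k.1 (by have := k.2; omega))
      refine h1.mono (by omega) ?_
      have := m.2
      omega
    · rw [hgdef, Sum.elim_inr]
      have h1 := (((BB_C_X_pow m.1).mul (BB_X.pow i.1)).mul hf).neg
      refine h1.mono ?_ ?_
      · have := i.2
        omega
      · have := m.2
        omega
  have hcard : (2 * d ^ 2 + 1) * (x + l + 1) <
      Fintype.card ((Fin (d + 1) × Fin (δ + 1)) ⊕ (Fin (p + 1) × Fin (x + 1))) := by
    rw [Fintype.card_sum, Fintype.card_prod, Fintype.card_prod, Fintype.card_fin, Fintype.card_fin,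
      Fintype.card_fin, Fintype.card_fin]
    have hp' : (p : ℤ) = 2 * (d : ℤ) ^ 2 - d := by
      have : ((2 * d ^ 2 : ℕ) : ℤ) = ((p + d : ℕ) : ℤ) := by rw [hp]
      push_cast at this
      linarith
    zify
    rw [hp', hx, hδ]
    push_cast
    have h1 : (1 : ℤ) ≤ d := by exact_mod_cast hd
    have h2 : (1 : ℤ) ≤ l := by exact_mod_cast hl
    have h3 : (0 : ℤ) ≤ (l : ℤ) * ((d : ℤ) ^ 2 - 1) := by
      apply mul_nonneg (by linarith)
      nlinarith
    nlinarith
  obtain ⟨t, ht0, hrel⟩ := exists_int_rel g (2 * d ^ 2) (x + l) hg hcard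
  obtain ⟨a, ha⟩ : ∃ a : ℕ → ℤ[X], a = fun k => if hk : k < d + 1 then
    ∑ m : Fin (δ + 1), C (t (Sum.inl (⟨k, hk⟩, m))) * X ^ m.1 else 0 := ⟨_, rfl⟩
  obtain ⟨e, he⟩ : ∃ e : Fin (p + 1) → ℤ[X], e = fun i =>
    ∑ m : Fin (x + 1), C (t (Sum.inr (i, m))) * X ^ m.1 := ⟨_, rfl⟩
  obtain ⟨c, hc⟩ : ∃ c : ℤ[X][X], c = ∑ i : Fin (p + 1), C (e i) * X ^ i.1 := ⟨_, rfl⟩
  have hak : ∀ k : Fin (d + 1), a k.1 = ∑ m : Fin (δ + 1), C (t (Sum.inl (k, m))) * X ^ m.1 := by
    intro k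
    rw [ha]
    show (if hk : k.1 < d + 1 then _ else _) = _
    rw [dif_pos k.2]
  have hrel2 : ∑ k ∈ range (d + 1), C (a k) * W k = c * f := by
    rw [Fintype.sum_sum_type, Fintype.sum_prod_type, Fintype.sum_prod_type] at hrel
    rw [Finset.sum_range]
    have h1 : ∑ k : Fin (d + 1), ∑ m : Fin (δ + 1), C (C (t (Sum.inl (k, m)))) *
        g (Sum.inl (k, m)) = ∑ k : Fin (d + 1), C (a k.1) * W k.1 := by
      refine Finset.sum_congr rfl (fun k _ => ?_)
      rw [hak k, map_sum, Finset.sum_mul]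
      refine Finset.sum_congr rfl (fun m _ => ?_)
      rw [hgdef, Sum.elim_inl, map_mul]
      ring
    have h2 : ∑ i : Fin (p + 1), ∑ m : Fin (x + 1), C (C (t (Sum.inr (i, m)))) *
        g (Sum.inr (i, m)) = -(c * f) := by
      rw [hc, Finset.sum_mul, ← Finset.sum_neg_distrib]
      refine Finset.sum_congr rfl (fun i _ => ?_)
      rw [he, map_sum, Finset.sum_mul, Finset.sum_mul, ← Finset.sum_neg_distrib]
      refine Finset.sum_congr rfl (fun m _ => ?_)
      rw [hgdef, Sum.elim_inr, map_mul]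
      ring
    rw [h1, h2] at hrel
    linear_combination hrel
  refine ⟨a, c, ?_, ?_, hrel2⟩
  · intro k
    by_cases hk : k < d + 1
    · rw [hak ⟨k, hk⟩, ← hδ]
      exact natDegree_sum_fin _ _ rfl _
    · rw [ha]
      show (if hk : k < d + 1 then _ else (0 : ℤ[X])).natDegree ≤ _
      rw [dif_neg hk, natDegree_zero]
      exact Nat.zero_le _
  · by_contra hcon
    push Not at hcon
    have hc0 : c = 0 := by
      have h1 : c * f = 0 := by
        rw [← hrel2]
        refine Finset.sum_eq_zero (fun k hk => ?_)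
        rw [hcon k (Nat.lt_succ_iff.1 (Finset.mem_range.1 hk)), C_0, zero_mul]
      rcases mul_eq_zero.1 h1 with h | h
      · exact h
      · exact absurd h hf0
    apply ht0
    funext u
    rcases u with ⟨k, m⟩ | ⟨i, m⟩
    · have h1 := hcon k.1 (by have := k.2; omega)
      rw [hak k] at h1
      have h2 := coeff_sum_fin (δ + 1) (fun m => t (Sum.inl (k, m))) m
      rw [h1, coeff_zero] at h2
      exact h2.symm
    · have h1 : e i = 0 := by
        have h3 : (∑ i : Fin (p + 1), C (e i) * X ^ i.1 : ℤ[X][X]).coeff i.1 = e i := by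
          rw [finsetSum_coeff, Finset.sum_eq_single i]
          · simp
          · intro j _ hj
            have : i.1 ≠ j.1 := fun h => hj (Fin.ext h.symm)
            rw [coeff_C_mul, coeff_X_pow, if_neg this, mul_zero]
          · intro h
            exact absurd (Finset.mem_univ i) h
        rw [← h3, ← hc, hc0, coeff_zero]
      have h2 := coeff_sum_fin (x + 1) (fun m => t (Sum.inr (i, m))) m
      rw [he] at h1
      have h1' : (∑ m : Fin (x + 1), C (t (Sum.inr (i, m))) * X ^ m.1 : ℤ[X]) = 0 := h1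
      rw [h1', coeff_zero] at h2
      exact h2.symm

end Pool.Agent.Helper9.DG
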