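import Pool.Agent.Helper9.DG.Biv

/-!
PROJECT DG, module DG-15. Degrees of `QQ` and `WW`.

`BB_QQ`: induction on `k ≥ 1`. `k = 1`: `-dX f` has the bounds of `f` (`d ≤ 2 d`, `l ≤ 2 l`). Step: each of the three terms has bounds `(2 d + t, 2 l + x)`, `(t, x)` the bounds of
`QQ f k` (`BB.mul`, `BB.pow`, `BB.derivative`, `BB.dX`, `BB_intCast`, `BB.sub`).
`BB_WW`: `k = 0`: `1 + (2 d - 1) d ≤ 2 d^2`, `(2 d - 1) l ≤ 2 d l`; `1 ≤ k ≤ d`: `2 d k + 2 (d - k) d = 2 d^2`, `2 l k + 2 (d - k) l = 2 d l`.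
Proved by helper59.
-/

set_option autoImplicit false

namespace Pool.Agent.Helper9.DG

open Polynomial Finset

theorem BB_QQ (f : ℤ[X][X]) (d l : ℕ) (hf : BB d l f) (k : ℕ) (hk : 1 ≤ k) :
    BB (2 * d * k) (2 * l * k) (QQ f k) := by
  induction k, hk using Nat.le_induction with
  | base =>
    show BB _ _ (-dX f)
    exact hf.dX.neg.mono (by nlinarith) (by nlinarith)
  | succ k hk ih =>
    obtain ⟨k, rfl⟩ : ∃ m, k = m + 1 := ⟨k - 1, by omega⟩
    show BB _ _ (derivative f ^ 2 * dX (QQ f (k + 1)) - derivative f * dX f *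
      derivative (QQ f (k + 1)) - ((2 * (k + 1) - 1 : ℤ) : ℤ[X][X]) *
      (dX (derivative f) * derivative f - derivative (derivative f) * dX f) * QQ f (k + 1))
    have hd := hf.derivative
    have h1 := (hd.pow 2).mul ih.dX
    have h2 := (hd.mul hf.dX).mul ih.derivative
    have h3 := ((BB_intCast (2 * (k + 1) - 1)).mul
      ((hd.dX.mul hd).sub (hd.derivative.mul hf.dX))).mul ih
    exact ((h1.mono (t' := 2 * d * (k + 1 + 1)) (x' := 2 * l * (k + 1 + 1)) (by nlinarith)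
      (by nlinarith)).sub (h2.mono (by nlinarith) (by nlinarith))).sub
      (h3.mono (by nlinarith) (by nlinarith))

theorem BB_WW (f : ℤ[X][X]) (d l : ℕ) (hf : BB d l f) (hd : 1 ≤ d) (k : ℕ) (hk : k ≤ d) :
    BB (2 * d ^ 2) (2 * d * l) (WW f d k) := by
  unfold WW
  have hfd := hf.derivative
  split_ifs with h
  · refine (BB_X.mul (hfd.pow (2 * d - 1))).mono ?_ ?_
    · obtain ⟨e, rfl⟩ : ∃ e, d = e + 1 := ⟨d - 1, by omega⟩
      have : 2 * (e + 1) - 1 = 2 * e + 1 := by omega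
      rw [this]
      nlinarith
    · rw [zero_add]
      exact Nat.mul_le_mul_right _ (Nat.sub_le _ _)
  · obtain ⟨e, rfl⟩ : ∃ e, d = k + e := ⟨d - k, by omega⟩
    have he : k + e - k = e := by omega
    rw [he]
    refine ((BB_QQ f _ l hf k (by omega)).mul (hfd.pow (2 * e))).mono ?_ ?_
    · nlinarith
    · nlinarith

end Pool.Agent.Helper9.DG
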