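import Mathlib

/-!
PROJECT DG, module DG-09. Divisibility by powers of `X` in `ℤ[X]`.

`X` is prime in `ℤ[X]` (`prime_X`). `dvd_of_mul`: if `P` is not divisible by `X^a`, write `P = X^i P'` with `i < a`, `X ∤ P'` (`i` = the least index with nonzero coefficient, or
`multiplicity`), then `X^N ∣ P^m Z = X^(i m) P'^m Z` gives `X^(N - i m) ∣ Z` (`X` prime, `X ∤ P'^m`; `Prime.pow_dvd_of_dvd_mul_left`), and `N - a m ≤ N - i m`.
`not_dvd_of_natDegree_lt`: a nonzero polynomial of degree `≤ L` is not divisible by `X^(L+1)`.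
-/

set_option autoImplicit false

namespace Pool.Agent.Helper9.DG

open Polynomial Finset

theorem dvd_core (P Z Q : ℤ[X]) (i m M : ℕ) (hP : P = X ^ i * Q) (hQ : ¬ (X : ℤ[X]) ∣ Q)
    (h : X ^ M ∣ P ^ m * Z) : X ^ (M - i * m) ∣ Z := by
  rcases le_total M (i * m) with hM | hM
  · rw [Nat.sub_eq_zero_of_le hM, pow_zero]
    exact one_dvd Z
  · obtain ⟨r, rfl⟩ := Nat.exists_eq_add_of_le hM
    rw [Nat.add_sub_cancel_left]
    have h1 : P ^ m * Z = X ^ (i * m) * (Q ^ m * Z) := by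
      rw [hP, mul_pow, ← pow_mul, mul_assoc]
    rw [h1, pow_add] at h
    have h2 : (X : ℤ[X]) ^ r ∣ Q ^ m * Z :=
      (mul_dvd_mul_iff_left (pow_ne_zero _ X_ne_zero)).1 h
    have hQm : ¬ (X : ℤ[X]) ∣ Q ^ m := fun hd => hQ (prime_X.dvd_of_dvd_pow hd)
    exact prime_X.pow_dvd_of_dvd_mul_left r hQm h2

theorem dvd_of_mul (P Z : ℤ[X]) (a m N : ℕ) (hP : ¬ X ^ a ∣ P) (h : X ^ N ∣ P ^ m * Z) :
    X ^ (N - a * m) ∣ Z := by
  have hP0 : P ≠ 0 := by
    rintro rfl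
    exact hP (dvd_zero _)
  obtain ⟨i, Q, hQ, hPQ⟩ := WfDvdMonoid.max_power_factor hP0 (prime_X (R := ℤ)).irreducible
  have hi : i ≤ a := by
    by_contra hc
    push Not at hc
    exact hP ((pow_dvd_pow X hc.le).trans ⟨Q, hPQ⟩)
  have h1 := dvd_core P Z Q i m N hPQ hQ h
  exact (pow_dvd_pow X (Nat.sub_le_sub_left (Nat.mul_le_mul_right m hi) N)).trans h1

theorem dvd_of_mul_natDegree (P Z : ℤ[X]) (L m N : ℕ) (hP : P ≠ 0) (hL : P.natDegree ≤ L)
    (h : X ^ (N + L * m) ∣ P ^ m * Z) : X ^ N ∣ Z := by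
  obtain ⟨i, Q, hQ, hPQ⟩ := WfDvdMonoid.max_power_factor hP (prime_X (R := ℤ)).irreducible
  have hQ0 : Q ≠ 0 := by
    rintro rfl
    exact hQ (dvd_zero _)
  have hi : i ≤ L := by
    have h2 : P.natDegree = i + Q.natDegree := by
      rw [hPQ, natDegree_mul (pow_ne_zero _ X_ne_zero) hQ0, natDegree_X_pow]
    omega
  have h1 := dvd_core P Z Q i m (N + L * m) hPQ hQ h
  refine (pow_dvd_pow X ?_).trans h1
  have := Nat.mul_le_mul_right m hi
  omega

end Pool.Agent.Helper9.DG
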