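import Pool.Agent.Helper9.DG.QRec
import Pool.Agent.Helper9.DG.QDeg
import Pool.Agent.Helper9.DG.LinAlg
import Pool.Agent.Helper9.DG.XVal

/-!
PROJECT DG, module DG-17. The linear differential equation. (Proved by helper9.)

`exists_rel` with `W = WW f d` (`BB_WW`); evaluate `∑ C (a_k) W_k = c f` at `U`: `∑ a_k W_k(U)` is divisible by `X^M`; `eval_WW`: `P^(2d-1) ∑ a_k U^(k)` is divisible by `X^(M-d)`
(`P = (derivative f).eval U`); `dvd_of_mul`.
-/

set_option autoImplicit false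

namespace Pool.Agent.Helper9.DG

open Polynomial Finset

theorem ode (f : ℤ[X][X]) (d l : ℕ) (hd : 1 ≤ d) (hl : 1 ≤ l) (hf : BB d l f) (hf0 : f ≠ 0)
    (U : ℤ[X]) (M ρ : ℕ) (hfU : X ^ M ∣ f.eval U) (hρ : ¬ X ^ ρ ∣ (derivative f).eval U) :
    ∃ a : ℕ → ℤ[X], (∀ k, (a k).natDegree ≤ 5 * d ^ 2 * l) ∧ (∃ k ≤ d, a k ≠ 0) ∧
      X ^ (M - d - ρ * (2 * d - 1)) ∣ ∑ k ∈ range (d + 1), a k * derivative^[k] U := by
  obtain ⟨a, c, ha, hne, hrel⟩ := exists_rel f d l hd hl hf hf0 (WW f d)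
    (fun k hk => BB_WW f d l hf hd k hk)
  refine ⟨a, ha, hne, ?_⟩
  refine dvd_of_mul ((derivative f).eval U) _ ρ (2 * d - 1) (M - d) hρ ?_
  have h1 : X ^ (M - d) ∣ ∑ k ∈ range (d + 1), a k * (WW f d k).eval U := by
    have h2 : ∑ k ∈ range (d + 1), a k * (WW f d k).eval U = c.eval U * f.eval U := by
      rw [← eval_mul, ← hrel, eval_finsetSum]
      refine Finset.sum_congr rfl (fun k _ => ?_)
      rw [eval_mul, eval_C]
    rw [h2]
    exact ((pow_dvd_pow X (Nat.sub_le M d)).trans hfU).mul_left _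
  have h3 : X ^ (M - d) ∣ ∑ k ∈ range (d + 1), a k *
      ((derivative f).eval U ^ (2 * d - 1) * derivative^[k] U - (WW f d k).eval U) := by
    refine Finset.dvd_sum (fun k hk => ?_)
    exact (eval_WW f U M d hfU hd k (Nat.lt_succ_iff.1 (Finset.mem_range.1 hk))).mul_left _
  have h4 := dvd_add h1 h3
  have h5 : ∑ k ∈ range (d + 1), a k * (WW f d k).eval U + ∑ k ∈ range (d + 1), a k *
      ((derivative f).eval U ^ (2 * d - 1) * derivative^[k] U - (WW f d k).eval U) =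
      (derivative f).eval U ^ (2 * d - 1) * ∑ k ∈ range (d + 1), a k * derivative^[k] U := by
    rw [← Finset.sum_add_distrib, Finset.mul_sum]
    refine Finset.sum_congr rfl (fun k _ => ?_)
    ring
  rw [h5] at h4
  exact h4

end Pool.Agent.Helper9.DG
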