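import Mathlib

/-!
PROJECT DG, module DG-18. The recurrence for the coefficients. (Proved by helper9.)

Let `T` be the set of the pairs `(k, j)`, `k ≤ d`, with `(a_k)_j ≠ 0` (`j ≤ δ`), nonempty; `τ = max (k + δ - j)` over `T`. For `n ∈ ℕ` put
`q(n) = ∑_{k ≤ d, k + δ ≥ τ} (a_k)_(k + δ - τ) n (n-1) ... (n-k+1)`: the values of a nonzero polynomial of degree `≤ d`, so it has at most `d` zeros: `Z`. The coefficient of
`X^(n + δ - τ)` of `∑ a_k U^(k)` vanishes and equals `q(n) u_n`.
-/

set_option autoImplicit false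

namespace Pool.Agent.Helper9.DG

open Polynomial Finset

/-- Combinations of falling factorials have few zeros. -/
theorem exists_zeros (d : ℕ) (β : ℕ → ℤ) (hβ : ∃ k ≤ d, β k ≠ 0) :
    ∃ Z : Finset ℕ, Z.card ≤ d ∧ ∀ n : ℕ, n ∉ Z →
      ∑ k ∈ range (d + 1), β k * (n.descFactorial k : ℤ) ≠ 0 := by
  classical
  obtain ⟨q, hq⟩ : ∃ q : ℤ[X], q = ∑ k ∈ range (d + 1), C (β k) * descPochhammer ℤ k := ⟨_, rfl⟩
  have hqeval : ∀ n : ℕ, q.eval (n : ℤ) = ∑ k ∈ range (d + 1), β k * (n.descFactorial k : ℤ) := by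
    intro n
    rw [hq, eval_finsetSum]
    refine Finset.sum_congr rfl (fun k _ => ?_)
    rw [eval_mul, eval_C, descPochhammer_eval_eq_descFactorial]
  have hqd : q.natDegree ≤ d := by
    rw [hq]
    refine natDegree_sum_le_of_forall_le _ _ fun k hk => ?_
    refine (natDegree_C_mul_le _ _).trans ?_
    rw [descPochhammer_natDegree]
    exact Nat.lt_succ_iff.1 (Finset.mem_range.1 hk)
  have hq0 : q ≠ 0 := by
    obtain ⟨k₀, hk₀, hk₀'⟩ := hβ
    obtain ⟨k₁, hk₁, hmax⟩ := Finset.exists_max_image ((range (d + 1)).filter (fun k => β k ≠ 0)) id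
      ⟨k₀, Finset.mem_filter.2 ⟨Finset.mem_range.2 (by omega), hk₀'⟩⟩
    rw [Finset.mem_filter, Finset.mem_range] at hk₁
    have h1 : q.coeff k₁ = β k₁ := by
      rw [hq, finsetSum_coeff, Finset.sum_eq_single k₁]
      · rw [coeff_C_mul]
        have h2 := (monic_descPochhammer ℤ k₁).coeff_natDegree
        rw [descPochhammer_natDegree] at h2
        rw [h2, mul_one]
      · intro k hk hne
        rw [coeff_C_mul]
        rcases lt_or_gt_of_ne hne with h | h
        · have : (descPochhammer ℤ k).natDegree < k₁ := by rw [descPochhammer_natDegree]; exact h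
          rw [coeff_eq_zero_of_natDegree_lt this, mul_zero]
        · have : β k = 0 := by
            by_contra hne2
            have := hmax k (Finset.mem_filter.2 ⟨hk, hne2⟩)
            simp only [id] at this
            omega
          rw [this, zero_mul]
      · intro h
        exact absurd (Finset.mem_range.2 hk₁.1) h
    intro h
    rw [h, coeff_zero] at h1
    exact hk₁.2 h1.symm
  refine ⟨q.roots.toFinset.image Int.toNat, ?_, ?_⟩
  · calc (q.roots.toFinset.image Int.toNat).card ≤ q.roots.toFinset.card := Finset.card_image_le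
      _ ≤ Multiset.card q.roots := Multiset.toFinset_card_le _
      _ ≤ q.natDegree := card_roots' q
      _ ≤ d := hqd
  · intro n hn h0
    apply hn
    rw [Finset.mem_image]
    refine ⟨(n : ℤ), ?_, Int.toNat_natCast n⟩
    rw [Multiset.mem_toFinset, mem_roots hq0, IsRoot.def, hqeval, h0]

theorem recur (d δ M : ℕ) (a : ℕ → ℤ[X]) (ha : ∀ k, (a k).natDegree ≤ δ)
    (hne : ∃ k ≤ d, a k ≠ 0) (U : ℤ[X])
    (hU : X ^ M ∣ ∑ k ∈ range (d + 1), a k * derivative^[k] U) :
    ∃ Z : Finset ℕ, Z.card ≤ d ∧ ∀ n : ℕ, d + δ ≤ n → n + δ < M → n ∉ Z →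
      (∀ j, 1 ≤ j → j ≤ d + δ → U.coeff (n - j) = 0) → U.coeff n = 0 := by
  classical
  obtain ⟨T, hT⟩ : ∃ T : Finset (ℕ × ℕ), T = ((range (d + 1)) ×ˢ (range (δ + 1))).filter
    (fun p => (a p.1).coeff p.2 ≠ 0) := ⟨_, rfl⟩
  have hTmem : ∀ k j, (k, j) ∈ T ↔ (k < d + 1 ∧ j < δ + 1) ∧ (a k).coeff j ≠ 0 := by
    intro k j
    rw [hT, Finset.mem_filter, Finset.mem_product, Finset.mem_range, Finset.mem_range]
  have hTne : T.Nonempty := by
    obtain ⟨k, hk, hk0⟩ := hne
    refine ⟨(k, (a k).natDegree), ?_⟩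
    rw [hTmem]
    exact ⟨⟨by omega, by have := ha k; omega⟩, leadingCoeff_ne_zero.2 hk0⟩
  obtain ⟨⟨k₀, j₀⟩, hk₀, hmax⟩ := Finset.exists_max_image T (fun p => p.1 + δ - p.2) hTne
  obtain ⟨τ, hτ⟩ : ∃ τ, τ = k₀ + δ - j₀ := ⟨_, rfl⟩
  rw [hTmem] at hk₀
  have hk₀τ : k₀ + δ = τ + j₀ := by omega
  have hτd : τ ≤ d + δ := by omega
  have hcoef : ∀ k i, k ≤ d → (a k).coeff i ≠ 0 → k + δ ≤ τ + i := by
    intro k i hk hi
    have h1 : i ≤ δ := (le_natDegree_of_ne_zero hi).trans (ha k)
    have h2 := hmax (k, i) ((hTmem k i).2 ⟨⟨by omega, by omega⟩, hi⟩)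
    simp only at h2
    omega
  obtain ⟨β, hβdef⟩ : ∃ β : ℕ → ℤ, β = fun k => if τ ≤ k + δ then (a k).coeff (k + δ - τ) else 0 :=
    ⟨_, rfl⟩
  have hβ0 : ∃ k ≤ d, β k ≠ 0 := by
    refine ⟨k₀, by omega, ?_⟩
    rw [hβdef]
    simp only
    rw [if_pos (by omega), show k₀ + δ - τ = j₀ by omega]
    exact hk₀.2
  obtain ⟨Z, hZ, hZ'⟩ := exists_zeros d β hβ0
  refine ⟨Z, hZ, fun n hn hnM hnZ hz => ?_⟩
  have hm := X_pow_dvd_iff.1 hU (n + δ - τ) (by omega)
  rw [finsetSum_coeff] at hm
  have hterm : ∀ k ∈ range (d + 1), (a k * derivative^[k] U).coeff (n + δ - τ) =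
      β k * (n.descFactorial k : ℤ) * U.coeff n := by
    intro k hk
    have hkd : k ≤ d := Nat.lt_succ_iff.1 (Finset.mem_range.1 hk)
    rw [coeff_mul]
    have hzero : ∀ p ∈ antidiagonal (n + δ - τ), p.1 + τ ≠ k + δ →
        (a k).coeff p.1 * (derivative^[k] U).coeff p.2 = 0 := by
      intro p hp hne
      rw [HasAntidiagonal.mem_antidiagonal] at hp
      by_cases h0 : (a k).coeff p.1 = 0
      · rw [h0, zero_mul]
      · have h1 := hcoef k p.1 hkd h0
        have h2 : p.1 ≤ δ := (le_natDegree_of_ne_zero h0).trans (ha k)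
        rw [coeff_iterate_derivative]
        have h3 : p.2 + k = n - (τ + p.1 - (k + δ)) := by omega
        rw [h3, hz (τ + p.1 - (k + δ)) (by omega) (by omega), smul_zero, mul_zero]
    by_cases hτk : τ ≤ k + δ
    · rw [Finset.sum_eq_single (k + δ - τ, n - k)]
      · rw [hβdef]
        simp only
        rw [if_pos hτk, coeff_iterate_derivative, Nat.sub_add_cancel (by omega)]
        rw [nsmul_eq_mul]
        ring
      · intro p hp hne
        apply hzero p hp
        intro h
        apply hne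
        rw [HasAntidiagonal.mem_antidiagonal] at hp
        ext
        · simp only; omega
        · simp only; omega
      · intro h
        exfalso
        apply h
        rw [HasAntidiagonal.mem_antidiagonal]
        simp only
        omega
    · have h1 : β k = 0 := by rw [hβdef]; simp only; rw [if_neg hτk]
      rw [h1, zero_mul, zero_mul]
      refine Finset.sum_eq_zero (fun p hp => hzero p hp (by omega))
  rw [Finset.sum_congr rfl hterm, ← Finset.sum_mul] at hm
  rcases mul_eq_zero.1 hm with h | h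
  · exact absurd h (hZ' n hnZ)
  · exact h

end Pool.Agent.Helper9.DG
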