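import Pool.Agent.Helper9.DG.Defs

/-!
PROJECT DG, module DG-11. Parseval.

`p = (U.map (Int.castRingHom ℂ)).comp (C r * X)` (or `∑ u_n r^n X^n`), `p.coeff n = u_n r^n`; Mathlib's `sum_sq_norm_coeff_eq_circleAverage p`: `∑ ‖p_n‖^2` = circle average of
`‖p(θ)‖^2 = ‖aeval (r θ) U‖^2 ≤ B^2` (see the proof of `Pool.Agent.Helper2.Digits.sum_sq_le`, file Pool/Agent/Helper2/Digits/Fatou.lean, lines 157-250: `Real.circleAverage_mono_on_of_le_circle`).
`card_nonzero_le`: with `r = 1 - 1/K`: each `n < K` with `u_n ≠ 0` contributes `≥ r^(2n) ≥ (1 - 1/K)^(2K) ≥ 1/16` (`(1 - 1/K)^K ≥ 1/4` for `K ≥ 2`: `1/(1 - 1/K) = 1 + 1/(K-1)` and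
`(1 + 1/(K-1))^K = (1 + 1/(K-1))^(K-1) (1 + 1/(K-1)) ≤ ...`; or `(1 - x)^K ≥ 4^(-xK)` for `0 ≤ x ≤ 1/2`, e.g. from `Real.add_one_le_exp` / convexity; `log (1 - x) ≥ - x/(1-x) ≥ - 2x`
would give `e^(-4)`, not enough: use `one_sub_div_pow_le...` in the other direction or the monotonicity of `(1 - 1/K)^K`).
-/

set_option autoImplicit false

namespace Pool.Agent.Helper9.DG

open Polynomial Finset

theorem sum_sq_le (U : ℤ[X]) (r B : ℝ) (hr : 0 < r) (hB : 0 ≤ B)
    (h : ∀ z : ℂ, ‖z‖ = r → ‖aeval z U‖ ≤ B) (K : ℕ) :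
    ∑ n ∈ range K, ((U.coeff n : ℝ)) ^ 2 * r ^ (2 * n) ≤ B ^ 2 := by
  have _ := hB
  set p : ℂ[X] := ∑ n ∈ range (U.natDegree + 1), C ((U.coeff n : ℂ) * (r : ℂ) ^ n) * X ^ n with hp
  have hpc : ∀ i, p.coeff i = (U.coeff i : ℂ) * (r : ℂ) ^ i := by
    intro i
    rw [hp, finsetSum_coeff]
    simp only [coeff_C_mul, coeff_X_pow, mul_ite, mul_one, mul_zero]
    rw [Finset.sum_ite_eq]
    simp only [Finset.mem_range]
    by_cases hi : i < U.natDegree + 1
    · rw [if_pos hi]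
    · rw [if_neg hi, coeff_eq_zero_of_natDegree_lt (by omega)]
      simp
  have hpar := sum_sq_norm_coeff_eq_circleAverage p
  have hcirc : Real.circleAverage (fun θ ↦ ‖p.eval θ‖ ^ 2) 0 1 ≤ B ^ 2 := by
    apply Real.circleAverage_mono_on_of_le_circle
    · apply ContinuousOn.circleIntegrable'
      fun_prop
    · intro θ hθ
      rw [abs_one, mem_sphere_zero_iff_norm] at hθ
      refine pow_le_pow_left₀ (norm_nonneg _) ?_ 2
      have hT : ‖(r : ℂ) * θ‖ = r := by
        rw [norm_mul, hθ, mul_one, Complex.norm_real, Real.norm_eq_abs, abs_of_pos hr]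
      have h2 : p.eval θ = aeval ((r : ℂ) * θ) U := by
        rw [hp, eval_finsetSum, aeval_eq_sum_range]
        refine Finset.sum_congr rfl fun n _ => ?_
        rw [eval_mul, eval_C, eval_pow, eval_X, mul_pow, zsmul_eq_mul]
        ring
      rw [h2]
      exact h _ hT
  refine le_trans ?_ (hpar.le.trans hcirc)
  have h7 : ∑ n ∈ range K, ((U.coeff n : ℝ)) ^ 2 * r ^ (2 * n) = ∑ n ∈ range K, ‖p.coeff n‖ ^ 2 := by
    refine Finset.sum_congr rfl fun n _ => ?_
    rw [hpc, norm_mul, norm_pow, Complex.norm_intCast, Complex.norm_real,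
      Real.norm_eq_abs, abs_of_pos hr, mul_pow, sq_abs, ← pow_mul, mul_comm n 2]
  rw [h7, ← Finset.sum_filter_add_sum_filter_not (range K) (fun n => n ∈ p.support)]
  have h8 : ∑ n ∈ range K with ¬ n ∈ p.support, ‖p.coeff n‖ ^ 2 = 0 := by
    refine Finset.sum_eq_zero fun n hn => ?_
    rw [Finset.mem_filter, mem_support_iff, not_not] at hn
    rw [hn.2, norm_zero]
    norm_num
  rw [h8, add_zero]
  refine Finset.sum_le_sum_of_subset_of_nonneg ?_ fun _ _ _ => by positivity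
  intro n hn
  exact (Finset.mem_filter.mp hn).2

theorem card_nonzero_le (U : ℤ[X]) (K : ℕ) (hK : 2 ≤ K) (B : ℝ) (hB : 0 ≤ B)
    (h : ∀ z : ℂ, ‖z‖ = 1 - 1 / (K : ℝ) → ‖aeval z U‖ ≤ B) :
    (((range K).filter (fun n => U.coeff n ≠ 0)).card : ℝ) ≤ 16 * B ^ 2 := by
  obtain ⟨m, rfl⟩ : ∃ m, K = m + 1 := ⟨K - 1, by omega⟩
  have hm : (0 : ℝ) < m := by
    have : 0 < m := by omega
    exact_mod_cast this
  set r : ℝ := 1 - 1 / ((m + 1 : ℕ) : ℝ) with hr
  have hr' : r = m / (m + 1) := by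
    rw [hr]
    push_cast
    field_simp
    ring
  have hr0 : 0 < r := by
    rw [hr']
    positivity
  have hr1 : r ≤ 1 := by
    rw [hr', div_le_one (by positivity)]
    linarith
  have hpow : (1 / 4 : ℝ) ≤ r ^ m := by
    have h1 : r⁻¹ = 1 / m + 1 := by
      rw [hr']
      field_simp
      ring
    have h2 : (r⁻¹) ^ m ≤ Real.exp 1 := by
      rw [h1]
      calc (1 / (m : ℝ) + 1) ^ m ≤ (Real.exp (1 / m)) ^ m :=
            pow_le_pow_left₀ (by positivity) (Real.add_one_le_exp _) m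
        _ = Real.exp 1 := by
            rw [← Real.exp_nat_mul]
            congr 1
            field_simp
    have h3 : (r⁻¹) ^ m ≤ 4 := h2.trans (by have := Real.exp_one_lt_d9; linarith)
    have h4 : 0 < r ^ m := pow_pos hr0 m
    rw [inv_pow] at h3
    rw [inv_le_comm₀ h4 (by norm_num)] at h3
    linarith
  have hsum := sum_sq_le U r B hr0 hB h (m + 1)
  have h5 : (((range (m + 1)).filter (fun n => U.coeff n ≠ 0)).card : ℝ) * (1 / 16) ≤
      ∑ n ∈ range (m + 1), ((U.coeff n : ℝ)) ^ 2 * r ^ (2 * n) := by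
    calc (((range (m + 1)).filter (fun n => U.coeff n ≠ 0)).card : ℝ) * (1 / 16)
        = ∑ n ∈ (range (m + 1)).filter (fun n => U.coeff n ≠ 0), (1 / 16 : ℝ) := by
          rw [Finset.sum_const, nsmul_eq_mul]
      _ ≤ ∑ n ∈ (range (m + 1)).filter (fun n => U.coeff n ≠ 0),
            ((U.coeff n : ℝ)) ^ 2 * r ^ (2 * n) := by
          refine Finset.sum_le_sum fun n hn => ?_
          rw [Finset.mem_filter, Finset.mem_range] at hn
          have h6 : (1 : ℝ) ≤ ((U.coeff n : ℝ)) ^ 2 := by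
            have h7 : 1 ≤ (U.coeff n) ^ 2 := by
              have := sq_nonneg (U.coeff n)
              have h8 : (U.coeff n) ^ 2 ≠ 0 := pow_ne_zero 2 hn.2
              omega
            exact_mod_cast h7
          have h9 : (1 / 16 : ℝ) ≤ r ^ (2 * n) := by
            calc (1 / 16 : ℝ) = (1 / 4) ^ 2 := by norm_num
              _ ≤ (r ^ m) ^ 2 := pow_le_pow_left₀ (by norm_num) hpow 2
              _ = r ^ (2 * m) := by rw [← pow_mul, mul_comm]
              _ ≤ r ^ (2 * n) := pow_le_pow_of_le_one hr0.le hr1 (by omega)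
          calc (1 / 16 : ℝ) ≤ 1 * r ^ (2 * n) := by rw [one_mul]; exact h9
            _ ≤ ((U.coeff n : ℝ)) ^ 2 * r ^ (2 * n) :=
              mul_le_mul_of_nonneg_right h6 (pow_nonneg hr0.le _)
      _ ≤ ∑ n ∈ range (m + 1), ((U.coeff n : ℝ)) ^ 2 * r ^ (2 * n) := by
          refine Finset.sum_le_sum_of_subset_of_nonneg (Finset.filter_subset _ _) fun n _ _ => ?_
          positivity
  linarith

end Pool.Agent.Helper9.DG
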