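import Mathlib

/-!
PROJECT DG, module DG-10. Approximate roots of a monic polynomial are bounded.

If `‖ω‖ ≤ 1` nothing to do. Otherwise `‖ω‖^m ≤ 1 + (∑ ‖c_k‖) ‖ω‖^(m-1) ≤ (1 + ∑ ‖c_k‖) ‖ω‖^(m-1)`, so `‖ω‖ ≤ 1 + ∑ ‖c_k‖` (compare `Pool.Agent.Helper2.Digits.norm_le_of_monic` in
Pool/Agent/Helper2/Digits/Fatou.lean).
-/

set_option autoImplicit false

namespace Pool.Agent.Helper9.DG

open Polynomial Finset

theorem norm_le_of_small {m : ℕ} (hm : 0 < m) {c : ℕ → ℂ} {ω : ℂ}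
    (h : ‖ω ^ m + ∑ k ∈ range m, c k * ω ^ k‖ ≤ 1) : ‖ω‖ ≤ 2 + ∑ k ∈ range m, ‖c k‖ := by
  have hS : 0 ≤ ∑ k ∈ range m, ‖c k‖ := Finset.sum_nonneg fun k _ => norm_nonneg _
  by_cases h1 : ‖ω‖ ≤ 1
  · linarith
  · push Not at h1
    obtain ⟨n, rfl⟩ : ∃ n, m = n + 1 := ⟨m - 1, by omega⟩
    have h2 : ‖∑ k ∈ range (n + 1), c k * ω ^ k‖ ≤ (∑ k ∈ range (n + 1), ‖c k‖) * ‖ω‖ ^ n := by
      rw [Finset.sum_mul]
      refine (norm_sum_le _ _).trans (Finset.sum_le_sum fun k hk => ?_)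
      rw [norm_mul, norm_pow]
      refine mul_le_mul_of_nonneg_left ?_ (norm_nonneg _)
      exact pow_le_pow_right₀ h1.le (by have := Finset.mem_range.1 hk; omega)
    have h3 : ‖ω‖ ^ (n + 1) ≤ 1 + (∑ k ∈ range (n + 1), ‖c k‖) * ‖ω‖ ^ n := by
      have h4 : ω ^ (n + 1) = (ω ^ (n + 1) + ∑ k ∈ range (n + 1), c k * ω ^ k) - ∑ k ∈ range (n + 1), c k * ω ^ k := by ring
      have h5 : ‖ω ^ (n + 1)‖ ≤ ‖ω ^ (n + 1) + ∑ k ∈ range (n + 1), c k * ω ^ k‖ + ‖∑ k ∈ range (n + 1), c k * ω ^ k‖ := by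
        conv_lhs => rw [h4]
        exact norm_sub_le _ _
      rw [norm_pow] at h5
      linarith
    have h6 : (1 : ℝ) ≤ ‖ω‖ ^ n := one_le_pow₀ h1.le
    have h7 : ‖ω‖ ^ n * ‖ω‖ ≤ ‖ω‖ ^ n * (1 + ∑ k ∈ range (n + 1), ‖c k‖) := by
      rw [← pow_succ]
      nlinarith
    have h8 : ‖ω‖ ≤ 1 + ∑ k ∈ range (n + 1), ‖c k‖ := le_of_mul_le_mul_left h7 (by linarith)
    linarith

end Pool.Agent.Helper9.DG
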