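import Pool.Agent.Helper2.Digits.Fatou
import Pool.Agent.Helper9.DG.RootB
import Pool.Agent.Helper9.DG.Pars

/-!
PROJECT DG, module DG-12. An approximate root with bounded coefficients has few nonzero coefficients.

`len P` (`Pool.Agent.Helper2.Digits.len`) = sum of the absolute values of the coefficients; needed: `len (P Q) ≤ len P len Q`, `len (P + Q) ≤ len P + len Q`, `len (X^M E) = len E`,
`‖aeval z P‖ ≤ len P` for `‖z‖ ≤ 1` (`Helper2.Digits.norm_aeval_le`).
`W = ∑_{n < M} monomial n (U.coeff n)`: `len W ≤ M u`, `X^M ∣ U - W`, so `X^M ∣ f.eval U - f.eval W` (`sub_dvd_eval_sub`) and `f.eval W = X^M E`,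
`len E = len (f.eval W) ≤ ∑_{i ≤ d} len (f_i) (len W)^i ≤ (1 + B)(1 + M u)^d` (`eval_eq_sum_range`, `f_d = 1`). Let `‖z‖ = r = 1 - 1/K`, `ω = aeval z W`, `c_i = aeval z (f_i)`:
`‖ω^d + ∑_{i<d} c_i ω^i‖ = ‖aeval z (f.eval W)‖ ≤ r^M len E ≤ 1`, so `‖ω‖ ≤ 2 + ∑ ‖c_i‖ ≤ 2 + B` (`norm_le_of_small`). `card_nonzero_le` for `W` (`K ≤ M`: the coefficients with index
`< K` of `U` and `W` agree).
-/

set_option autoImplicit false

namespace Pool.Agent.Helper9.DG

open Polynomial Finset

theorem len_eq_sum (P : ℤ[X]) (N : ℕ) (hN : P.natDegree < N) :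
    Helper2.Digits.len P = ∑ i ∈ range N, |(P.coeff i : ℝ)| := by
  unfold Helper2.Digits.len
  apply Finset.sum_subset
  · intro i hi
    exact mem_range.2 (lt_of_le_of_lt (le_natDegree_of_mem_supp i hi) hN)
  · intro i _ hi
    rw [notMem_support_iff.1 hi]
    simp

theorem len_add_le (P Q : ℤ[X]) :
    Helper2.Digits.len (P + Q) ≤ Helper2.Digits.len P + Helper2.Digits.len Q := by
  set N := P.natDegree + Q.natDegree + 1 with hN
  have h1 : (P + Q).natDegree < N := lt_of_le_of_lt (natDegree_add_le P Q) (by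
    rw [max_lt_iff]
    constructor <;> omega)
  rw [len_eq_sum _ N h1, len_eq_sum P N (by omega), len_eq_sum Q N (by omega), ← Finset.sum_add_distrib]
  refine Finset.sum_le_sum fun i _ => ?_
  rw [coeff_add]
  push_cast
  exact abs_add_le _ _

theorem len_zero : Helper2.Digits.len 0 = 0 := by
  simp [Helper2.Digits.len]

theorem len_sum_le {ι : Type*} (s : Finset ι) (g : ι → ℤ[X]) :
    Helper2.Digits.len (∑ i ∈ s, g i) ≤ ∑ i ∈ s, Helper2.Digits.len (g i) := by
  classical
  induction s using Finset.induction_on with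
  | empty => simp [len_zero]
  | insert a s ha ih =>
    rw [Finset.sum_insert ha, Finset.sum_insert ha]
    exact (len_add_le _ _).trans (by linarith)

theorem len_C_mul_le (a : ℤ) (P : ℤ[X]) :
    Helper2.Digits.len (C a * P) ≤ |(a : ℝ)| * Helper2.Digits.len P := by
  have h1 : (C a * P).natDegree < P.natDegree + 1 := Nat.lt_succ_of_le (natDegree_C_mul_le a P)
  rw [len_eq_sum _ _ h1, len_eq_sum P (P.natDegree + 1) (Nat.lt_succ_self _), Finset.mul_sum]
  refine Finset.sum_le_sum fun i _ => ?_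
  rw [coeff_C_mul]
  push_cast
  rw [abs_mul]

theorem len_X_pow_mul (M : ℕ) (P : ℤ[X]) :
    Helper2.Digits.len (X ^ M * P) = Helper2.Digits.len P := by
  have h1 : (X ^ M * P).natDegree < M + (P.natDegree + 1) := by
    refine lt_of_le_of_lt natDegree_mul_le ?_
    rw [natDegree_X_pow]
    omega
  rw [len_eq_sum _ _ h1, len_eq_sum P (P.natDegree + 1) (Nat.lt_succ_self _), Finset.sum_range_add]
  have h2 : ∑ i ∈ range M, |((X ^ M * P).coeff i : ℝ)| = 0 := by
    refine Finset.sum_eq_zero fun i hi => ?_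
    rw [coeff_X_pow_mul', if_neg (by have := Finset.mem_range.1 hi; omega)]
    simp
  rw [h2, zero_add]
  refine Finset.sum_congr rfl fun i _ => ?_
  rw [coeff_X_pow_mul', if_pos (by omega), Nat.add_sub_cancel_left]

theorem len_mul_le (P Q : ℤ[X]) :
    Helper2.Digits.len (P * Q) ≤ Helper2.Digits.len P * Helper2.Digits.len Q := by
  have h1 : P * Q = ∑ i ∈ range (P.natDegree + 1), C (P.coeff i) * (X ^ i * Q) := by
    conv_lhs => rw [P.as_sum_range_C_mul_X_pow]
    rw [Finset.sum_mul]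
    refine Finset.sum_congr rfl fun i _ => ?_
    ring
  rw [h1]
  refine (len_sum_le _ _).trans ?_
  rw [len_eq_sum P (P.natDegree + 1) (Nat.lt_succ_self _), Finset.sum_mul]
  refine Finset.sum_le_sum fun i _ => ?_
  refine (len_C_mul_le _ _).trans ?_
  rw [len_X_pow_mul]

theorem len_le (P : ℤ[X]) (L Y : ℕ) (hL : P.natDegree ≤ L) (hY : CB Y P) :
    Helper2.Digits.len P ≤ ((L : ℝ) + 1) * Y := by
  rw [len_eq_sum P (L + 1) (by omega)]
  calc ∑ i ∈ range (L + 1), |(P.coeff i : ℝ)| ≤ ∑ i ∈ range (L + 1), (Y : ℝ) := by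
        refine Finset.sum_le_sum fun i _ => ?_
        have := hY i
        exact_mod_cast this
    _ = ((L : ℝ) + 1) * Y := by
        rw [Finset.sum_const, Finset.card_range, nsmul_eq_mul]
        push_cast
        ring

theorem len_pow_le (P : ℤ[X]) (k : ℕ) :
    Helper2.Digits.len (P ^ k) ≤ Helper2.Digits.len P ^ k := by
  induction k with
  | zero =>
    have h1 := len_le (1 : ℤ[X]) 0 1 (by simp) (by
      intro n
      rw [coeff_one]
      split_ifs <;> simp)
    simpa using h1
  | succ k ih =>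
    rw [pow_succ, pow_succ]
    refine (len_mul_le _ _).trans ?_
    exact mul_le_mul_of_nonneg_right ih (Helper2.Digits.len_nonneg _)

theorem sparse (f : ℤ[X][X]) (d : ℕ) (hd : 1 ≤ d) (hf : f.Monic) (hfd : f.natDegree = d)
    (U : ℤ[X]) (M K u : ℕ) (B : ℝ) (hK : 2 ≤ K) (hKM : K ≤ M) (hU : CB u U)
    (hfU : X ^ M ∣ f.eval U) (hB : ∑ i ∈ range d, Helper2.Digits.len (f.coeff i) ≤ B)
    (hM : (1 - 1 / (K : ℝ)) ^ M * ((1 + B) * (1 + (M : ℝ) * u) ^ d) ≤ 1) :
    (((range K).filter (fun n => U.coeff n ≠ 0)).card : ℝ) ≤ 16 * (2 + B) ^ 2 := by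
  have hB0 : 0 ≤ B := (Finset.sum_nonneg fun i _ => Helper2.Digits.len_nonneg _).trans hB
  obtain ⟨W, hW⟩ : ∃ W : ℤ[X], ∀ n, W.coeff n = if n < M then U.coeff n else 0 := by
    refine ⟨∑ n ∈ range M, monomial n (U.coeff n), fun n => ?_⟩
    rw [finsetSum_coeff]
    simp only [coeff_monomial]
    rw [Finset.sum_ite_eq']
    simp only [Finset.mem_range]
  have hWd : W.natDegree ≤ M - 1 := by
    rw [natDegree_le_iff_coeff_eq_zero]
    intro n hn
    rw [hW, if_neg (by omega)]
  have hWB : CB u W := by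
    intro n
    rw [hW]
    split_ifs
    · exact hU n
    · simp
  have hWl : Helper2.Digits.len W ≤ (M : ℝ) * u := by
    have h1 := len_le W (M - 1) u hWd hWB
    have h2 : (((M - 1 : ℕ) : ℝ) + 1) = M := by
      have h3 : (M - 1) + 1 = M := by omega
      exact_mod_cast h3
    rwa [h2] at h1
  have hdvd : X ^ M ∣ U - W := by
    rw [X_pow_dvd_iff]
    intro n hn
    rw [coeff_sub, hW, if_pos hn, sub_self]
  have hfW : X ^ M ∣ f.eval W := by
    have h1 : U - W ∣ f.eval U - f.eval W := sub_dvd_eval_sub U W f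
    have h2 := hdvd.trans h1
    have h3 := dvd_sub hfU h2
    simpa using h3
  obtain ⟨E, hE⟩ := hfW
  have hsum : f.eval W = W ^ d + ∑ i ∈ range d, f.coeff i * W ^ i := by
    rw [eval_eq_sum_range, hfd, Finset.sum_range_succ, add_comm]
    congr 1
    have h1 : f.coeff d = 1 := by
      rw [← hfd]
      exact hf
    rw [h1, one_mul]
  have hlenE : Helper2.Digits.len E ≤ (1 + B) * (1 + (M : ℝ) * u) ^ d := by
    rw [← len_X_pow_mul M E, ← hE, hsum]
    refine (len_add_le _ _).trans ?_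
    have hw0 := Helper2.Digits.len_nonneg W
    have hbase : (1 : ℝ) ≤ 1 + (M : ℝ) * u := by
      have : (0 : ℝ) ≤ (M : ℝ) * u := by positivity
      linarith
    have hpow : ∀ i, i ≤ d → Helper2.Digits.len (W ^ i) ≤ (1 + (M : ℝ) * u) ^ d := by
      intro i hi
      refine (len_pow_le W i).trans ?_
      have hW1 : Helper2.Digits.len W ≤ 1 + (M : ℝ) * u := by linarith
      refine (pow_le_pow_left₀ hw0 hW1 i).trans ?_
      exact pow_le_pow_right₀ hbase hi
    have h1 : Helper2.Digits.len (∑ i ∈ range d, f.coeff i * W ^ i) ≤ B * (1 + (M : ℝ) * u) ^ d := by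
      refine (len_sum_le _ _).trans ?_
      calc ∑ i ∈ range d, Helper2.Digits.len (f.coeff i * W ^ i)
          ≤ ∑ i ∈ range d, Helper2.Digits.len (f.coeff i) * (1 + (M : ℝ) * u) ^ d := by
            refine Finset.sum_le_sum fun i hi => ?_
            refine (len_mul_le _ _).trans ?_
            exact mul_le_mul_of_nonneg_left (hpow i (le_of_lt (Finset.mem_range.1 hi)))
              (Helper2.Digits.len_nonneg _)
        _ = (∑ i ∈ range d, Helper2.Digits.len (f.coeff i)) * (1 + (M : ℝ) * u) ^ d := by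
            rw [Finset.sum_mul]
        _ ≤ B * (1 + (M : ℝ) * u) ^ d := mul_le_mul_of_nonneg_right hB (by positivity)
    have h2 := hpow d le_rfl
    nlinarith
  have hK0 : (0 : ℝ) < K := by
    have : 0 < K := by omega
    exact_mod_cast this
  have hr0 : (0 : ℝ) ≤ 1 - 1 / (K : ℝ) := by
    rw [sub_nonneg, div_le_one hK0]
    have : 1 ≤ K := by omega
    exact_mod_cast this
  have hr1 : 1 - 1 / (K : ℝ) ≤ 1 := by
    have : (0 : ℝ) ≤ 1 / (K : ℝ) := by positivity
    linarith
  have hmain : ∀ z : ℂ, ‖z‖ = 1 - 1 / (K : ℝ) → ‖aeval z W‖ ≤ 2 + B := by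
    intro z hz
    have hz1 : ‖z‖ ≤ 1 := by rw [hz]; exact hr1
    have h1 : ‖aeval z (f.eval W)‖ ≤ 1 := by
      rw [hE, map_mul, map_pow, aeval_X, norm_mul, norm_pow, hz]
      refine le_trans ?_ hM
      exact mul_le_mul_of_nonneg_left ((Helper2.Digits.norm_aeval_le E hz1).trans hlenE)
        (pow_nonneg hr0 _)
    have h2 : aeval z (f.eval W) = (aeval z W) ^ d + ∑ i ∈ range d, aeval z (f.coeff i) * (aeval z W) ^ i := by
      rw [hsum, map_add, map_pow, map_sum]
      congr 1
      refine Finset.sum_congr rfl fun i _ => ?_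
      rw [map_mul, map_pow]
    rw [h2] at h1
    have h3 := norm_le_of_small (by omega) h1
    refine h3.trans ?_
    have h4 : ∑ k ∈ range d, ‖aeval z (f.coeff k)‖ ≤ B := by
      refine le_trans (Finset.sum_le_sum fun k _ => ?_) hB
      exact Helper2.Digits.norm_aeval_le _ hz1
    linarith
  have hfin := card_nonzero_le W K hK (2 + B) (by linarith) hmain
  have heq : (range K).filter (fun n => U.coeff n ≠ 0) = (range K).filter (fun n => W.coeff n ≠ 0) := by
    refine Finset.filter_congr fun n hn => ?_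
    rw [hW, if_pos (by have := Finset.mem_range.1 hn; omega)]
  rw [heq]
  exact hfin

end Pool.Agent.Helper9.DG
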