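import Pool.Agent.Helper9.DG.PowC
import Pool.Agent.Helper9.DG.Monic
import Pool.Agent.Helper9.DG.Sparse
import Pool.Agent.Helper9.DG.Ode
import Pool.Agent.Helper9.DG.Recur
import Pool.Agent.Helper9.DG.Gap

/-!
PROJECT DG, module DG-20. The finite form of Fatou's lemma. (Proved by helper9.)
-/

set_option autoImplicit false

namespace Pool.Agent.Helper9.DG

open Polynomial Finset

theorem finite_fatou (d L Y s M K S ρ κ : ℕ) (hd : 2 ≤ d) (hL : 1 ≤ L) (hY : 1 ≤ Y)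
    (A : ℕ → ℤ[X])
    (hA : ∀ i, (A i).natDegree ≤ L ∧ CB Y (A i)) (hAd : A d ≠ 0) (V : ℤ[X]) (hV : CB s V)
    (hM : X ^ M ∣ fm d A V) (hρ : ¬ X ^ ρ ∣ fmT d A V) (hK : 2 ≤ K)
    (hMK : K + (5 * d ^ 3 * L + d + (ρ + (d - 2) * L) * (2 * d - 1)) ≤ M)
    (hS : 16 * (2 + d * ((L + 1) * Y) ^ d) ^ 2 ≤ S)
    (hsm : (1 - 1 / (K : ℝ)) ^ M * ((1 + (d : ℝ) * (((L : ℝ) + 1) * Y) ^ d) *
      (1 + (M : ℝ) * (((L + 1) * Y * s : ℕ) : ℝ)) ^ d) ≤ 1)
    (hκ : (S + 2) * (d + 5 * d ^ 3 * L + 1) ≤ κ) (hKκ : (2 * (d + 1)) ^ (d + 1) * κ ≤ K) :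
    ∃ h, κ ≤ h ∧ (d + 1) * h ≤ K ∧ ∀ n, h ≤ n → n < (d + 1) * h → (A d * V).coeff n = 0 := by
  have hLY : (1 : ℝ) ≤ ((L : ℝ) + 1) * Y := by
    have h1 : (1 : ℝ) ≤ (L : ℝ) + 1 := by
      have : (0 : ℝ) ≤ L := Nat.cast_nonneg L
      linarith
    have h2 : (1 : ℝ) ≤ Y := by exact_mod_cast hY
    nlinarith
  obtain ⟨f, hfdef⟩ : ∃ f : ℤ[X][X], f = mon d A := ⟨_, rfl⟩
  have hfm : f.Monic := by rw [hfdef]; exact mon_monic d A
  have hfd : f.natDegree = d := by rw [hfdef]; exact natDegree_mon d A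
  have hfB : BB d (d * L) f := by rw [hfdef]; exact BB_mon d L A (fun i => (hA i).1)
  have hfU : X ^ M ∣ f.eval (A d * V) := by
    rw [hfdef, eval_mon d A V (by omega)]
    exact hM.mul_left _
  have hfT : ¬ X ^ (ρ + (d - 2) * L) ∣ (derivative f).eval (A d * V) := by
    rw [hfdef, eval_derivative_mon d A V hd]
    intro h
    refine hρ (dvd_of_mul_natDegree (A d) _ L (d - 2) ρ hAd (hA d).1 ?_)
    rwa [mul_comm L (d - 2)]
  have hu : CB ((L + 1) * Y * s) (A d * V) := by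
    intro n
    exact coeff_mul_le (A d) V L Y s n (hA d).1 (hA d).2 (fun j _ => hV j)
  have hlen : ∑ i ∈ range d, Helper2.Digits.len (f.coeff i) ≤ (d : ℝ) * (((L : ℝ) + 1) * Y) ^ d := by
    have h1 : ∀ i ∈ range d, Helper2.Digits.len (f.coeff i) ≤ (((L : ℝ) + 1) * Y) ^ d := by
      intro i hi
      have hi' := Finset.mem_range.1 hi
      rw [hfdef, coeff_mon d A i hi']
      have h2 : ∀ m : ℕ, Helper2.Digits.len (A i * A d ^ m) ≤ (((L : ℝ) + 1) * Y) ^ (m + 1) := by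
        intro m
        induction m with
        | zero =>
          rw [pow_zero, mul_one, zero_add, pow_one]
          exact len_le _ L Y (hA i).1 (hA i).2
        | succ m ih =>
          rw [pow_succ, ← mul_assoc, pow_succ]
          refine (len_mul_le _ _).trans ?_
          refine mul_le_mul ih (len_le _ L Y (hA d).1 (hA d).2) (Helper2.Digits.len_nonneg _)
            (by positivity)
      refine (h2 _).trans ?_
      exact pow_le_pow_right₀ hLY (by omega)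
    refine (Finset.sum_le_sum h1).trans ?_
    rw [Finset.sum_const, card_range, nsmul_eq_mul]
  have hsparse := sparse f d (by omega) hfm hfd (A d * V) M K ((L + 1) * Y * s)
    ((d : ℝ) * (((L : ℝ) + 1) * Y) ^ d) hK (by omega) hu hfU hlen hsm
  have hSR : (((range K).filter (fun n => (A d * V).coeff n ≠ 0)).card : ℝ) ≤ S := by
    refine hsparse.trans ?_
    have : ((16 * (2 + d * ((L + 1) * Y) ^ d) ^ 2 : ℕ) : ℝ) ≤ S := by exact_mod_cast hS
    push_cast at this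
    exact this
  have hSN : ((range K).filter (fun n => (A d * V).coeff n ≠ 0)).card ≤ S := by exact_mod_cast hSR
  obtain ⟨a, ha, hne, hode⟩ := ode f d (d * L) (by omega) (Nat.mul_pos (by omega) hL) hfB
    hfm.ne_zero (A d * V) M (ρ + (d - 2) * L) hfU hfT
  have hδ : 5 * d ^ 2 * (d * L) = 5 * d ^ 3 * L := by ring
  rw [hδ] at ha
  obtain ⟨Z, hZ, hrec⟩ := recur d (5 * d ^ 3 * L) _ a ha hne (A d * V) hode
  refine gap d S (d + 5 * d ^ 3 * L) K κ (fun n => (A d * V).coeff n) Z hZ hSN hκ hKκ ?_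
  intro n hn hnK hnZ hz
  exact hrec n hn (by omega) hnZ hz

end Pool.Agent.Helper9.DG
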