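import Mathlib

/-!
PROJECT DG, module DG-21. Numerical inequalities, part A.

Everything is bounded by a power of `w`. `w ≥ 4`, `d + 1 ≤ w` (`2 d ≤ w`), `l = 8 w^2`: `2 l + 1 = 16 w^2 + 1 ≤ w^5`, `l ≤ w^4`; `(d + 1)(2 l + 1) ≤ w^6`;
`d (2 l + 1) + l + 1 ≤ (d + 1)(2 l + 1) ≤ w^6`.
`numA1`: base `≤ w^6 (w w^6)^d = w^(7 d + 6)`, exponent `2 d + 1`: `(7 d + 6)(2 d + 1) = 14 d^2 + 19 d + 6 ≤ 25 d^2 ≤ 25 D^2` for `d ≥ 2` (`11 d^2 ≥ 22 d ≥ 19 d + 6`).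
`numA2`: `2 Y ≤ w^(25 D^2 + 1) < w^(200 D^4)`.
`numA3`: `(2 (d+1)(2 l+1) Y w^d) (...)^d + 1 ≤ 3 w^(6 + 25 D^2 + d + 6 d) ≤ w^(7 + 25 D^2 + 7 d)`; `((d+1)(2l+1)Y)^(d-1) ≤ w^((6 + 25 D^2)(d - 1))`; total exponent
`1 + 13 d + 25 D^2 d ≤ 1 + 13 D + 25 D^3 ≤ 200 D^4`.
`numA4`: the same with `(d+1) d (2l+1) ≤ w^7`, `(d + 1)(2 l) + 1 ≤ w^6`: total exponent `1 + 7 + 25 D^2 + 7 d + (7 + 25 D^2)(d - 1) = 1 + 14 d + 25 D^2 d ≤ 200 D^4`.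
Proved by helper59.
-/

set_option autoImplicit false

namespace Pool.Agent.Helper9.DG

/-! Tools: `Le w a x` is `x ≤ w ^ a`. -/

theorem le_mul_pw {w a b x y : ℕ} (hx : x ≤ w ^ a) (hy : y ≤ w ^ b) : x * y ≤ w ^ (a + b) := by
  rw [pow_add]
  exact Nat.mul_le_mul hx hy

theorem le_pow_pw {w a x : ℕ} (hx : x ≤ w ^ a) (n : ℕ) : x ^ n ≤ w ^ (a * n) := by
  rw [pow_mul]
  exact Nat.pow_le_pow_left hx n

theorem le_add_pw {w a x y : ℕ} (hw : 2 ≤ w) (hx : x ≤ w ^ a) (hy : y ≤ w ^ a) :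
    x + y ≤ w ^ (a + 1) := by
  have : 2 * w ^ a ≤ w ^ (a + 1) := by
    rw [pow_succ, mul_comm]
    exact Nat.mul_le_mul_left _ hw
  omega

theorem le_add_one_pw {w a x : ℕ} (hw : 2 ≤ w) (hx : x ≤ w ^ a) : x + 1 ≤ w ^ (a + 1) :=
  le_add_pw hw hx (Nat.one_le_pow _ _ (by omega))

theorem le_mono_pw {w a b x : ℕ} (hw : 1 ≤ w) (hab : a ≤ b) (hx : x ≤ w ^ a) : x ≤ w ^ b :=
  hx.trans (Nat.pow_le_pow_right hw hab)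

theorem two_l_pw {w : ℕ} (hw : 4 ≤ w) : 2 * (8 * w ^ 2) + 1 ≤ w ^ 5 := by
  have h1 : 4 ^ 3 ≤ w ^ 3 := Nat.pow_le_pow_left hw 3
  have h2 : 1 ≤ w ^ 2 := Nat.one_le_pow _ _ (by omega)
  have h3 : w ^ 5 = w ^ 2 * w ^ 3 := by ring
  rw [h3]
  nlinarith [Nat.mul_le_mul_left (w ^ 2) h1]

theorem numA0 (D w d : ℕ) (hw : 2 * D ≤ w) (hd : 2 ≤ d) (hdD : d ≤ D) :
    (d + 1) * (2 * (8 * w ^ 2) + 1) ≤ w ^ 6 := by
  have h1 : d + 1 ≤ w ^ 1 := by rw [pow_one]; omega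
  have h2 := two_l_pw (w := w) (by omega)
  exact le_mono_pw (by omega) (by norm_num) (le_mul_pw h1 h2)

theorem numA1 (D w d : ℕ) (hw : 2 * D ≤ w) (hd : 2 ≤ d) (hdD : d ≤ D) :
    ((d + 1) * (2 * (8 * w ^ 2) + 1) * (w * (d * (2 * (8 * w ^ 2) + 1) + 8 * w ^ 2)) ^ d) ^
      (2 * d + 1) ≤ w ^ (25 * D ^ 2) := by
  have h0 := numA0 D w d hw hd hdD
  have h1 : d * (2 * (8 * w ^ 2) + 1) + 8 * w ^ 2 ≤ w ^ 6 := by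
    refine le_trans ?_ h0
    have : (d + 1) * (2 * (8 * w ^ 2) + 1) = d * (2 * (8 * w ^ 2) + 1) + (2 * (8 * w ^ 2) + 1) := by
      ring
    omega
  have h2 : w ≤ w ^ 1 := by rw [pow_one]
  refine le_mono_pw (by omega) ?_ (le_pow_pw (le_mul_pw h0 (le_pow_pw (le_mul_pw h2 h1) d))
    (2 * d + 1))
  have h3 : d ^ 2 ≤ D ^ 2 := Nat.pow_le_pow_left hdD 2
  nlinarith

theorem numA2 (D w b : ℕ) (hD : 2 ≤ D) (hw : 2 * D ≤ w) (hb : w ^ (200 * D ^ 4) ≤ b) :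
    2 * w ^ (25 * D ^ 2) < b := by
  refine lt_of_lt_of_le ?_ hb
  have h1 : w ^ (25 * D ^ 2 + 1) ≤ w ^ (200 * D ^ 4) := by
    refine Nat.pow_le_pow_right (by omega) ?_
    have : D ^ 2 * D ^ 2 = D ^ 4 := by ring
    have h4 : 4 ≤ D ^ 2 := by nlinarith
    nlinarith
  refine lt_of_lt_of_le ?_ h1
  rw [pow_succ w (25 * D ^ 2)]
  have h2 : 0 < w ^ (25 * D ^ 2) := by
    have : 0 < w := by omega
    positivity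
  have h3 : w ^ (25 * D ^ 2) * 4 ≤ w ^ (25 * D ^ 2) * w := Nat.mul_le_mul_left _ (by omega)
  omega

theorem D_pows {D : ℕ} (hD : 2 ≤ D) : 2 * D ^ 3 ≤ D ^ 4 ∧ 2 * D ^ 2 ≤ D ^ 3 ∧ 2 * D ≤ D ^ 2 := by
  refine ⟨?_, ?_, ?_⟩
  · calc 2 * D ^ 3 ≤ D * D ^ 3 := Nat.mul_le_mul_right _ hD
      _ = D ^ 4 := by ring
  · calc 2 * D ^ 2 ≤ D * D ^ 2 := Nat.mul_le_mul_right _ hD
      _ = D ^ 3 := by ring
  · calc 2 * D ≤ D * D := Nat.mul_le_mul_right _ hD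
      _ = D ^ 2 := by ring

theorem numA3 (D w b d : ℕ) (hw : 2 * D ≤ w) (hb : w ^ (200 * D ^ 4) ≤ b) (hd : 2 ≤ d)
    (hdD : d ≤ D) :
    (2 * ((d + 1) * (2 * (8 * w ^ 2) + 1) * w ^ (25 * D ^ 2) * w ^ d) *
      (d * (2 * (8 * w ^ 2) + 1) + 8 * w ^ 2 + 1) ^ d + 1) *
    ((d + 1) * ((2 * (8 * w ^ 2) + 1) * w ^ (25 * D ^ 2))) ^ (d - 1) ≤ b := by
  refine le_trans ?_ hb
  have h0 := numA0 D w d hw hd hdD
  have h1 : d * (2 * (8 * w ^ 2) + 1) + 8 * w ^ 2 + 1 ≤ w ^ 6 := by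
    refine le_trans ?_ h0
    have : (d + 1) * (2 * (8 * w ^ 2) + 1) = d * (2 * (8 * w ^ 2) + 1) + (2 * (8 * w ^ 2) + 1) := by
      ring
    omega
  have h2 : 2 ≤ w ^ 1 := by rw [pow_one]; omega
  have h3 : (d + 1) * ((2 * (8 * w ^ 2) + 1) * w ^ (25 * D ^ 2)) ≤ w ^ (6 + 25 * D ^ 2) := by
    rw [← mul_assoc]
    exact le_mul_pw h0 le_rfl
  have h4 := le_mul_pw (le_add_one_pw (by omega : 2 ≤ w) (le_mul_pw (le_mul_pw h2 (le_mul_pw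
    (le_mul_pw h0 (le_refl (w ^ (25 * D ^ 2)))) (le_refl (w ^ d)))) (le_pow_pw h1 d)))
    (le_pow_pw h3 (d - 1))
  refine le_mono_pw (by omega) ?_ h4
  obtain ⟨e, rfl⟩ : ∃ e, d = e + 1 := ⟨d - 1, by omega⟩
  have h5 := D_pows (D := D) (by omega)
  have h6 : D ^ 2 * (e + 1) ≤ D ^ 3 := by
    calc D ^ 2 * (e + 1) ≤ D ^ 2 * D := Nat.mul_le_mul_left _ hdD
      _ = D ^ 3 := by ring
  have h7 : e + 1 - 1 = e := by omega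
  rw [h7]
  have h8 : (6 + 25 * D ^ 2) * e + 25 * D ^ 2 = 6 * e + 25 * (D ^ 2 * (e + 1)) := by ring
  have h9 : 1 + (6 + 25 * D ^ 2 + (e + 1)) + 6 * (e + 1) + 1 + (6 + 25 * D ^ 2) * e =
      ((6 + 25 * D ^ 2) * e + 25 * D ^ 2) + 7 * e + 15 := by ring
  rw [h9, h8]
  omega

theorem numA4 (D w b d : ℕ) (hw : 2 * D ≤ w) (hb : w ^ (200 * D ^ 4) ≤ b) (hd : 2 ≤ d)
    (hdD : d ≤ D) :
    (2 * ((d + 1) * d * (2 * (8 * w ^ 2) + 1) * w ^ (25 * D ^ 2) * w ^ d) *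
      ((d + 1) * (2 * (8 * w ^ 2)) + 1) ^ d + 1) *
    ((d + 1) * (d * ((2 * (8 * w ^ 2) + 1) * w ^ (25 * D ^ 2)))) ^ (d - 1) ≤ b := by
  refine le_trans ?_ hb
  have h0 := numA0 D w d hw hd hdD
  have h1 : (d + 1) * (2 * (8 * w ^ 2)) + 1 ≤ w ^ 6 := by
    refine le_trans ?_ h0
    have : (d + 1) * (2 * (8 * w ^ 2) + 1) = (d + 1) * (2 * (8 * w ^ 2)) + (d + 1) := by
      ring
    omega
  have h2 : 2 ≤ w ^ 1 := by rw [pow_one]; omega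
  have hd1 : d ≤ w ^ 1 := by rw [pow_one]; omega
  have h7 : (d + 1) * d * (2 * (8 * w ^ 2) + 1) ≤ w ^ (6 + 1) := by
    have := le_mul_pw h0 hd1
    have e : (d + 1) * d * (2 * (8 * w ^ 2) + 1) = (d + 1) * (2 * (8 * w ^ 2) + 1) * d := by ring
    rw [e]
    exact this
  have h3 : (d + 1) * (d * ((2 * (8 * w ^ 2) + 1) * w ^ (25 * D ^ 2))) ≤
      w ^ (6 + 1 + 25 * D ^ 2) := by
    have := le_mul_pw h7 (le_refl (w ^ (25 * D ^ 2)))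
    have e : (d + 1) * (d * ((2 * (8 * w ^ 2) + 1) * w ^ (25 * D ^ 2))) =
        (d + 1) * d * (2 * (8 * w ^ 2) + 1) * w ^ (25 * D ^ 2) := by ring
    rw [e]
    exact this
  have h4 := le_mul_pw (le_add_one_pw (by omega : 2 ≤ w) (le_mul_pw (le_mul_pw h2 (le_mul_pw
    (le_mul_pw h7 (le_refl (w ^ (25 * D ^ 2)))) (le_refl (w ^ d)))) (le_pow_pw h1 d)))
    (le_pow_pw h3 (d - 1))
  refine le_mono_pw (by omega) ?_ h4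
  obtain ⟨e, rfl⟩ : ∃ e, d = e + 1 := ⟨d - 1, by omega⟩
  have h5 := D_pows (D := D) (by omega)
  have h6 : D ^ 2 * (e + 1) ≤ D ^ 3 := by
    calc D ^ 2 * (e + 1) ≤ D ^ 2 * D := Nat.mul_le_mul_left _ hdD
      _ = D ^ 3 := by ring
  have h7 : e + 1 - 1 = e := by omega
  rw [h7]
  have h8 : (6 + 1 + 25 * D ^ 2) * e + 25 * D ^ 2 = 7 * e + 25 * (D ^ 2 * (e + 1)) := by ring
  have h9 : 1 + (6 + 1 + 25 * D ^ 2 + (e + 1)) + 6 * (e + 1) + 1 + (6 + 1 + 25 * D ^ 2) * e =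
      ((6 + 1 + 25 * D ^ 2) * e + 25 * D ^ 2) + 7 * e + 16 := by ring
  rw [h9, h8]
  omega

end Pool.Agent.Helper9.DG
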