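import Pool.Agent.Helper9.DG.NumA

/-!
PROJECT DG, module DG-22. Numerical inequalities, part B.

Everything is bounded by a power of `w`: `w ≥ 4`, `d + 1 ≤ w` (`2 d ≤ w`), `16 w^2 + 1 ≤ w^5`, `Y = w^(25 D^2)`, `M = w^(116 D^3)`, `K = w^(58 D^3)`.
`numB5`: `8 ≤ w^2`, `(d+1)(2l+1) ≤ w^6`, `(M + 1)^d ≤ w^((116 D^3 + 1) d)`; total exponent `8 + 25 D^2 + d + (116 D^3 + 1) d ≤ 8 + 25 D^2 + 2 D + 116 D^4 ≤ 200 D^4` (`D ≥ 2`).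
`numB6`: `4 ≤ w`: base `≤ w^(1 + 5 + 25 D^2 + 1)`, exponent `(7 + 25 D^2) d ≤ 200 D^4`.
`numB7`: `8 ≤ w^2`, `d + 1 ≤ w`, `d^2 ≤ w^2`, `2^d ≤ w^d`: exponent `5 + d + 25 D^2 ≤ 200 D^4`.
`numB8`: `M + 2 ≤ w^(116 D^3 + 1) ≤ b`. `numB9`: `2^(d+1) ≤ w^(d+1) ≤ b`.
`numB10`: `K + ... ≤ M`: `5 d^3 (2 l) + d ≤ w^7` (`d ≤ w/2`: `5 d^3 16 w^2 ≤ 10 w^5`), `((d+1)(2l) + (d-2)(2l))(2d-1) = (2 d - 1)^2 (2 l) ≤ 4 d^2 16 w^2 ≤ w^6`, `K w ≤ M`, and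
`w^58 ≥ w^7`.
Proved by helper59.
-/

set_option autoImplicit false

namespace Pool.Agent.Helper9.DG

theorem one_le_D3 {D : ℕ} (hD : 2 ≤ D) : 8 ≤ D ^ 3 := by
  have := Nat.pow_le_pow_left hD 3
  omega

theorem numB5 (D w b d : ℕ) (hw : 2 * D ≤ w) (hb : w ^ (200 * D ^ 4) ≤ b) (hd : 2 ≤ d)
    (hdD : d ≤ D) :
    8 * ((d + 1) * (2 * (8 * w ^ 2) + 1) * w ^ (25 * D ^ 2) * w ^ d) * (w ^ (116 * D ^ 3) + 1) ^ d
      ≤ b := by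
  refine le_trans ?_ hb
  have h0 := numA0 D w d hw hd hdD
  have h8 : 8 ≤ w ^ 2 := by nlinarith
  have h1 := le_mul_pw (le_mul_pw h8 (le_mul_pw (le_mul_pw h0 (le_refl (w ^ (25 * D ^ 2))))
    (le_refl (w ^ d)))) (le_pow_pw (le_add_one_pw (by omega : 2 ≤ w) (le_refl (w ^ (116 * D ^ 3))))
    d)
  refine le_mono_pw (by omega) ?_ h1
  have h5 := D_pows (D := D) (by omega)
  have h6 : D ^ 3 * d ≤ D ^ 4 := by
    calc D ^ 3 * d ≤ D ^ 3 * D := Nat.mul_le_mul_left _ hdD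
      _ = D ^ 4 := by ring
  have h9 : 2 + (6 + 25 * D ^ 2 + d) + (116 * D ^ 3 + 1) * d =
      8 + 25 * D ^ 2 + 2 * d + 116 * (D ^ 3 * d) := by ring
  rw [h9]
  omega

theorem numB6 (D w b d : ℕ) (hw : 2 * D ≤ w) (hb : w ^ (200 * D ^ 4) ≤ b) (hd : 2 ≤ d)
    (hdD : d ≤ D) :
    (4 * ((2 * (8 * w ^ 2) + 1) * w ^ (25 * D ^ 2) * w)) ^ d ≤ b := by
  refine le_trans ?_ hb
  have h2 := two_l_pw (w := w) (by omega)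
  have h4 : 4 ≤ w ^ 1 := by rw [pow_one]; omega
  have h3 : w ≤ w ^ 1 := by rw [pow_one]
  have h1 := le_pow_pw (le_mul_pw h4 (le_mul_pw (le_mul_pw h2 (le_refl (w ^ (25 * D ^ 2)))) h3)) d
  refine le_mono_pw (by omega) ?_ h1
  have h5 := D_pows (D := D) (by omega)
  have h6 : D ^ 2 * d ≤ D ^ 3 := by
    calc D ^ 2 * d ≤ D ^ 2 * D := Nat.mul_le_mul_left _ hdD
      _ = D ^ 3 := by ring
  have h9 : (1 + (5 + 25 * D ^ 2 + 1)) * d = 7 * d + 25 * (D ^ 2 * d) := by ring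
  rw [h9]
  omega

theorem numB7 (D w b d : ℕ) (hw : 2 * D ≤ w) (hb : w ^ (200 * D ^ 4) ≤ b) (hd : 2 ≤ d)
    (hdD : d ≤ D) :
    8 * ((d + 1) * d ^ 2 * 2 ^ d * w ^ (25 * D ^ 2)) ≤ b := by
  refine le_trans ?_ hb
  have h8 : 8 ≤ w ^ 2 := by nlinarith
  have hd1 : d + 1 ≤ w ^ 1 := by rw [pow_one]; omega
  have hd2 : d ≤ w ^ 1 := by rw [pow_one]; omega
  have h2 : 2 ≤ w ^ 1 := by rw [pow_one]; omega
  have h1 := le_mul_pw h8 (le_mul_pw (le_mul_pw (le_mul_pw hd1 (le_pow_pw hd2 2)) (le_pow_pw h2 d))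
    (le_refl (w ^ (25 * D ^ 2))))
  refine le_mono_pw (by omega) ?_ h1
  have h5 := D_pows (D := D) (by omega)
  omega

theorem numB8 (D w b : ℕ) (hD : 2 ≤ D) (hw : 2 * D ≤ w) (hb : w ^ (200 * D ^ 4) ≤ b) :
    w ^ (116 * D ^ 3) + 2 ≤ b := by
  refine le_trans ?_ hb
  have h3 := one_le_D3 hD
  have h2 : 2 ≤ w ^ (116 * D ^ 3) := by
    calc 2 ≤ w ^ 1 := by rw [pow_one]; omega
      _ ≤ w ^ (116 * D ^ 3) := Nat.pow_le_pow_right (by omega) (by omega)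
  refine le_mono_pw (by omega) ?_ (le_add_pw (by omega : 2 ≤ w) (le_refl (w ^ (116 * D ^ 3))) h2)
  have h5 := D_pows (D := D) (by omega)
  omega

theorem numB9 (D w b d : ℕ) (hw : 2 * D ≤ w) (hb : w ^ (200 * D ^ 4) ≤ b) (hd : 2 ≤ d)
    (hdD : d ≤ D) : 2 ^ (d + 1) ≤ b := by
  refine le_trans ?_ hb
  have h2 : 2 ≤ w ^ 1 := by rw [pow_one]; omega
  refine le_mono_pw (by omega) ?_ (le_pow_pw h2 (d + 1))
  have h5 := D_pows (D := D) (by omega)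
  omega

theorem numB10 (D w d : ℕ) (hw : 2 * D ≤ w) (hd : 2 ≤ d) (hdD : d ≤ D) :
    w ^ (58 * D ^ 3) + (5 * d ^ 3 * (2 * (8 * w ^ 2)) + d + ((d + 1) * (2 * (8 * w ^ 2)) +
      (d - 2) * (2 * (8 * w ^ 2))) * (2 * d - 1)) ≤ w ^ (116 * D ^ 3) := by
  have h2l := two_l_pw (w := w) (by omega)
  have hl : 2 * (8 * w ^ 2) ≤ w ^ 5 := by omega
  have h5' : 5 ≤ w ^ 2 := by nlinarith
  have hd1 : d + 1 ≤ w ^ 1 := by rw [pow_one]; omega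
  have hd2 : d - 2 ≤ w ^ 1 := by rw [pow_one]; omega
  have hd3 : 2 * d - 1 ≤ w ^ 1 := by rw [pow_one]; omega
  have hd4 : d ≤ w ^ 1 := by rw [pow_one]; omega
  have hw2 : 2 ≤ w := by omega
  have hw1 : 1 ≤ w := by omega
  have h1 : 5 * d ^ 3 * (2 * (8 * w ^ 2)) ≤ w ^ (2 + 1 * 3 + 5) :=
    le_mul_pw (le_mul_pw h5' (le_pow_pw hd4 3)) hl
  have h2 : d ≤ w ^ (2 + 1 * 3 + 5) := le_mono_pw hw1 (by norm_num) hd4
  have h3 : ((d + 1) * (2 * (8 * w ^ 2)) + (d - 2) * (2 * (8 * w ^ 2))) * (2 * d - 1) ≤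
      w ^ (2 + 1 * 3 + 5 + 1) :=
    le_mono_pw hw1 (by norm_num) (le_mul_pw (le_add_pw hw2 (le_mul_pw hd1 hl) (le_mul_pw hd2 hl)) hd3)
  have h4 := le_add_pw hw2 (le_add_pw hw2 h1 h2) h3
  have h6 := one_le_D3 (D := D) (by omega)
  have h7 := le_mono_pw hw1 (by omega : 2 + 1 * 3 + 5 + 1 + 1 ≤ 58 * D ^ 3) h4
  refine le_mono_pw hw1 ?_ (le_add_pw hw2 (le_refl (w ^ (58 * D ^ 3))) h7)
  omega

theorem numB11 (D w d : ℕ) (hw : 2 * D ≤ w) (hd : 2 ≤ d) (hdD : d ≤ D) :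
    (d + 1) * (2 * (8 * w ^ 2) + 1) ≤ w ^ (116 * D ^ 3) := by
  have h6 := one_le_D3 (D := D) (by omega)
  exact le_mono_pw (by omega) (by omega) (numA0 D w d hw hd hdD)

end Pool.Agent.Helper9.DG
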