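import Pool.Agent.Helper9.DG.NumB

/-!
PROJECT DG, module DG-23. Numerical inequalities, part C.

`w ≥ 4`, `d + 1 ≤ w` (`2 d ≤ w`), `16 w^2 + 1 ≤ w^5`, `Y = w^(25 D^2)`, `M = w^(116 D^3)`, `K = w^(58 D^3)`.
`numC1`: `(2l+1) Y ≤ w^(5 + 25 D^2)`, `2 + d ((2l+1)Y)^d ≤ w^(2 + (5 + 25 D^2) d)`, so the left side is at most `w^(2 + 4 + 2 (5 + 25 D^2) d) ≤ w^(6 + 10 D + 50 D^3) ≤ w^(54 D^3 - 6)`
(`4 D^3 ≥ 10 D + 12` for `D ≥ 2`).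
`numC2`: `(S + 2) ≤ w^(54 D^3 - 5)`, `d + 5 d^3 (16 w^2) + 1 ≤ 11 w^5 ≤ w^7`, so `κ = (S + 2)(...) + 16 w^2 ≤ w^(54 D^3 + 2) + w^4 ≤ w^(54 D^3 + 3)`; `(2(d+1))^(d+1) ≤ w^(2 (D + 1))`
(`2 (d + 1) ≤ 2 w ≤ w^2`); `54 D^3 + 3 + 2 D + 2 ≤ 58 D^3`.
`numC3`: `(1 - 1/K)^M ≤ exp (- M / K) = exp (- K)` (`M = K^2`, `Real.one_sub_le_exp_neg`), the other factor is at most `w^(200 D^4)` (exponents: `2 + (5 + 25 D^2) D` and
`(1 + 116 D^3 + 5 + 25 D^2 + 1) D`, sum `116 D^4 + 50 D^3 + 12 D + 2 ≤ 200 D^4`), and `w^(200 D^4) = exp (200 D^4 log w) ≤ exp (200 D^4 w) ≤ exp K` as `200 D^4 w ≤ w^8 ≤ w^(58 D^3)`.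
Proved by helper59.
-/

set_option autoImplicit false

namespace Pool.Agent.Helper9.DG

theorem numC1 (D w d : ℕ) (hw : 2 * D ≤ w) (hd : 2 ≤ d) (hdD : d ≤ D) :
    16 * (2 + d * ((2 * (8 * w ^ 2) + 1) * w ^ (25 * D ^ 2)) ^ d) ^ 2 ≤ w ^ (54 * D ^ 3 - 6) := by
  have hw2 : 2 ≤ w := by omega
  have hw1 : 1 ≤ w := by omega
  have h16 : 16 ≤ w ^ 2 := by nlinarith
  have h2l := two_l_pw (w := w) (by omega)
  have hd4 : d ≤ w ^ 1 := by rw [pow_one]; omega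
  have h2 : 2 ≤ w ^ (1 + (5 + 25 * D ^ 2) * d) := by
    calc 2 ≤ w ^ 1 := by rw [pow_one]; omega
      _ ≤ _ := Nat.pow_le_pow_right hw1 (by omega)
  have h1 := le_mul_pw h16 (le_pow_pw (le_add_pw hw2 h2 (le_mul_pw hd4 (le_pow_pw
    (le_mul_pw h2l (le_refl (w ^ (25 * D ^ 2)))) d))) 2)
  refine le_mono_pw hw1 ?_ h1
  have h5 := D_pows (D := D) (by omega)
  have h6 : D ^ 2 * d ≤ D ^ 3 := by
    calc D ^ 2 * d ≤ D ^ 2 * D := Nat.mul_le_mul_left _ hdD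
      _ = D ^ 3 := by ring
  have h9 : 2 + (1 + (5 + 25 * D ^ 2) * d + 1) * 2 = 6 + 10 * d + 50 * (D ^ 2 * d) := by ring
  rw [h9]
  omega

theorem numC2 (D w d S : ℕ) (hw : 2 * D ≤ w) (hd : 2 ≤ d) (hdD : d ≤ D)
    (hS : S = w ^ (54 * D ^ 3 - 6)) :
    (2 * (d + 1)) ^ (d + 1) * ((S + 2) * (d + 5 * d ^ 3 * (2 * (8 * w ^ 2)) + 1) +
      2 * (8 * w ^ 2)) ≤ w ^ (58 * D ^ 3) := by
  have hw2 : 2 ≤ w := by omega
  have hw1 : 1 ≤ w := by omega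
  have h2l := two_l_pw (w := w) (by omega)
  have hl : 2 * (8 * w ^ 2) ≤ w ^ 5 := by omega
  have h5' : 5 ≤ w ^ 2 := by nlinarith
  have hd4 : d ≤ w ^ 1 := by rw [pow_one]; omega
  have h2 : 2 ≤ w ^ 1 := by rw [pow_one]; omega
  have hd1 : d + 1 ≤ w ^ 1 := by rw [pow_one]; omega
  have h3 := one_le_D3 (D := D) (by omega)
  have hS2 : S + 2 ≤ w ^ (54 * D ^ 3 - 6 + 1) := by
    refine le_add_pw hw2 hS.le ?_
    calc 2 ≤ w ^ 1 := h2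
      _ ≤ _ := Nat.pow_le_pow_right hw1 (by omega)
  have h1 : 5 * d ^ 3 * (2 * (8 * w ^ 2)) ≤ w ^ (2 + 1 * 3 + 5) :=
    le_mul_pw (le_mul_pw h5' (le_pow_pw hd4 3)) hl
  have h4 : d + 5 * d ^ 3 * (2 * (8 * w ^ 2)) + 1 ≤ w ^ (2 + 1 * 3 + 5 + 1 + 1) :=
    le_add_one_pw hw2 (le_add_pw hw2 (le_mono_pw hw1 (by norm_num) hd4) h1)
  have h5 := le_mul_pw hS2 h4
  have h6 : 2 * (8 * w ^ 2) ≤ w ^ (54 * D ^ 3 - 6 + 1 + (2 + 1 * 3 + 5 + 1 + 1)) :=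
    le_mono_pw hw1 (by omega) hl
  have h7 := le_mul_pw (le_pow_pw (le_mul_pw h2 hd1) (d + 1)) (le_add_pw hw2 h5 h6)
  refine le_mono_pw hw1 ?_ h7
  have h8 := D_pows (D := D) (by omega)
  omega

theorem numC3 (D w d M K : ℕ) (hw : 2 * D ≤ w) (hd : 2 ≤ d) (hdD : d ≤ D)
    (hM : M = w ^ (116 * D ^ 3)) (hK : K = w ^ (58 * D ^ 3)) :
    (1 - 1 / (K : ℝ)) ^ M * ((1 + (d : ℝ) * ((((2 * (8 * w ^ 2) : ℕ) : ℝ) + 1) *
      ((w ^ (25 * D ^ 2) : ℕ) : ℝ)) ^ d) *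
      (1 + (M : ℝ) * (((2 * (8 * w ^ 2) + 1) * w ^ (25 * D ^ 2) * w : ℕ) : ℝ)) ^ d) ≤ 1 := by
  have hw2 : 2 ≤ w := by omega
  have hw1 : 1 ≤ w := by omega
  have h2l := two_l_pw (w := w) (by omega)
  have h3 := one_le_D3 (D := D) (by omega)
  have h8 := D_pows (D := D) (by omega)
  have hd4 : d ≤ w ^ 1 := by rw [pow_one]; omega
  have hw4 : w ≤ w ^ 1 := by rw [pow_one]
  have hMK : M = K * K := by
    rw [hM, hK, ← pow_add]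
    congr 1
    ring
  have hK1 : 1 ≤ K := by
    rw [hK]
    exact Nat.one_le_pow _ _ (by omega)
  -- the second factor
  have hN : (1 + d * ((2 * (8 * w ^ 2) + 1) * w ^ (25 * D ^ 2)) ^ d) *
      (1 + M * ((2 * (8 * w ^ 2) + 1) * w ^ (25 * D ^ 2) * w)) ^ d ≤ w ^ (200 * D ^ 4) := by
    have h1 := le_add_one_pw hw2 (le_mul_pw hd4 (le_pow_pw
      (le_mul_pw h2l (le_refl (w ^ (25 * D ^ 2)))) d))
    have h2 := le_pow_pw (le_add_one_pw hw2 (le_mul_pw hM.le (le_mul_pw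
      (le_mul_pw h2l (le_refl (w ^ (25 * D ^ 2)))) hw4))) d
    rw [add_comm 1 (d * _), add_comm 1 (M * _)]
    refine le_mono_pw hw1 ?_ (le_mul_pw h1 h2)
    have h6 : D ^ 2 * d ≤ D ^ 3 := by
      calc D ^ 2 * d ≤ D ^ 2 * D := Nat.mul_le_mul_left _ hdD
        _ = D ^ 3 := by ring
    have h7 : D ^ 3 * d ≤ D ^ 4 := by
      calc D ^ 3 * d ≤ D ^ 3 * D := Nat.mul_le_mul_left _ hdD
        _ = D ^ 4 := by ring
    have h9 : 1 + (5 + 25 * D ^ 2) * d + 1 + (116 * D ^ 3 + (5 + 25 * D ^ 2 + 1) + 1) * d =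
        2 + 12 * d + 50 * (D ^ 2 * d) + 116 * (D ^ 3 * d) := by ring
    rw [h9]
    omega
  have hNr : (1 + (d : ℝ) * ((((2 * (8 * w ^ 2) : ℕ) : ℝ) + 1) *
      ((w ^ (25 * D ^ 2) : ℕ) : ℝ)) ^ d) *
      (1 + (M : ℝ) * (((2 * (8 * w ^ 2) + 1) * w ^ (25 * D ^ 2) * w : ℕ) : ℝ)) ^ d ≤
      (w : ℝ) ^ (200 * D ^ 4) := by
    have := (Nat.cast_le (α := ℝ)).mpr hN
    push_cast at this ⊢
    exact this
  have hexpw : (w : ℝ) ^ (200 * D ^ 4) ≤ Real.exp K := by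
    have h1 : (w : ℝ) ≤ Real.exp w := by
      have := Real.add_one_le_exp (w : ℝ)
      linarith
    have h2 : (w : ℝ) ^ (200 * D ^ 4) ≤ Real.exp w ^ (200 * D ^ 4) :=
      pow_le_pow_left₀ (by positivity) h1 _
    refine h2.trans ?_
    rw [← Real.exp_nat_mul]
    refine Real.exp_le_exp.mpr ?_
    have h4 : 200 * D ^ 4 * w ≤ K := by
      rw [hK]
      have h200 : 200 ≤ w ^ 4 := by
        have := Nat.pow_le_pow_left (by omega : 4 ≤ w) 4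
        omega
      have hD1 : D ≤ w ^ 1 := by rw [pow_one]; omega
      exact le_mono_pw hw1 (by omega) (le_mul_pw (le_mul_pw h200 (le_pow_pw hD1 4)) hw4)
    exact_mod_cast h4
  have hKr : (1 : ℝ) ≤ K := by exact_mod_cast hK1
  have hfirst : (1 - 1 / (K : ℝ)) ^ M ≤ Real.exp (-(K : ℝ)) := by
    have h1 : 1 - 1 / (K : ℝ) ≤ Real.exp (-(1 / (K : ℝ))) := Real.one_sub_le_exp_neg _
    have h0 : 0 ≤ 1 - 1 / (K : ℝ) := by
      rw [sub_nonneg, div_le_one (by linarith)]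
      exact hKr
    refine (pow_le_pow_left₀ h0 h1 M).trans ?_
    rw [← Real.exp_nat_mul]
    refine Real.exp_le_exp.mpr (le_of_eq ?_)
    rw [hMK]
    push_cast
    field_simp
  have h0 : 0 ≤ 1 - 1 / (K : ℝ) := by
    rw [sub_nonneg, div_le_one (by linarith)]
    exact hKr
  calc (1 - 1 / (K : ℝ)) ^ M * _ ≤ Real.exp (-(K : ℝ)) * Real.exp K := by
        refine mul_le_mul hfirst (hNr.trans hexpw) (by positivity) (Real.exp_nonneg _)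
    _ = 1 := by rw [← Real.exp_add]; simp

end Pool.Agent.Helper9.DG
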