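import Pool.Agent.Helper9.DG.Dat
import Pool.Agent.Helper9.DG.NumA
import Pool.Agent.Helper9.DG.NumB
import Pool.Agent.Helper9.DG.NumC

/-!
PROJECT DG. The numerical hypotheses hold. (helper9)
-/

set_option autoImplicit false

namespace Pool.Agent.Helper9.DG

theorem num (D w b d : ℕ) (hw : 2 * D ≤ w) (hb : w ^ (200 * D ^ 4) ≤ b) (hd : 2 ≤ d)
    (hdD : d ≤ D) : ∃ l Y M K S κ, Num w b d l Y M K S κ := by
  have hD : 2 ≤ D := hd.trans hdD
  have hw4 : 4 ≤ w := by omega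
  have hA0 := numA0 D w d hw hd hdD
  have hB11 := numB11 D w d hw hd hdD
  refine ⟨8 * w ^ 2, w ^ (25 * D ^ 2), w ^ (116 * D ^ 3), w ^ (58 * D ^ 3), w ^ (54 * D ^ 3 - 6),
    (w ^ (54 * D ^ 3 - 6) + 2) * (d + 5 * d ^ 3 * (2 * (8 * w ^ 2)) + 1) + 2 * (8 * w ^ 2),
    hw4, hd, by omega, rfl, Nat.one_le_pow _ _ (by omega), numA1 D w d hw hd hdD,
    numA2 D w b hD hw hb, numA3 D w b d hw hb hd hdD, numA4 D w b d hw hb hd hdD,
    numB5 D w b d hw hb hd hdD, numB6 D w b d hw hb hd hdD, numB7 D w b d hw hb hd hdD,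
    numB8 D w b hD hw hb, numB9 D w b d hw hb hd hdD, ?_, numB10 D w d hw hd hdD,
    numC1 D w d hw hd hdD, numC3 D w d _ _ hw hd hdD rfl rfl, by omega, by omega,
    numC2 D w d _ hw hd hdD rfl, ?_, ?_⟩
  · have h1 : 1 ≤ 58 * D ^ 3 := by
      have : 0 < D ^ 3 := by positivity
      omega
    calc 2 ≤ w ^ 1 := by rw [pow_one]; omega
      _ ≤ w ^ (58 * D ^ 3) := Nat.pow_le_pow_right (by omega) h1
  · refine le_trans ?_ hB11
    have : (d + 1) * (2 * (8 * w ^ 2) + 1) = d * (2 * (8 * w ^ 2) + 1) + (2 * (8 * w ^ 2) + 1) := by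
      ring
    omega
  · refine le_trans ?_ hB11
    exact Nat.mul_le_mul_left _ (by omega)

end Pool.Agent.Helper9.DG
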