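import Pool.Agent.Helper9.DG.Defs

/-!
PROJECT DG, module DG-03. Values at `1 / b`.

`eval_tail`: `aeval (1/b) q = ∑_{k ≤ deg q} q_k b^(-k)` (`aeval_eq_sum_range`), the terms with `k < N` vanish (`X_pow_dvd_iff`), and
`|q_k| b^(-k) ≤ C (k + 1)^d b^(-k) ≤ C (N + 1)^d b^(-N) 2^(-(k - N))` for `k ≥ N` (induction on `k`: `(k + 2)^d ≤ 2^d (k + 1)^d` and `b ≥ 2^(d + 1)`); geometric sum `≤ 2`.
`eval_ne_zero`: if `p ≠ 0` has degree `n`, then `b^n aeval (1/b) p = ∑ p_j b^(n - j)` is an integer `≡ p_n` modulo `b`, `0 < |p_n| ≤ Y < b`, so it is not `0`.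
`abs_eval_le`: `|aeval (1/b) p| ≤ ∑ Y b^(-j) ≤ 2 Y` for `b ≥ 2`.
-/

set_option autoImplicit false

namespace Pool.Agent.Helper9.DG

open Polynomial Finset

private theorem et_abs (q : ℤ[X]) (x : ℝ) (hx : 0 ≤ x) :
    |aeval x q| ≤ ∑ k ∈ range (q.natDegree + 1), |(q.coeff k : ℝ)| * x ^ k := by
  rw [aeval_eq_sum_range]
  refine (abs_sum_le_sum_abs _ _).trans (le_of_eq (sum_congr rfl fun k _ => ?_))
  rw [zsmul_eq_mul, abs_mul, abs_of_nonneg (pow_nonneg hx k)]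

private theorem et_geom (N M : ℕ) :
    ∑ k ∈ range M, (if k < N then (0 : ℝ) else (1 / 2) ^ (k - N)) ≤ 2 - 2 * (1 / 2) ^ (M - N) := by
  induction M with
  | zero => simp
  | succ M ih =>
    rw [sum_range_succ]
    by_cases h : M < N
    · rw [if_pos h, add_zero, Nat.sub_eq_zero_of_le (by omega : M + 1 ≤ N)]
      rw [Nat.sub_eq_zero_of_le h.le] at ih
      exact ih
    · rw [if_neg h, show M + 1 - N = (M - N) + 1 by omega, pow_succ]
      linarith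

private theorem et_geom' (N M : ℕ) :
    ∑ k ∈ range M, (if k < N then (0 : ℝ) else (1 / 2) ^ (k - N)) ≤ 2 := by
  have h := et_geom N M
  have h2 : (0 : ℝ) ≤ (1 / 2) ^ (M - N) := by positivity
  linarith

private theorem et_step (d N b j : ℕ) (hb : 2 ^ (d + 1) ≤ b) :
    ((N + j : ℕ) + 1 : ℝ) ^ d * (1 / (b : ℝ)) ^ (N + j) ≤
      ((N : ℝ) + 1) ^ d * (1 / (b : ℝ)) ^ N * (1 / 2) ^ j := by
  have hb' : (2 : ℝ) ^ (d + 1) ≤ b := by exact_mod_cast hb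
  have hb0 : (0 : ℝ) < b := lt_of_lt_of_le (by positivity) hb'
  induction j with
  | zero => simp
  | succ j ih =>
    have h1 : (((N + (j + 1) : ℕ) : ℝ) + 1) ^ d ≤ 2 ^ d * (((N + j : ℕ) : ℝ) + 1) ^ d := by
      rw [← mul_pow]
      apply pow_le_pow_left₀ (by positivity)
      push_cast
      have h2 : (0 : ℝ) ≤ N := Nat.cast_nonneg _
      have h3 : (0 : ℝ) ≤ j := Nat.cast_nonneg _
      linarith
    have h4 : (2 : ℝ) ^ d * (1 / b) ≤ 1 / 2 := by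
      rw [mul_one_div, div_le_div_iff₀ hb0 (by norm_num)]
      rw [pow_succ] at hb'
      linarith
    have h5 : (0 : ℝ) ≤ (((N + j : ℕ) : ℝ) + 1) ^ d * (1 / (b : ℝ)) ^ (N + j) := by positivity
    calc (((N + (j + 1) : ℕ) : ℝ) + 1) ^ d * (1 / (b : ℝ)) ^ (N + (j + 1))
        ≤ (2 ^ d * (((N + j : ℕ) : ℝ) + 1) ^ d) * (1 / (b : ℝ)) ^ (N + (j + 1)) :=
          mul_le_mul_of_nonneg_right h1 (by positivity)
      _ = (2 ^ d * (1 / (b : ℝ))) * ((((N + j : ℕ) : ℝ) + 1) ^ d * (1 / (b : ℝ)) ^ (N + j)) := by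
          rw [← add_assoc, pow_succ]
          ring
      _ ≤ (1 / 2) * ((((N + j : ℕ) : ℝ) + 1) ^ d * (1 / (b : ℝ)) ^ (N + j)) :=
          mul_le_mul_of_nonneg_right h4 h5
      _ ≤ (1 / 2) * (((N : ℝ) + 1) ^ d * (1 / (b : ℝ)) ^ N * (1 / 2) ^ j) :=
          mul_le_mul_of_nonneg_left ih (by norm_num)
      _ = ((N : ℝ) + 1) ^ d * (1 / (b : ℝ)) ^ N * (1 / 2) ^ (j + 1) := by
          rw [pow_succ]
          ring

theorem eval_tail (q : ℤ[X]) (K d N b : ℕ) (hb : 2 ^ (d + 1) ≤ b) (hq : X ^ N ∣ q)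
    (hK : ∀ k, |q.coeff k| ≤ ((K * (k + 1) ^ d : ℕ) : ℤ)) :
    |aeval (1 / (b : ℝ)) q| ≤ 2 * K * ((N : ℝ) + 1) ^ d / (b : ℝ) ^ N := by
  have hx : (0 : ℝ) ≤ 1 / (b : ℝ) := by positivity
  have hterm : ∀ k, |(q.coeff k : ℝ)| * (1 / (b : ℝ)) ^ k ≤
      (K * ((N : ℝ) + 1) ^ d * (1 / (b : ℝ)) ^ N) *
        (if k < N then (0 : ℝ) else (1 / 2) ^ (k - N)) := by
    intro k
    by_cases h : k < N
    · rw [if_pos h, (X_pow_dvd_iff.1 hq) k h]
      simp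
    · rw [if_neg h]
      obtain ⟨j, rfl⟩ := Nat.exists_eq_add_of_le (not_lt.1 h)
      rw [Nat.add_sub_cancel_left]
      have h1 : |(q.coeff (N + j) : ℝ)| ≤ K * (((N + j : ℕ) : ℝ) + 1) ^ d := by
        have h2 : ((|q.coeff (N + j)| : ℤ) : ℝ) ≤ (((K * (N + j + 1) ^ d : ℕ) : ℤ) : ℝ) :=
          Int.cast_le.2 (hK (N + j))
        rw [Int.cast_abs] at h2
        push_cast at h2 ⊢
        exact h2
      have h3 := et_step d N b j hb
      calc |(q.coeff (N + j) : ℝ)| * (1 / (b : ℝ)) ^ (N + j)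
          ≤ (K * (((N + j : ℕ) : ℝ) + 1) ^ d) * (1 / (b : ℝ)) ^ (N + j) :=
            mul_le_mul_of_nonneg_right h1 (by positivity)
        _ = K * ((((N + j : ℕ) : ℝ) + 1) ^ d * (1 / (b : ℝ)) ^ (N + j)) := by ring
        _ ≤ K * (((N : ℝ) + 1) ^ d * (1 / (b : ℝ)) ^ N * (1 / 2) ^ j) :=
            mul_le_mul_of_nonneg_left h3 (Nat.cast_nonneg _)
        _ = _ := by ring
  refine (et_abs q _ hx).trans ((sum_le_sum fun k _ => hterm k).trans ?_)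
  rw [← mul_sum]
  have h4 := et_geom' N (q.natDegree + 1)
  have h5 : (0 : ℝ) ≤ K * ((N : ℝ) + 1) ^ d * (1 / (b : ℝ)) ^ N := by positivity
  refine (mul_le_mul_of_nonneg_left h4 h5).trans (le_of_eq ?_)
  rw [one_div, inv_pow, div_eq_mul_inv]
  ring

theorem eval_ne_zero (p : ℤ[X]) (Y b : ℕ) (hp : p ≠ 0) (hY : CB Y p) (hb : Y < b) :
    aeval (1 / (b : ℝ)) p ≠ 0 := by
  intro h0
  have hb0 : (b : ℝ) ≠ 0 := by
    have : 0 < b := lt_of_le_of_lt (Nat.zero_le _) hb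
    exact_mod_cast this.ne'
  have h1 : (∑ i ∈ range (p.natDegree + 1), p.coeff i * (b : ℤ) ^ (p.natDegree - i)) = 0 := by
    have h2 : ((∑ i ∈ range (p.natDegree + 1), p.coeff i * (b : ℤ) ^ (p.natDegree - i) : ℤ) : ℝ)
        = (b : ℝ) ^ p.natDegree * aeval (1 / (b : ℝ)) p := by
      rw [aeval_eq_sum_range, mul_sum]
      push_cast
      refine sum_congr rfl fun i hi => ?_
      have hi' : i ≤ p.natDegree := Nat.lt_succ_iff.1 (mem_range.1 hi)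
      obtain ⟨j, hj⟩ := Nat.exists_eq_add_of_le hi'
      rw [zsmul_eq_mul, hj, Nat.add_sub_cancel_left, pow_add, one_div, inv_pow]
      field_simp
    rw [h0, mul_zero] at h2
    exact_mod_cast h2
  rw [sum_range_succ, Nat.sub_self, pow_zero, mul_one] at h1
  have h3 : (b : ℤ) ∣ ∑ i ∈ range p.natDegree, p.coeff i * (b : ℤ) ^ (p.natDegree - i) := by
    refine dvd_sum fun i hi => Dvd.dvd.mul_left (dvd_pow_self _ ?_) _
    have := mem_range.1 hi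
    omega
  have h4 : (b : ℤ) ∣ p.coeff p.natDegree := by
    have h5 : p.coeff p.natDegree =
        -∑ i ∈ range p.natDegree, p.coeff i * (b : ℤ) ^ (p.natDegree - i) := by linarith
    rw [h5]
    exact (dvd_neg).2 h3
  have h6 : p.coeff p.natDegree ≠ 0 := by
    rw [coeff_natDegree]
    exact leadingCoeff_ne_zero.2 hp
  have h7 := Int.le_of_dvd (abs_pos.2 h6) ((dvd_abs _ _).2 h4)
  have h8 := hY p.natDegree
  have h9 : (Y : ℤ) < b := by exact_mod_cast hb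
  linarith

theorem abs_eval_le (p : ℤ[X]) (Y b : ℕ) (hY : CB Y p) (hb : 2 ≤ b) :
    |aeval (1 / (b : ℝ)) p| ≤ 2 * Y := by
  have hb' : (2 : ℝ) ≤ b := by exact_mod_cast hb
  have hx : (0 : ℝ) ≤ 1 / (b : ℝ) := by positivity
  have hx2 : 1 / (b : ℝ) ≤ 1 / 2 := one_div_le_one_div_of_le (by norm_num) hb'
  refine (et_abs p _ hx).trans ?_
  have h1 : ∀ k ∈ range (p.natDegree + 1), |(p.coeff k : ℝ)| * (1 / (b : ℝ)) ^ k ≤
      (Y : ℝ) * (if k < 0 then (0 : ℝ) else (1 / 2) ^ (k - 0)) := by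
    intro k _
    rw [if_neg (Nat.not_lt_zero k), Nat.sub_zero]
    have h2 : |(p.coeff k : ℝ)| ≤ Y := by
      have h3 : ((|p.coeff k| : ℤ) : ℝ) ≤ ((Y : ℤ) : ℝ) := Int.cast_le.2 (hY k)
      rw [Int.cast_abs] at h3
      exact_mod_cast h3
    exact mul_le_mul h2 (pow_le_pow_left₀ hx hx2 k) (by positivity) (Nat.cast_nonneg _)
  refine (sum_le_sum h1).trans ?_
  rw [← mul_sum, mul_comm (2 : ℝ)]
  exact mul_le_mul_of_nonneg_left (et_geom' 0 _) (Nat.cast_nonneg _)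

end Pool.Agent.Helper9.DG
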