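import Pool.Agent.Helper9.DG.EvalTail

/-!
PROJECT DG, module DG-05. The integer polynomial `GG b L d A`.

`coeff_GG`: `finset_sum_coeff`, `coeff_C_mul`, `coeff_X_pow`. `coeff_GG_eq`: `b^L aeval (1/b) (A_i) = b^L ∑_{j ≤ L} (A_i)_j b^(-j)` (`aeval_eq_sum_range'`).
`aeval_GG`, `aeval_GG'`: sum over `i`. `coeff_GG_le`: `L + 1` terms, each at most `Y b^L`. `natDegree_GG`: `natDegree_sum_le_of_forall_le`.
-/

set_option autoImplicit false

namespace Pool.Agent.Helper9.DG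

open Polynomial Finset

private theorem gi_coeff (b L d : ℕ) (A : ℕ → ℤ[X]) (i : ℕ) :
    (GG b L d A).coeff i =
      if i ≤ d then ∑ j ∈ range (L + 1), (A i).coeff j * (b : ℤ) ^ (L - j) else 0 := by
  unfold GG
  rw [finsetSum_coeff]
  simp only [coeff_C_mul, coeff_X_pow]
  split_ifs with h
  · rw [Finset.sum_eq_single i]
    · simp
    · intro k _ hk
      rw [if_neg (Ne.symm hk), mul_zero]
    · intro h'
      exact absurd (mem_range.2 (by omega)) h'
  · apply Finset.sum_eq_zero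
    intro k hk
    have h1 := mem_range.1 hk
    rw [if_neg (by omega), mul_zero]

theorem natDegree_GG (b L d : ℕ) (A : ℕ → ℤ[X]) : (GG b L d A).natDegree ≤ d := by
  rw [natDegree_le_iff_coeff_eq_zero]
  intro N hN
  rw [gi_coeff, if_neg (by omega)]

theorem coeff_GG_eq (b L d : ℕ) (A : ℕ → ℤ[X]) (hb : 1 ≤ b) (hA : ∀ i, (A i).natDegree ≤ L)
    (i : ℕ) (hi : i ≤ d) :
    (((GG b L d A).coeff i : ℤ) : ℝ) = (b : ℝ) ^ L * aeval (1 / (b : ℝ)) (A i) := by
  rw [gi_coeff, if_pos hi, aeval_eq_sum_range' (Nat.lt_succ_of_le (hA i)), mul_sum]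
  push_cast
  refine sum_congr rfl fun j hj => ?_
  have h1 := mem_range.1 hj
  have hb0 : (b : ℝ) ≠ 0 := by
    have : (1 : ℝ) ≤ b := by exact_mod_cast hb
    linarith
  rw [zsmul_eq_mul, pow_sub₀ (b : ℝ) hb0 (by omega : j ≤ L), one_div, inv_pow]
  ring

theorem aeval_GG (b L d : ℕ) (A : ℕ → ℤ[X]) (hb : 1 ≤ b) (hA : ∀ i, (A i).natDegree ≤ L)
    (t : ℝ) : aeval t (GG b L d A) =
      (b : ℝ) ^ L * ∑ i ∈ range (d + 1), aeval (1 / (b : ℝ)) (A i) * t ^ i := by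
  rw [aeval_eq_sum_range' (Nat.lt_succ_of_le (natDegree_GG b L d A)), mul_sum]
  refine sum_congr rfl fun i hi => ?_
  have h1 := mem_range.1 hi
  rw [zsmul_eq_mul, coeff_GG_eq b L d A hb hA i (by omega)]
  ring

theorem aeval_derivative_GG (b L d : ℕ) (A : ℕ → ℤ[X]) (hb : 1 ≤ b)
    (hA : ∀ i, (A i).natDegree ≤ L) (t : ℝ) : aeval t (derivative (GG b L d A)) =
      (b : ℝ) ^ L * ∑ i ∈ range (d + 1), (i : ℝ) * aeval (1 / (b : ℝ)) (A i) * t ^ (i - 1) := by
  have h0 : derivative (GG b L d A) = ∑ i ∈ range (d + 1),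
      C ((∑ j ∈ range (L + 1), (A i).coeff j * (b : ℤ) ^ (L - j)) * (i : ℤ)) * X ^ (i - 1) := by
    unfold GG
    rw [derivative_sum]
    refine sum_congr rfl fun i _ => ?_
    rw [derivative_C_mul_X_pow]
  rw [h0, map_sum, mul_sum]
  refine sum_congr rfl fun i hi => ?_
  have h1 := mem_range.1 hi
  have h2 := coeff_GG_eq b L d A hb hA i (by omega)
  rw [gi_coeff, if_pos (by omega)] at h2
  rw [map_mul, aeval_C, map_pow, aeval_X, algebraMap_int_eq, eq_intCast, Int.cast_mul, h2,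
    Int.cast_natCast]
  ring

theorem coeff_GG_le (b L d Y : ℕ) (A : ℕ → ℤ[X]) (hb : 1 ≤ b)
    (hA : ∀ i, (A i).natDegree ≤ L ∧ CB Y (A i)) (i : ℕ) :
    |(((GG b L d A).coeff i : ℤ) : ℝ)| ≤ ((L : ℝ) + 1) * Y * (b : ℝ) ^ L := by
  have hb1 : (1 : ℝ) ≤ b := by exact_mod_cast hb
  rw [gi_coeff]
  split_ifs with h
  · push_cast
    refine (abs_sum_le_sum_abs _ _).trans ?_
    have h1 : ∀ j ∈ range (L + 1), |(((A i).coeff j : ℤ) : ℝ) * (b : ℝ) ^ (L - j)| ≤
        (Y : ℝ) * (b : ℝ) ^ L := by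
      intro j _
      rw [abs_mul, abs_of_nonneg (pow_nonneg (by linarith : (0 : ℝ) ≤ b) _)]
      have h2 : |(((A i).coeff j : ℤ) : ℝ)| ≤ (Y : ℝ) := by
        have h3 := (hA i).2 j
        exact_mod_cast h3
      exact mul_le_mul h2 (pow_le_pow_right₀ hb1 (Nat.sub_le _ _)) (by positivity) (by positivity)
    refine (sum_le_sum h1).trans (le_of_eq ?_)
    rw [sum_const, card_range, nsmul_eq_mul]
    push_cast
    ring
  · rw [Int.cast_zero, abs_zero]
    positivity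

end Pool.Agent.Helper9.DG
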