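import Pool.Agent.Helper9.DG.EvalTail

/-!
PROJECT DG, module DG-06. The form at two nearby points.

`aeval (1/b) (fm d A V) = ∑ aeval (1/b) (A_i) η^i` with `η = aeval (1/b) V` (`map_sum`, `map_mul`, `map_pow`), and
`|t^i - η^i| ≤ i 2^(i-1) |t - η|` for `|t|, |η| ≤ 2` (`Pool.Agent.Helper2.Digits.abs_pow_sub_pow_le'` gives `≤ i 2^i |t - η|`), `|aeval (1/b) (A_i)| ≤ 2 Y` (`abs_eval_le`): total
`≤ (d + 1) 2 Y d 2^d |t - η|`. The same for the derivative form: `i |t^(i-1) - η^(i-1)| ≤ d d 2^d |t - η|`.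
-/

set_option autoImplicit false

namespace Pool.Agent.Helper9.DG

open Polynomial Finset

private theorem pt_pow (t e : ℝ) (ht : |t| ≤ 2) (he : |e| ≤ 2) (i : ℕ) :
    |t ^ i - e ^ i| ≤ (i : ℝ) * 2 ^ i * |t - e| := by
  induction i with
  | zero => simp
  | succ i ih =>
    have h1 : t ^ (i + 1) - e ^ (i + 1) = t * (t ^ i - e ^ i) + e ^ i * (t - e) := by ring
    have h2 : |e ^ i| ≤ 2 ^ i := by
      rw [abs_pow]
      exact pow_le_pow_left₀ (abs_nonneg _) he i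
    have h0 : (0 : ℝ) ≤ |t - e| := abs_nonneg _
    have h3 : |t * (t ^ i - e ^ i)| ≤ 2 * ((i : ℝ) * 2 ^ i * |t - e|) := by
      rw [abs_mul]
      exact mul_le_mul ht ih (abs_nonneg _) (by norm_num)
    have h4 : |e ^ i * (t - e)| ≤ 2 ^ i * |t - e| := by
      rw [abs_mul]
      exact mul_le_mul_of_nonneg_right h2 h0
    rw [h1]
    refine (abs_add_le _ _).trans ((add_le_add h3 h4).trans ?_)
    push_cast
    rw [pow_succ]
    have h5 : (0 : ℝ) ≤ 2 ^ i * |t - e| := by positivity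
    nlinarith

private theorem pt_pow' (d i : ℕ) (hi : i ≤ d) (t e : ℝ) (ht : |t| ≤ 2) (he : |e| ≤ 2) :
    |t ^ i - e ^ i| ≤ (d : ℝ) * 2 ^ d * |t - e| := by
  refine (pt_pow t e ht he i).trans ?_
  have h1 : (i : ℝ) ≤ d := by exact_mod_cast hi
  have h2 : (2 : ℝ) ^ i ≤ 2 ^ d := pow_le_pow_right₀ (by norm_num) hi
  exact mul_le_mul_of_nonneg_right (mul_le_mul h1 h2 (by positivity) (Nat.cast_nonneg _))
    (abs_nonneg _)

theorem perturb (d Y b : ℕ) (A : ℕ → ℤ[X]) (V : ℤ[X]) (hb : 2 ≤ b) (hA : ∀ i, CB Y (A i)) (t : ℝ)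
    (ht : |t| ≤ 2) (hV : |aeval (1 / (b : ℝ)) V| ≤ 2) :
    |∑ i ∈ range (d + 1), aeval (1 / (b : ℝ)) (A i) * t ^ i - aeval (1 / (b : ℝ)) (fm d A V)| ≤
      2 * ((d : ℝ) + 1) * d ^ 2 * 2 ^ d * Y * |t - aeval (1 / (b : ℝ)) V| := by
  have h1 : aeval (1 / (b : ℝ)) (fm d A V) =
      ∑ i ∈ range (d + 1), aeval (1 / (b : ℝ)) (A i) * (aeval (1 / (b : ℝ)) V) ^ i := by
    simp only [fm, map_sum, map_mul, map_pow]
  rw [h1]
  set e := aeval (1 / (b : ℝ)) V with he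
  rw [← sum_sub_distrib]
  refine (abs_sum_le_sum_abs _ _).trans ?_
  have h2 : ∀ i ∈ range (d + 1), |aeval (1 / (b : ℝ)) (A i) * t ^ i -
      aeval (1 / (b : ℝ)) (A i) * e ^ i| ≤ 2 * Y * ((d : ℝ) * 2 ^ d * |t - e|) := by
    intro i hi
    rw [← mul_sub, abs_mul]
    exact mul_le_mul (abs_eval_le (A i) Y b (hA i) hb)
      (pt_pow' d i (Nat.lt_succ_iff.1 (mem_range.1 hi)) t e ht hV) (abs_nonneg _) (by positivity)
  refine (sum_le_sum h2).trans ?_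
  rw [sum_const, card_range, nsmul_eq_mul]
  push_cast
  have h3 : (d : ℝ) ≤ d ^ 2 := by
    rcases Nat.eq_zero_or_pos d with h | h
    · subst h; simp
    · have : (1 : ℝ) ≤ d := by exact_mod_cast h
      nlinarith
  have h4 : (0 : ℝ) ≤ 2 * ((d : ℝ) + 1) * 2 ^ d * Y * |t - e| := by positivity
  calc ((d : ℝ) + 1) * (2 * Y * (d * 2 ^ d * |t - e|))
      = d * (2 * ((d : ℝ) + 1) * 2 ^ d * Y * |t - e|) := by ring
    _ ≤ d ^ 2 * (2 * ((d : ℝ) + 1) * 2 ^ d * Y * |t - e|) := mul_le_mul_of_nonneg_right h3 h4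
    _ = _ := by ring

theorem perturb_T (d Y b : ℕ) (A : ℕ → ℤ[X]) (V : ℤ[X]) (hb : 2 ≤ b) (hA : ∀ i, CB Y (A i)) (t : ℝ)
    (ht : |t| ≤ 2) (hV : |aeval (1 / (b : ℝ)) V| ≤ 2) :
    |∑ i ∈ range (d + 1), (i : ℝ) * aeval (1 / (b : ℝ)) (A i) * t ^ (i - 1) -
        aeval (1 / (b : ℝ)) (fmT d A V)| ≤
      2 * ((d : ℝ) + 1) * d ^ 2 * 2 ^ d * Y * |t - aeval (1 / (b : ℝ)) V| := by
  have h1 : aeval (1 / (b : ℝ)) (fmT d A V) =
      ∑ i ∈ range (d + 1), (i : ℝ) * aeval (1 / (b : ℝ)) (A i) *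
        (aeval (1 / (b : ℝ)) V) ^ (i - 1) := by
    simp only [fmT, map_sum, map_mul, map_pow, map_natCast]
  rw [h1]
  set e := aeval (1 / (b : ℝ)) V with he
  rw [← sum_sub_distrib]
  refine (abs_sum_le_sum_abs _ _).trans ?_
  have h2 : ∀ i ∈ range (d + 1), |(i : ℝ) * aeval (1 / (b : ℝ)) (A i) * t ^ (i - 1) -
      (i : ℝ) * aeval (1 / (b : ℝ)) (A i) * e ^ (i - 1)| ≤
        d * (2 * Y) * ((d : ℝ) * 2 ^ d * |t - e|) := by
    intro i hi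
    have hid : i ≤ d := Nat.lt_succ_iff.1 (mem_range.1 hi)
    rw [← mul_sub, abs_mul, abs_mul, abs_of_nonneg (Nat.cast_nonneg i : (0 : ℝ) ≤ i)]
    have h5 : (i : ℝ) ≤ d := by exact_mod_cast hid
    exact mul_le_mul (mul_le_mul h5 (abs_eval_le (A i) Y b (hA i) hb) (abs_nonneg _)
      (Nat.cast_nonneg _)) (pt_pow' d (i - 1) (by omega) t e ht hV) (abs_nonneg _) (by positivity)
  refine (sum_le_sum h2).trans ?_
  rw [sum_const, card_range, nsmul_eq_mul]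
  push_cast
  apply le_of_eq
  ring

end Pool.Agent.Helper9.DG
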