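import Pool.Agent.Helper9.DG.Defs

/-!
PROJECT DG, module DG-01. Coefficients of products, powers and forms.

`coeff_mul_le`: `(A B).coeff k = ∑_{i + j = k} A_i B_j` (`coeff_mul`), at most `L + 1` nonzero terms (`i ≤ L`), each `≤ Y M`.
`coeff_pow_le`: induction on `i`: `(V^(i+1)).coeff k = ∑_{a + b = k} V_a (V^i)_b`, `k + 1` terms, each `≤ s (s (b + 1))^i ≤ s (s (k + 1))^i`.
`coeff_fm_le`: sum of `d + 1` products; `(s (k + 1))^i ≤ (s (k + 1))^d` as `s (k + 1) ≥ 1`, and `(s (j+1))^i ≤ (s (k+1))^i` for `j ≤ k`.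
`coeff_fmT_le`: the same with the factor `i ≤ d`, `V^(i-1)`.
-/

set_option autoImplicit false

namespace Pool.Agent.Helper9.DG

open Polynomial Finset

private theorem coeff_mul_range (A B : ℤ[X]) (k : ℕ) :
    (A * B).coeff k = ∑ i ∈ range (k + 1), A.coeff i * B.coeff (k - i) := by
  rw [coeff_mul, Finset.Nat.sum_antidiagonal_eq_sum_range_succ_mk]

theorem coeff_mul_le (A B : ℤ[X]) (L Y M k : ℕ) (hL : A.natDegree ≤ L) (hA : CB Y A)
    (hB : ∀ j ≤ k, |B.coeff j| ≤ (M : ℤ)) : |(A * B).coeff k| ≤ (((L + 1) * Y * M : ℕ) : ℤ) := by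
  classical
  rw [coeff_mul_range]
  have h1 : ∑ i ∈ range (k + 1), A.coeff i * B.coeff (k - i) =
      ∑ i ∈ (range (k + 1)).filter (fun i => i ≤ L), A.coeff i * B.coeff (k - i) := by
    symm
    refine sum_filter_of_ne fun i _ h => ?_
    by_contra hi
    apply h
    rw [coeff_eq_zero_of_natDegree_lt (lt_of_le_of_lt hL (not_le.1 hi)), zero_mul]
  rw [h1]
  refine (abs_sum_le_sum_abs _ _).trans ?_
  have h2 : ∀ i ∈ (range (k + 1)).filter (fun i => i ≤ L),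
      |A.coeff i * B.coeff (k - i)| ≤ ((Y * M : ℕ) : ℤ) := by
    intro i _
    rw [abs_mul, Nat.cast_mul]
    exact mul_le_mul (hA i) (hB _ (Nat.sub_le _ _)) (abs_nonneg _) (Int.natCast_nonneg _)
  refine (sum_le_card_nsmul _ _ _ h2).trans ?_
  have h3 : ((range (k + 1)).filter (fun i => i ≤ L)).card ≤ L + 1 := by
    have h4 : (range (k + 1)).filter (fun i => i ≤ L) ⊆ range (L + 1) := by
      intro i hi
      exact mem_range.2 (Nat.lt_succ_of_le (mem_filter.1 hi).2)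
    have h5 := card_le_card h4
    rwa [card_range] at h5
  rw [nsmul_eq_mul, ← Nat.cast_mul]
  have h6 := Nat.mul_le_mul_right (Y * M) h3
  have h7 : (L + 1) * (Y * M) = (L + 1) * Y * M := by ring
  rw [h7] at h6
  exact_mod_cast h6

private theorem coeff_mul_le' (A B : ℤ[X]) (Y M k : ℕ) (hA : CB Y A)
    (hB : ∀ j ≤ k, |B.coeff j| ≤ (M : ℤ)) : |(A * B).coeff k| ≤ (((k + 1) * Y * M : ℕ) : ℤ) := by
  rw [coeff_mul_range]
  refine (abs_sum_le_sum_abs _ _).trans ?_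
  have h2 : ∀ i ∈ range (k + 1), |A.coeff i * B.coeff (k - i)| ≤ ((Y * M : ℕ) : ℤ) := by
    intro i _
    rw [abs_mul, Nat.cast_mul]
    exact mul_le_mul (hA i) (hB _ (Nat.sub_le _ _)) (abs_nonneg _) (Int.natCast_nonneg _)
  refine (sum_le_card_nsmul _ _ _ h2).trans ?_
  rw [card_range, nsmul_eq_mul, ← Nat.cast_mul]
  have h7 : (k + 1) * (Y * M) = (k + 1) * Y * M := by ring
  rw [h7]

theorem coeff_pow_le (V : ℤ[X]) (s : ℕ) (hV : CB s V) (i k : ℕ) :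
    |(V ^ i).coeff k| ≤ (((s * (k + 1)) ^ i : ℕ) : ℤ) := by
  induction i generalizing k with
  | zero =>
    rw [pow_zero, pow_zero, coeff_one]
    split_ifs <;> simp
  | succ i ih =>
    rw [pow_succ']
    have h1 : ∀ j ≤ k, |(V ^ i).coeff j| ≤ (((s * (k + 1)) ^ i : ℕ) : ℤ) := by
      intro j hj
      refine (ih j).trans ?_
      exact_mod_cast Nat.pow_le_pow_left (Nat.mul_le_mul_left s (Nat.succ_le_succ hj)) i
    refine (coeff_mul_le' V (V ^ i) s _ k hV h1).trans (le_of_eq ?_)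
    congr 1
    rw [pow_succ']
    ring

private theorem term_le (d L Y s : ℕ) (A : ℤ[X]) (V : ℤ[X]) (hA : A.natDegree ≤ L ∧ CB Y A)
    (hs : 1 ≤ s) (hV : CB s V) (k i : ℕ) (hi : i ≤ d) :
    |(A * V ^ i).coeff k| ≤ (((L + 1) * Y * (s ^ d * (k + 1) ^ d) : ℕ) : ℤ) := by
  refine coeff_mul_le A (V ^ i) L Y _ k hA.1 hA.2 fun j hj => ?_
  refine (coeff_pow_le V s hV i j).trans ?_
  rw [← mul_pow]
  have h1 : (s * (j + 1)) ^ i ≤ (s * (k + 1)) ^ i :=
    Nat.pow_le_pow_left (Nat.mul_le_mul_left s (Nat.succ_le_succ hj)) i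
  have h2 : (s * (k + 1)) ^ i ≤ (s * (k + 1)) ^ d :=
    Nat.pow_le_pow_right (Nat.mul_pos hs (Nat.succ_pos k)) hi
  exact_mod_cast h1.trans h2

theorem coeff_fm_le (d L Y s : ℕ) (A : ℕ → ℤ[X]) (V : ℤ[X])
    (hA : ∀ i, (A i).natDegree ≤ L ∧ CB Y (A i)) (hs : 1 ≤ s) (hV : CB s V) (k : ℕ) :
    |(fm d A V).coeff k| ≤ (((d + 1) * (L + 1) * Y * s ^ d * (k + 1) ^ d : ℕ) : ℤ) := by
  unfold fm
  rw [finsetSum_coeff]
  refine (abs_sum_le_sum_abs _ _).trans ?_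
  have h2 : ∀ i ∈ range (d + 1), |(A i * V ^ i).coeff k| ≤
      (((L + 1) * Y * (s ^ d * (k + 1) ^ d) : ℕ) : ℤ) := fun i hi =>
    term_le d L Y s (A i) V (hA i) hs hV k i (Nat.lt_succ_iff.1 (mem_range.1 hi))
  refine (sum_le_card_nsmul _ _ _ h2).trans (le_of_eq ?_)
  rw [card_range, nsmul_eq_mul, ← Nat.cast_mul]
  congr 1
  ring

theorem coeff_fmT_le (d L Y s : ℕ) (A : ℕ → ℤ[X]) (V : ℤ[X])
    (hA : ∀ i, (A i).natDegree ≤ L ∧ CB Y (A i)) (hs : 1 ≤ s) (hV : CB s V) (k : ℕ) :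
    |(fmT d A V).coeff k| ≤ (((d + 1) * d * (L + 1) * Y * s ^ d * (k + 1) ^ d : ℕ) : ℤ) := by
  unfold fmT
  rw [finsetSum_coeff]
  refine (abs_sum_le_sum_abs _ _).trans ?_
  have h2 : ∀ i ∈ range (d + 1), |((i : ℤ[X]) * A i * V ^ (i - 1)).coeff k| ≤
      ((d * ((L + 1) * Y * (s ^ d * (k + 1) ^ d)) : ℕ) : ℤ) := by
    intro i hi
    have hi' : i ≤ d := Nat.lt_succ_iff.1 (mem_range.1 hi)
    have h3 := term_le d L Y s (A i) V (hA i) hs hV k (i - 1) ((Nat.sub_le _ _).trans hi')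
    have h4 : ((i : ℤ[X]) * A i * V ^ (i - 1)).coeff k = (i : ℤ) * (A i * V ^ (i - 1)).coeff k := by
      rw [mul_assoc]
      exact coeff_natCast_mul
    rw [h4, abs_mul, Nat.cast_mul, Nat.abs_cast]
    exact mul_le_mul (by exact_mod_cast hi') h3 (abs_nonneg _) (Int.natCast_nonneg _)
  refine (sum_le_card_nsmul _ _ _ h2).trans (le_of_eq ?_)
  rw [card_range, nsmul_eq_mul, ← Nat.cast_mul]
  congr 1
  ring

end Pool.Agent.Helper9.DG
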