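import Pool.Agent.Helper9.DG.Dat
import Pool.Agent.Helper9.DG.PowC
import Pool.Agent.Helper9.DG.EvalTail
import Pool.Agent.Helper9.DG.GInt
import Pool.Agent.Helper9.DG.Perturb

/-!
PROJECT DG, module DG-24. The number `t` is a root of `GG`.

Notation: `N = d (2 l + 1) + l`, `L = 2 l = 16 w^2`, `G = GG b L d A`, `q = fm d A V`, `K₁ = (d + 1)(L + 1) Y w^d`. Suppose `aeval t G ≠ 0`. `Pool.Agent.Helper2.Digits.liouville` with `m = d`,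
`H = (L + 1) Y b^L` (`coeff_GG_le`, `natDegree_GG`): `1 ≤ |aeval t G| ((d + 1)(L + 1) Y b^L)^(d - 1) (mah F)^d`. By `aeval_GG`, `perturb` (`|t| ≤ 2`, as `|t - η| ≤ 1`), `eval_tail` (for `q`,
with `coeff_fm_le`): `|aeval t G| ≤ b^L (2 K₁ (N + 1)^d / b^N + 2 (d+1) d^2 2^d Y / b^(b-1)) ≤ b^L (2 K₁ (N + 1)^d + 1) / b^N` (`n7`: `2 (d+1) d^2 2^d Y ≤ b`, and `b^(b-1) ≥ b^(N+1)` by `n8`, `hNM`).
With `n3` and `hmah`: `1 ≤ b^L b^(-N) b b^(L (d - 1)) b^(2 w^2)`, i.e. `b^N ≤ b^(d L + 1 + 2 w^2)`; but `N = d L + d + 8 w^2 > d L + 1 + 2 w^2` and `b ≥ 2`: a contradiction.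
-/

set_option autoImplicit false

namespace Pool.Agent.Helper9.DG

open Polynomial Finset

theorem step1 {w b d l Y M K S κ : ℕ} (n : Num w b d l Y M K S κ) {F V : ℤ[X]} {t : ℝ}
    (D : Dat w b d F V t) (A : ℕ → ℤ[X]) (hA : ∀ i, (A i).natDegree ≤ 2 * l ∧ CB Y (A i))
    (hX : X ^ (d * (2 * l + 1) + l) ∣ fm d A V) : aeval t (GG b (2 * l) d A) = 0 := by
  by_contra hne
  have hd2 := n.d2
  have hw4 := n.w4
  have hb2 : 2 ≤ b := by have := n.n8; omega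
  have hb1 : 1 ≤ b := by omega
  have hbR : (2 : ℝ) ≤ (b : ℝ) := by exact_mod_cast hb2
  have hb0 : (0 : ℝ) < (b : ℝ) := by linarith
  have hb1R : (1 : ℝ) ≤ (b : ℝ) := by linarith
  obtain ⟨N, hN⟩ : ∃ N, N = d * (2 * l + 1) + l := ⟨_, rfl⟩
  obtain ⟨η, hη⟩ : ∃ η : ℝ, η = aeval (1 / (b : ℝ)) V := ⟨_, rfl⟩
  have hη1 : |η| ≤ 1 := by rw [hη]; exact D.hη
  have htη : |t - η| ≤ 1 / (b : ℝ) ^ (b - 1) := by rw [hη]; exact D.ht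
  have hpow1 : 1 / (b : ℝ) ^ (b - 1) ≤ 1 := by
    rw [div_le_one (by positivity)]
    exact one_le_pow₀ hb1R
  have ht2 : |t| ≤ 2 := by
    have h1 : |t| ≤ |t - η| + |η| := by
      have := abs_add_le (t - η) η
      simpa using this
    linarith
  -- the three estimates
  have hA2 : ∀ i, CB Y (A i) := fun i => (hA i).2
  have hA1 : ∀ i, (A i).natDegree ≤ 2 * l := fun i => (hA i).1
  have e1 := perturb d Y b A V hb2 hA2 t ht2 (by rw [← hη]; linarith)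
  rw [← hη] at e1
  obtain ⟨K₁, hK₁⟩ : ∃ K₁, K₁ = (d + 1) * (2 * l + 1) * Y * w ^ d := ⟨_, rfl⟩
  have e2 := eval_tail (fm d A V) K₁ d N b n.n9 (by rw [hN]; exact hX) (by
    intro k
    rw [hK₁]
    exact coeff_fm_le d (2 * l) Y w A V hA (by omega) D.hV k)
  have e3 := Helper2.Digits.liouville D.hF D.hFt (natDegree_GG b (2 * l) d A) hne
    (coeff_GG_le b (2 * l) d Y A hb1 hA)
  rw [D.hFd] at e3
  have e4 := aeval_GG b (2 * l) d A hb1 hA1 t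
  obtain ⟨T₀, hT⟩ : ∃ T₀ : ℝ, T₀ = ∑ i ∈ range (d + 1), aeval (1 / (b : ℝ)) (A i) * t ^ i := ⟨_, rfl⟩
  rw [← hT] at e1 e4
  -- the perturbation
  have hNb : N + 1 ≤ b - 1 := by
    have h1 := n.n8
    have h2 := n.hNM
    omega
  have f1 : 2 * ((d : ℝ) + 1) * d ^ 2 * 2 ^ d * Y * |t - η| ≤ 1 / (b : ℝ) ^ N := by
    have h1 : 2 * ((d : ℝ) + 1) * d ^ 2 * 2 ^ d * Y ≤ b := by
      have h2 : 8 * ((d + 1) * d ^ 2 * 2 ^ d * Y) ≤ b := n.n7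
      have h3 : (8 : ℝ) * (((d : ℝ) + 1) * d ^ 2 * 2 ^ d * Y) ≤ b := by exact_mod_cast h2
      have h4 : (0 : ℝ) ≤ ((d : ℝ) + 1) * d ^ 2 * 2 ^ d * Y := by positivity
      linarith
    have h5 : (b : ℝ) ^ (N + 1) ≤ (b : ℝ) ^ (b - 1) := pow_le_pow_right₀ hb1R hNb
    calc 2 * ((d : ℝ) + 1) * d ^ 2 * 2 ^ d * Y * |t - η| ≤ b * (1 / (b : ℝ) ^ (b - 1)) := by
          gcongr
      _ ≤ b * (1 / (b : ℝ) ^ (N + 1)) := by gcongr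
      _ = 1 / (b : ℝ) ^ N := by
          rw [pow_succ]
          field_simp
  have f2 : |T₀| ≤ (2 * K₁ * ((N : ℝ) + 1) ^ d + 1) / (b : ℝ) ^ N := by
    have h1 : |T₀| ≤ |T₀ - aeval (1 / (b : ℝ)) (fm d A V)| + |aeval (1 / (b : ℝ)) (fm d A V)| := by
      have := abs_add_le (T₀ - aeval (1 / (b : ℝ)) (fm d A V)) (aeval (1 / (b : ℝ)) (fm d A V))
      simpa using this
    calc |T₀| ≤ 1 / (b : ℝ) ^ N + 2 * K₁ * ((N : ℝ) + 1) ^ d / (b : ℝ) ^ N := by linarith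
      _ = (2 * K₁ * ((N : ℝ) + 1) ^ d + 1) / (b : ℝ) ^ N := by ring
  have f3 : (2 * (K₁ : ℝ) * ((N : ℝ) + 1) ^ d + 1) * (((d : ℝ) + 1) * ((2 * (l : ℝ) + 1) * Y)) ^ (d - 1) ≤ b := by
    have h := n.n3
    rw [← hK₁, ← hN] at h
    exact_mod_cast h
  have f4 : Helper2.Digits.mah F ^ d ≤ (b : ℝ) ^ (2 * w ^ 2) := D.hmah
  -- assembly
  have hm0 : 0 ≤ Helper2.Digits.mah F ^ d := by
    by_contra hneg
    push Not at hneg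
    have h0 : (0 : ℝ) ≤ ((d : ℝ) + 1) * ((((2 * l : ℕ) : ℝ) + 1) * Y * (b : ℝ) ^ (2 * l)) := by positivity
    have h1 : (((d : ℝ) + 1) * ((((2 * l : ℕ) : ℝ) + 1) * Y * (b : ℝ) ^ (2 * l))) ^ (d - 1) *
        Helper2.Digits.mah F ^ d ≤ 0 := mul_nonpos_of_nonneg_of_nonpos (pow_nonneg h0 _) hneg.le
    have h2 := mul_nonpos_of_nonneg_of_nonpos (abs_nonneg (aeval t (GG b (2 * l) d A))) h1
    linarith
  have g1 : |aeval t (GG b (2 * l) d A)| = (b : ℝ) ^ (2 * l) * |T₀| := by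
    rw [e4, abs_mul, abs_of_nonneg (by positivity)]
  rw [g1] at e3
  have g2 : (((d : ℝ) + 1) * ((((2 * l : ℕ) : ℝ) + 1) * Y * (b : ℝ) ^ (2 * l))) ^ (d - 1) =
      (((d : ℝ) + 1) * ((2 * (l : ℝ) + 1) * Y)) ^ (d - 1) * ((b : ℝ) ^ (2 * l)) ^ (d - 1) := by
    rw [← mul_pow]
    push_cast
    ring
  rw [g2] at e3
  have g3 : (1 : ℝ) ≤ (b : ℝ) ^ (2 * l) * ((2 * K₁ * ((N : ℝ) + 1) ^ d + 1) / (b : ℝ) ^ N) *
      ((((d : ℝ) + 1) * ((2 * (l : ℝ) + 1) * Y)) ^ (d - 1) * ((b : ℝ) ^ (2 * l)) ^ (d - 1) * (b : ℝ) ^ (2 * w ^ 2)) := by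
    refine e3.trans ?_
    gcongr
  have g4 : (b : ℝ) ^ N ≤ (b : ℝ) ^ (1 + d * (2 * l) + 2 * w ^ 2) := by
    have h1 : (b : ℝ) ^ (2 * l) * ((2 * K₁ * ((N : ℝ) + 1) ^ d + 1) / (b : ℝ) ^ N) *
      ((((d : ℝ) + 1) * ((2 * (l : ℝ) + 1) * Y)) ^ (d - 1) * ((b : ℝ) ^ (2 * l)) ^ (d - 1) * (b : ℝ) ^ (2 * w ^ 2)) =
      ((2 * K₁ * ((N : ℝ) + 1) ^ d + 1) * (((d : ℝ) + 1) * ((2 * (l : ℝ) + 1) * Y)) ^ (d - 1)) *
        (((b : ℝ) ^ (2 * l)) ^ (d - 1 + 1) * (b : ℝ) ^ (2 * w ^ 2)) / (b : ℝ) ^ N := by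
      rw [pow_succ ((b : ℝ) ^ (2 * l))]
      ring
    rw [h1, le_div_iff₀ (by positivity), one_mul] at g3
    refine g3.trans ?_
    calc _ ≤ (b : ℝ) * (((b : ℝ) ^ (2 * l)) ^ (d - 1 + 1) * (b : ℝ) ^ (2 * w ^ 2)) := by gcongr
      _ = (b : ℝ) ^ (1 + d * (2 * l) + 2 * w ^ 2) := by
        rw [show d - 1 + 1 = d by omega, pow_add, pow_add, pow_one, ← pow_mul, mul_comm (2 * l) d]
        ring
  have g5 : N ≤ 1 + d * (2 * l) + 2 * w ^ 2 := by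
    by_contra hlt
    push Not at hlt
    have := pow_lt_pow_right₀ (by linarith : (1 : ℝ) < (b : ℝ)) hlt
    linarith
  have h8 := n.hl
  have hw2 : 16 ≤ w ^ 2 := by nlinarith
  have h9 : N = d * (2 * l) + d + 8 * w ^ 2 := by
    rw [hN]
    nth_rewrite 2 [h8]
    ring
  omega

end Pool.Agent.Helper9.DG
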