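import Mathlib

/-!
PROJECT DG (MP_1f559e_nt): digits of algebraic numbers in large bases, effective form.
Definitions. DONE.
-/

set_option autoImplicit false

namespace Pool.Agent.Helper9.DG

open Polynomial Finset

/-- All coefficients are at most `B` in absolute value. -/
def CB (B : ℕ) (p : ℤ[X]) : Prop := ∀ n, |p.coeff n| ≤ (B : ℤ)

/-- The form `∑ A_i V ^ i`. -/
noncomputable def fm (d : ℕ) (A : ℕ → ℤ[X]) (V : ℤ[X]) : ℤ[X] := ∑ i ∈ range (d + 1), A i * V ^ i

/-- The derivative `∑ i A_i V ^ (i - 1)` of the form. -/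
noncomputable def fmT (d : ℕ) (A : ℕ → ℤ[X]) (V : ℤ[X]) : ℤ[X] :=
  ∑ i ∈ range (d + 1), (i : ℤ[X]) * A i * V ^ (i - 1)

/-- The polynomial `b ^ L ∑ A_i (1 / b) T ^ i`. -/
noncomputable def GG (b L d : ℕ) (A : ℕ → ℤ[X]) : ℤ[X] :=
  ∑ i ∈ range (d + 1), C (∑ j ∈ range (L + 1), (A i).coeff j * (b : ℤ) ^ (L - j)) * X ^ i

/-- The monic polynomial `T ^ d + ∑_{i < d} A_i A_d ^ (d - 1 - i) T ^ i`. -/
noncomputable def mon (d : ℕ) (A : ℕ → ℤ[X]) : ℤ[X][X] :=
  X ^ d + ∑ i ∈ range d, C (A i * A d ^ (d - 1 - i)) * X ^ i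

/-- Bounds for the two degrees of a polynomial in two variables. -/
def BB (t x : ℕ) (f : ℤ[X][X]) : Prop := f.natDegree ≤ t ∧ ∀ i, (f.coeff i).natDegree ≤ x

/-- The derivative of the coefficients. -/
noncomputable def dX (f : ℤ[X][X]) : ℤ[X][X] := f.sum fun i a => monomial i (derivative a)

/-- The numerators of the derivatives of an algebraic function. -/
noncomputable def QQ (f : ℤ[X][X]) : ℕ → ℤ[X][X]
  | 0 => 0
  | 1 => -dX f
  | (k + 2) => derivative f ^ 2 * dX (QQ f (k + 1)) - derivative f * dX f * derivative (QQ f (k + 1))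
      - ((2 * (k + 1) - 1 : ℤ) : ℤ[X][X]) *
        (dX (derivative f) * derivative f - derivative (derivative f) * dX f) * QQ f (k + 1)

/-- The polynomials of the linear relation. -/
noncomputable def WW (f : ℤ[X][X]) (d k : ℕ) : ℤ[X][X] :=
  if k = 0 then X * derivative f ^ (2 * d - 1) else QQ f k * derivative f ^ (2 * (d - k))

end Pool.Agent.Helper9.DG
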