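import Pool.Agent.Helper2.Digits.Main
import Pool.Agent.Helper9.DG.Defs

/-!
PROJECT DG, module DG-07. An integer polynomial vanishing at a root of an irreducible one has at least its degree.

`Pool.Agent.Helper2.Digits.map_dvd_of_aeval` applied to `U.map (Int.castRingHom ℚ)`: `F.map ∣ U.map`, `U.map ≠ 0`, `natDegree_le_of_dvd`, `natDegree_map_eq_of_injective`.
-/

set_option autoImplicit false

namespace Pool.Agent.Helper9.DG

open Polynomial Finset

theorem natDegree_le_of_root {F U : ℤ[X]} (hF : Irreducible F) {η : ℝ} (hη : aeval η F = 0)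
    (hU : U ≠ 0) (hUη : aeval η U = 0) : F.natDegree ≤ U.natDegree := by
  have hinj : Function.Injective (Int.castRingHom ℚ) := (Int.castRingHom ℚ).injective_int
  have h1 : aeval η (U.map (Int.castRingHom ℚ)) = 0 := by
    rw [← hUη]
    exact aeval_map_algebraMap ℚ η U
  have h2 := Pool.Agent.Helper2.Digits.map_dvd_of_aeval hF hη h1
  have h3 : U.map (Int.castRingHom ℚ) ≠ 0 := by
    rwa [Ne, Polynomial.map_eq_zero_iff hinj]
  have h4 := natDegree_le_of_dvd h2 h3
  rwa [natDegree_map_eq_of_injective hinj, natDegree_map_eq_of_injective hinj] at h4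

end Pool.Agent.Helper9.DG
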