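import Pool.Agent.Helper9.DG.Dat
import Pool.Agent.Helper9.DG.EvalTail
import Pool.Agent.Helper9.DG.GInt
import Pool.Agent.Helper9.DG.SmallDeg

/-!
PROJECT DG, module DG-25. The polynomial `GG` has degree exactly `d`.

Some `A_i ≠ 0` (`i ≤ d`), so `aeval (1/b) (A i) ≠ 0` (`eval_ne_zero`, `n2`) and the coefficient `i` of `G = GG b (2 l) d A` is not `0` (`coeff_GG_eq`): `G ≠ 0`. `natDegree_le_of_root` with `aeval t G = 0`:
`d ≤ natDegree G ≤ d` (`natDegree_GG`). So the coefficient `d` of `G` is not `0`, and `aeval (1/b) (A d) ≠ 0` (`coeff_GG_eq`).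
-/

set_option autoImplicit false

namespace Pool.Agent.Helper9.DG

open Polynomial Finset

theorem step2 {w b d l Y M K S κ : ℕ} (n : Num w b d l Y M K S κ) {F V : ℤ[X]} {t : ℝ}
    (D : Dat w b d F V t) (A : ℕ → ℤ[X]) (hA : ∀ i, (A i).natDegree ≤ 2 * l ∧ CB Y (A i))
    (hne : ∃ i ≤ d, A i ≠ 0) (h0 : aeval t (GG b (2 * l) d A) = 0) :
    aeval (1 / (b : ℝ)) (A d) ≠ 0 ∧ (GG b (2 * l) d A).natDegree = d := by
  have hYb : Y < b := by
    have h1 := n.n2
    have h2 := n.Y1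
    omega
  have hb1 : 1 ≤ b := by omega
  have hb0 : (0 : ℝ) < b := by exact_mod_cast hb1
  obtain ⟨i, hi, hAi⟩ := hne
  have hG0 : GG b (2 * l) d A ≠ 0 := by
    intro h
    have h1 := coeff_GG_eq b (2 * l) d A hb1 (fun j => (hA j).1) i hi
    rw [h, coeff_zero, Int.cast_zero] at h1
    have h2 := eval_ne_zero (A i) Y b hAi (hA i).2 hYb
    exact (mul_ne_zero (pow_pos hb0 _).ne' h2) h1.symm
  have h1 := natDegree_le_of_root D.hF D.hFt hG0 h0
  rw [D.hFd] at h1
  have h2 : (GG b (2 * l) d A).natDegree = d := le_antisymm (natDegree_GG b (2 * l) d A) h1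
  refine ⟨?_, h2⟩
  intro h3
  have h4 := coeff_GG_eq b (2 * l) d A hb1 (fun j => (hA j).1) d le_rfl
  rw [h3, mul_zero] at h4
  have h5 : (GG b (2 * l) d A).coeff d = 0 := by exact_mod_cast h4
  have h6 : (GG b (2 * l) d A).leadingCoeff = 0 := by
    rw [leadingCoeff, h2, h5]
  exact hG0 (leadingCoeff_eq_zero.1 h6)

end Pool.Agent.Helper9.DG
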