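import Pool.Agent.Helper9.DG.Dat
import Pool.Agent.Helper9.DG.PowC
import Pool.Agent.Helper9.DG.Carry
import Pool.Agent.Helper9.DG.GInt
import Pool.Agent.Helper9.DG.Perturb

/-!
PROJECT DG, module DG-26. The form vanishes to the order `M`.

`aeval t G = 0` and `b ≥ 1` give `∑ aeval (1/b) (A i) t^i = 0` (`aeval_GG`), so `perturb` (`|t| ≤ 2`, as `|t - η| ≤ 1`) gives `|aeval (1/b) (fm d A V)| ≤ 2 (d+1) d^2 2^d Y / b^(b-1)`
`≤ 1 / (4 b^M)` (`n7`: `8 (d+1) d^2 2^d Y ≤ b`, and `b^(b-1) ≥ b^(M+1)` by `n8`). `carry` with `K = (d + 1)(2 l + 1) Y w^d` (`coeff_fm_le`), `n5`, `n9`.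
-/

set_option autoImplicit false

namespace Pool.Agent.Helper9.DG

open Polynomial Finset

theorem step3 {w b d l Y M K S κ : ℕ} (n : Num w b d l Y M K S κ) {F V : ℤ[X]} {t : ℝ}
    (D : Dat w b d F V t) (A : ℕ → ℤ[X]) (hA : ∀ i, (A i).natDegree ≤ 2 * l ∧ CB Y (A i))
    (h0 : aeval t (GG b (2 * l) d A) = 0) : X ^ M ∣ fm d A V := by
  have hb8 := n.n8
  have hb1 : 1 ≤ b := by omega
  have hb2 : 2 ≤ b := by omega
  have hbR : (2 : ℝ) ≤ b := by exact_mod_cast hb2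
  have hbpos : (0 : ℝ) < b := by linarith
  have hsum : ∑ i ∈ range (d + 1), aeval (1 / (b : ℝ)) (A i) * t ^ i = 0 := by
    have h := aeval_GG b (2 * l) d A hb1 (fun i => (hA i).1) t
    rw [h0] at h
    exact (mul_eq_zero.1 h.symm).resolve_left (pow_ne_zero _ hbpos.ne')
  have hpow1 : (1 : ℝ) / (b : ℝ) ^ (b - 1) ≤ 1 := by
    rw [div_le_one (by positivity)]
    exact one_le_pow₀ (by linarith)
  have ht2 : |t| ≤ 2 := by
    have h1 := D.ht.trans hpow1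
    have h2 := D.hη
    have h3 : t = (t - aeval (1 / (b : ℝ)) V) + aeval (1 / (b : ℝ)) V := by ring
    rw [h3]
    exact (abs_add_le _ _).trans (by linarith)
  have hp := perturb d Y b A V hb2 (fun i => (hA i).2) t ht2 (D.hη.trans (by norm_num))
  rw [hsum, zero_sub, abs_neg] at hp
  have hq : |aeval (1 / (b : ℝ)) (fm d A V)| ≤ 1 / (4 * (b : ℝ) ^ M) := by
    refine hp.trans ?_
    have h7 : (8 : ℝ) * (((d : ℝ) + 1) * d ^ 2 * 2 ^ d * Y) ≤ b := by exact_mod_cast n.n7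
    have h8 : 2 * ((d : ℝ) + 1) * d ^ 2 * 2 ^ d * Y * |t - aeval (1 / (b : ℝ)) V| ≤
        (b / 4) * (1 / (b : ℝ) ^ (b - 1)) := by
      apply mul_le_mul _ D.ht (abs_nonneg _) (by positivity)
      linarith
    refine h8.trans ?_
    have h9 : (b : ℝ) ^ (M + 1) ≤ (b : ℝ) ^ (b - 1) :=
      pow_le_pow_right₀ (by linarith) (by omega)
    rw [pow_succ] at h9
    rw [div_mul_div_comm, mul_one, div_le_div_iff₀ (by positivity) (by positivity)]
    have h10 : (b : ℝ) * (4 * (b : ℝ) ^ M) = 4 * ((b : ℝ) ^ M * b) := by ring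
    rw [h10]
    linarith
  have hw : 1 ≤ w := by have := n.w4; omega
  exact carry (fm d A V) ((d + 1) * (2 * l + 1) * Y * w ^ d) d M b n.n9
    (coeff_fm_le d (2 * l) Y w A V hA hw D.hV) n.n5 hq

end Pool.Agent.Helper9.DG
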