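import Pool.Agent.Helper9.DG.Dat
import Pool.Agent.Helper9.DG.PowC
import Pool.Agent.Helper9.DG.EvalTail
import Pool.Agent.Helper9.DG.GInt
import Pool.Agent.Helper9.DG.Perturb
import Pool.Agent.Helper9.DG.SmallDeg

/-!
PROJECT DG, module DG-27. The derivative form does not vanish to the order `ρ = (d + 1) 2 l`.

`L = 2 l = 16 w^2`. `G' = derivative (GG b L d A)` has degree `< d` and is not `0` (`natDegree G = d ≥ 2`, characteristic `0`), so `aeval t G' ≠ 0` (`natDegree_le_of_root`). Suppose `X^ρ ∣ fmT d A V`.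
`aeval_derivative_GG`, `perturb_T`, `eval_tail` (with `coeff_fmT_le`, `K₂ = (d + 1) d (L + 1) Y w^d`): `|aeval t G'| ≤ b^L (2 K₂ (ρ + 1)^d / b^ρ + 2 (d+1) d^2 2^d Y / b^(b-1))`
`≤ b^L (2 K₂ (ρ + 1)^d + 1) / b^ρ` (`n7`, `n8`, `hρM`: `b^(b-1) ≥ b^(ρ+1)`). The coefficients of `G'` are at most `d (L + 1) Y b^L` (`coeff_derivative`, `coeff_GG_le`; those of index `≥ d` are `0`).
`Pool.Agent.Helper2.Digits.liouville` with `m = d`, `H = d (L + 1) Y b^L`: `1 ≤ |aeval t G'| ((d + 1) d (L + 1) Y b^L)^(d-1) (mah F)^d`; with `n4` and `hmah`: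
`b^ρ ≤ b^L b b^(L (d - 1)) b^(2 w^2) = b^(d L + 1 + 2 w^2)`, but `ρ = d L + 16 w^2`: a contradiction (`b ≥ 2`).
-/

set_option autoImplicit false

namespace Pool.Agent.Helper9.DG

open Polynomial Finset

theorem step4 {w b d l Y M K S κ : ℕ} (n : Num w b d l Y M K S κ) {F V : ℤ[X]} {t : ℝ}
    (D : Dat w b d F V t) (A : ℕ → ℤ[X]) (hA : ∀ i, (A i).natDegree ≤ 2 * l ∧ CB Y (A i))
    (hG : (GG b (2 * l) d A).natDegree = d) : ¬ X ^ ((d + 1) * (2 * l)) ∣ fmT d A V := by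
  intro hdvd
  have hl := n.hl
  have hw4 := n.w4
  have hd2 := n.d2
  have hY1 := n.Y1
  have hb2 : 2 ≤ b := by
    have := n.n2
    omega
  have hb1 : 1 ≤ b := by omega
  have hbR : (2 : ℝ) ≤ (b : ℝ) := by exact_mod_cast hb2
  have hb0 : (0 : ℝ) < (b : ℝ) := by linarith
  set ρ : ℕ := (d + 1) * (2 * l) with hρ
  have hρM : ρ ≤ M := n.hρM
  have hMb : M + 2 ≤ b := n.n8
  set G : ℤ[X] := GG b (2 * l) d A with hGdef
  set η : ℝ := aeval (1 / (b : ℝ)) V with hη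
  -- the derivative
  have hGd : G.natDegree ≠ 0 := by
    rw [hG]
    omega
  have hG'0 : derivative G ≠ 0 := fun h0 => hGd (derivative_eq_zero.1 h0)
  have hG'd : (derivative G).natDegree < d := by
    have := natDegree_derivative_lt hGd
    rwa [hG] at this
  have hGt : aeval t (derivative G) ≠ 0 := by
    intro h0
    have h1 := natDegree_le_of_root D.hF D.hFt hG'0 h0
    rw [D.hFd] at h1
    omega
  -- bounds for `t` and `η`
  have hη1 : |η| ≤ 1 := D.hη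
  have htη : |t - η| ≤ 1 / (b : ℝ) ^ (b - 1) := D.ht
  have hpow1 : (1 : ℝ) ≤ (b : ℝ) ^ (b - 1) := one_le_pow₀ (by linarith)
  have htη1 : |t - η| ≤ 1 := htη.trans (by
    rw [div_le_one (by positivity)]
    exact hpow1)
  have ht2 : |t| ≤ 2 := by
    have h1 : |t| ≤ |t - η| + |η| := by
      have := abs_add_le (t - η) η
      rwa [sub_add_cancel] at this
    linarith
  -- the tail
  have hVw : CB w V := D.hV
  have htail := eval_tail (fmT d A V) ((d + 1) * d * (2 * l + 1) * Y * w ^ d) d ρ b n.n9 hdvd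
    (fun k => coeff_fmT_le d (2 * l) Y w A V hA (by omega) hVw k)
  have hpert := perturb_T d Y b A V hb2 (fun i => (hA i).2) t ht2 (by
    show |η| ≤ 2
    linarith)
  have haev := aeval_derivative_GG b (2 * l) d A hb1 (fun i => (hA i).1) t
  set S' : ℝ := ∑ i ∈ range (d + 1), (i : ℝ) * aeval (1 / (b : ℝ)) (A i) * t ^ (i - 1) with hS'
  set q : ℝ := aeval (1 / (b : ℝ)) (fmT d A V) with hq
  set K₂ : ℕ := (d + 1) * d * (2 * l + 1) * Y * w ^ d with hK₂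
  have hsecond : 2 * ((d : ℝ) + 1) * d ^ 2 * 2 ^ d * Y * |t - η| ≤ 1 / (b : ℝ) ^ ρ := by
    have h7 : (8 : ℝ) * (((d : ℝ) + 1) * d ^ 2 * 2 ^ d * Y) ≤ (b : ℝ) := by
      have := n.n7
      exact_mod_cast this
    have h8 : 2 * ((d : ℝ) + 1) * d ^ 2 * 2 ^ d * Y ≤ (b : ℝ) := by
      have h9 : (0 : ℝ) ≤ ((d : ℝ) + 1) * d ^ 2 * 2 ^ d * Y := by positivity
      nlinarith
    have h10 : (b : ℝ) ^ (ρ + 1) ≤ (b : ℝ) ^ (b - 1) := pow_le_pow_right₀ (by linarith) (by omega)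
    have h11 : |t - η| ≤ 1 / (b : ℝ) ^ (ρ + 1) := htη.trans
      (one_div_le_one_div_of_le (by positivity) h10)
    calc 2 * ((d : ℝ) + 1) * d ^ 2 * 2 ^ d * Y * |t - η| ≤ (b : ℝ) * (1 / (b : ℝ) ^ (ρ + 1)) :=
          mul_le_mul h8 h11 (abs_nonneg _) hb0.le
      _ = 1 / (b : ℝ) ^ ρ := by
          rw [pow_succ]
          field_simp
  have hS'le : |S'| ≤ (2 * K₂ * ((ρ : ℝ) + 1) ^ d + 1) / (b : ℝ) ^ ρ := by
    have h1 : |S'| ≤ |S' - q| + |q| := by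
      have := abs_add_le (S' - q) q
      rwa [sub_add_cancel] at this
    have h2 : (2 * K₂ * ((ρ : ℝ) + 1) ^ d + 1) / (b : ℝ) ^ ρ =
        2 * K₂ * ((ρ : ℝ) + 1) ^ d / (b : ℝ) ^ ρ + 1 / (b : ℝ) ^ ρ := add_div _ _ _
    rw [h2]
    linarith [hpert.trans hsecond]
  -- coefficients of the derivative
  have hH : ∀ i, |((derivative G).coeff i : ℝ)| ≤
      (d : ℝ) * ((((2 * l : ℕ) : ℝ) + 1) * Y * (b : ℝ) ^ (2 * l)) := by
    intro i
    have hB0 : (0 : ℝ) ≤ (((2 * l : ℕ) : ℝ) + 1) * Y * (b : ℝ) ^ (2 * l) := by positivity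
    rw [coeff_derivative]
    rcases Nat.lt_or_ge d (i + 1) with h | h
    · have h1 : G.coeff (i + 1) = 0 := coeff_eq_zero_of_natDegree_lt (by rw [hG]; exact h)
      rw [h1]
      simp only [zero_mul, Int.cast_zero, abs_zero]
      positivity
    · have h1 := coeff_GG_le b (2 * l) d Y A hb1 hA (i + 1)
      rw [← hGdef] at h1
      have h2 : ((G.coeff (i + 1) * ((i : ℤ) + 1) : ℤ) : ℝ) =
          ((G.coeff (i + 1) : ℤ) : ℝ) * ((i : ℝ) + 1) := by push_cast; ring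
      rw [h2, abs_mul, mul_comm]
      have h3 : |(i : ℝ) + 1| ≤ (d : ℝ) := by
        rw [abs_of_nonneg (by positivity)]
        exact_mod_cast h
      exact mul_le_mul h3 h1 (abs_nonneg _) (by positivity)
  have hliou := Helper2.Digits.liouville D.hF D.hFt (m := d) hG'd.le hGt hH
  rw [D.hFd] at hliou
  -- assemble
  have hmah := D.hmah
  have hmah0 : 0 ≤ Helper2.Digits.mah F ^ d := by
    by_contra hneg
    push Not at hneg
    have h1 : |aeval t (derivative G)| * ((((d : ℝ) + 1) * ((d : ℝ) * ((((2 * l : ℕ) : ℝ) + 1) * Y *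
        (b : ℝ) ^ (2 * l)))) ^ (d - 1) * Helper2.Digits.mah F ^ d) ≤ 0 := by
      refine mul_nonpos_of_nonneg_of_nonpos (abs_nonneg _)
        (mul_nonpos_of_nonneg_of_nonpos (by positivity) hneg.le)
    linarith
  have h4 : (2 * (K₂ : ℝ) * ((ρ : ℝ) + 1) ^ d + 1) *
      (((d : ℝ) + 1) * ((d : ℝ) * ((((2 * l : ℕ) : ℝ) + 1) * Y))) ^ (d - 1) ≤ (b : ℝ) := by
    have := n.n4
    rw [← hK₂, ← hρ] at this
    exact_mod_cast this
  have hfac : (((d : ℝ) + 1) * ((d : ℝ) * ((((2 * l : ℕ) : ℝ) + 1) * Y * (b : ℝ) ^ (2 * l)))) ^ (d - 1)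
      = (((d : ℝ) + 1) * ((d : ℝ) * ((((2 * l : ℕ) : ℝ) + 1) * Y))) ^ (d - 1) *
        (b : ℝ) ^ (2 * l * (d - 1)) := by
    rw [pow_mul (b : ℝ) (2 * l) (d - 1), ← mul_pow]
    congr 1
    ring
  have hfinal : (b : ℝ) ^ ρ ≤ (b : ℝ) ^ (2 * l + 1 + 2 * l * (d - 1) + 2 * w ^ 2) := by
    have h5 : |aeval t (derivative G)| ≤ (b : ℝ) ^ (2 * l) *
        ((2 * K₂ * ((ρ : ℝ) + 1) ^ d + 1) / (b : ℝ) ^ ρ) := by
      rw [haev, abs_mul, abs_of_nonneg (by positivity : (0 : ℝ) ≤ (b : ℝ) ^ (2 * l))]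
      exact mul_le_mul_of_nonneg_left hS'le (by positivity)
    have h6 : (1 : ℝ) ≤ (b : ℝ) ^ (2 * l) * ((2 * K₂ * ((ρ : ℝ) + 1) ^ d + 1) / (b : ℝ) ^ ρ) *
        ((((d : ℝ) + 1) * ((d : ℝ) * ((((2 * l : ℕ) : ℝ) + 1) * Y))) ^ (d - 1) *
        (b : ℝ) ^ (2 * l * (d - 1)) * (b : ℝ) ^ (2 * w ^ 2)) := by
      rw [hfac] at hliou
      refine hliou.trans ?_
      refine mul_le_mul h5 ?_ (by positivity) (by positivity)
      exact mul_le_mul_of_nonneg_left hmah (by positivity)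
    have h7 : (b : ℝ) ^ ρ ≤ (b : ℝ) ^ (2 * l) * ((2 * (K₂ : ℝ) * ((ρ : ℝ) + 1) ^ d + 1) *
        (((d : ℝ) + 1) * ((d : ℝ) * ((((2 * l : ℕ) : ℝ) + 1) * Y))) ^ (d - 1)) *
        (b : ℝ) ^ (2 * l * (d - 1)) * (b : ℝ) ^ (2 * w ^ 2) := by
      have hρ0 : (0 : ℝ) < (b : ℝ) ^ ρ := by positivity
      have h8 := mul_le_mul_of_nonneg_left h6 hρ0.le
      rw [mul_one] at h8
      refine h8.trans (le_of_eq ?_)
      field_simp
    refine h7.trans ?_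
    have h9 : (b : ℝ) ^ (2 * l + 1 + 2 * l * (d - 1) + 2 * w ^ 2) =
        (b : ℝ) ^ (2 * l) * (b : ℝ) * (b : ℝ) ^ (2 * l * (d - 1)) * (b : ℝ) ^ (2 * w ^ 2) := by
      rw [pow_add, pow_add, pow_succ]
    rw [h9]
    gcongr
  have hexp : ρ ≤ 2 * l + 1 + 2 * l * (d - 1) + 2 * w ^ 2 :=
    (pow_le_pow_iff_right₀ (by linarith : (1 : ℝ) < (b : ℝ))).1 hfinal
  obtain ⟨e, rfl⟩ : ∃ e, d = e + 1 := ⟨d - 1, by omega⟩
  rw [Nat.add_sub_cancel] at hexp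
  have hw2 : 16 ≤ w ^ 2 := by nlinarith
  have h10 : ρ = 2 * l * e + 2 * (2 * l) := by
    rw [hρ]
    ring
  rw [h10] at hexp
  have h11 : 2 * l = 16 * w ^ 2 := by omega
  omega

end Pool.Agent.Helper9.DG
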