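import Pool.Agent.Helper9.DG.Dat
import Pool.Agent.Helper9.DG.PowC
import Pool.Agent.Helper9.DG.EvalTail

/-!
PROJECT DG, module DG-28. The last step: a long gap is impossible.

`U = A_d V`, `U₁ = ∑_{n < h} monomial n (U.coeff n)`, `α = aeval (1/b) (A d) ≠ 0`, `β = aeval (1/b) U₁`, `K₃ = (2 l + 1) Y w`; `|U.coeff n| ≤ K₃` (`coeff_mul_le`). `X^((d+1) h) ∣ U - U₁`
(`X_pow_dvd_iff`: the coefficients of index `< h` cancel, those of index in `[h, (d+1) h)` are `0` by `hgap`). `a = b^h α` and `c = b^h β` are integers (`h ≥ κ ≥ 2 l ≥ natDegree (A d)`,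
`natDegree U₁ < h` or `U₁ = 0`): `a = ∑ (A d)_j b^(h - j)`, etc. `B = C a * X - C c` (degree `≤ 1`), `aeval t B = b^h (α t - β)`, not `0`: otherwise `t = c / a` is rational (`α ≠ 0`).
`|α t - β| ≤ |α| |t - η| + |aeval (1/b) (U - U₁)| ≤ 2 Y / b^(b-1) + 2 K₃ / b^((d+1) h)` (`abs_eval_le`, `eval_tail` with `d = 0`) `≤ (2 K₃ + 1) / b^((d+1) h)` (`n2`, and `(d+1) h ≤ K ≤ M ≤ b - 2`:
`b^(b-1) ≥ b b^((d+1)h)`). The coefficients of `B` are at most `H = 2 K₃ b^h` (`abs_eval_le`; `Y ≤ K₃`). `Pool.Agent.Helper2.Digits.liouville` with `m = 1`: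
`1 ≤ b^h (2 K₃ + 1) b^(-(d+1) h) (2 H)^(d-1) mah F`, `mah F ≤ (mah F)^d ≤ b^(2 w^2)` (`one_le_mah`), `(2 K₃ + 1)(4 K₃)^(d-1) ≤ (4 K₃)^d ≤ b` (`n6`), so `b^((d+1) h) ≤ b^(h + h (d-1) + 1 + 2 w^2)`,
`h ≤ 1 + 2 w^2`; but `h ≥ κ ≥ 2 l = 16 w^2`: a contradiction.
-/

set_option autoImplicit false

namespace Pool.Agent.Helper9.DG

open Polynomial Finset

private theorem s5_int (p : ℤ[X]) (h b : ℕ) (hb : 0 < b) (hp : p.natDegree ≤ h) :
    ∃ z : ℤ, (z : ℝ) = (b : ℝ) ^ h * aeval (1 / (b : ℝ)) p := by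
  have hb0 : (b : ℝ) ≠ 0 := by exact_mod_cast hb.ne'
  refine ⟨∑ j ∈ range (h + 1), p.coeff j * (b : ℤ) ^ (h - j), ?_⟩
  rw [aeval_eq_sum_range' (Nat.lt_succ_of_le hp), mul_sum]
  push_cast
  refine sum_congr rfl fun j hj => ?_
  obtain ⟨i, hi⟩ := Nat.exists_eq_add_of_le (Nat.lt_succ_iff.1 (mem_range.1 hj))
  rw [zsmul_eq_mul, hi, Nat.add_sub_cancel_left, pow_add, one_div, inv_pow]
  field_simp

private theorem s5_coeff (U : ℤ[X]) (h k : ℕ) :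
    (∑ n ∈ range h, monomial n (U.coeff n)).coeff k = if k < h then U.coeff k else 0 := by
  rw [finsetSum_coeff]
  simp only [coeff_monomial]
  rw [sum_ite_eq']
  simp only [mem_range]

theorem step5 {w b d l Y M K S κ : ℕ} (n : Num w b d l Y M K S κ) {F V : ℤ[X]} {t : ℝ}
    (D : Dat w b d F V t) (A : ℕ → ℤ[X]) (hA : ∀ i, (A i).natDegree ≤ 2 * l ∧ CB Y (A i))
    (hAd : aeval (1 / (b : ℝ)) (A d) ≠ 0) (h : ℕ) (hκ : κ ≤ h) (hK : (d + 1) * h ≤ K)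
    (hgap : ∀ n, h ≤ n → n < (d + 1) * h → (A d * V).coeff n = 0) : False := by
  have hb2 : 2 ≤ b := by have := n.n8; omega
  have hb0 : (0 : ℝ) < b := by exact_mod_cast (by omega : 0 < b)
  have hb1 : (1 : ℝ) < b := by exact_mod_cast (by omega : 1 < b)
  obtain ⟨U, hU⟩ : ∃ U : ℤ[X], U = A d * V := ⟨_, rfl⟩
  obtain ⟨U₁, hU₁⟩ : ∃ U₁ : ℤ[X], U₁ = ∑ n ∈ range h, monomial n (U.coeff n) := ⟨_, rfl⟩
  obtain ⟨k₃, hk₃⟩ : ∃ k₃ : ℕ, k₃ = (2 * l + 1) * Y * w := ⟨_, rfl⟩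
  rw [← hU] at hgap
  have hUc : ∀ k, |U.coeff k| ≤ ((k₃ : ℕ) : ℤ) := fun k => by
    rw [hU, hk₃]
    exact coeff_mul_le (A d) V (2 * l) Y w k (hA d).1 (hA d).2 fun j _ => D.hV j
  have hU₁c : ∀ k, U₁.coeff k = if k < h then U.coeff k else 0 := fun k => by
    rw [hU₁]
    exact s5_coeff U h k
  have hk1 : 1 ≤ k₃ := by
    rw [hk₃]
    have h1 := n.Y1
    have h2 := n.w4
    exact Nat.one_le_iff_ne_zero.2 (mul_ne_zero (mul_ne_zero (by omega) (by omega)) (by omega))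
  have hYk : Y ≤ k₃ := by
    rw [hk₃, mul_comm (2 * l + 1) Y, mul_assoc]
    exact Nat.le_mul_of_pos_right _ (mul_pos (by omega) (by have := n.w4; omega))
  have hCU₁ : CB k₃ U₁ := fun k => by
    rw [hU₁c]
    split_ifs
    · exact hUc k
    · rw [abs_zero]
      exact Int.natCast_nonneg _
  -- the tail
  have hdvd : X ^ ((d + 1) * h) ∣ U - U₁ := by
    rw [X_pow_dvd_iff]
    intro k hk
    rw [coeff_sub, hU₁c]
    split_ifs with h1
    · exact sub_self _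
    · rw [hgap k (not_lt.1 h1) hk, sub_zero]
  have htail := eval_tail (U - U₁) k₃ 0 ((d + 1) * h) b (by omega) hdvd (fun k => by
    rw [pow_zero, mul_one, coeff_sub, hU₁c]
    split_ifs
    · rw [sub_self, abs_zero]
      exact Int.natCast_nonneg _
    · rw [sub_zero]
      exact hUc k)
  rw [pow_zero, mul_one] at htail
  -- the integers
  obtain ⟨a, ha⟩ := s5_int (A d) h b (by omega) ((hA d).1.trans (n.hlκ.trans hκ))
  obtain ⟨c, hc⟩ := s5_int U₁ h b (by omega) (by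
    rw [natDegree_le_iff_coeff_eq_zero]
    intro k hk
    rw [hU₁c, if_neg (by omega)])
  obtain ⟨α, hα⟩ : ∃ α : ℝ, α = aeval (1 / (b : ℝ)) (A d) := ⟨_, rfl⟩
  obtain ⟨β, hβ⟩ : ∃ β : ℝ, β = aeval (1 / (b : ℝ)) U₁ := ⟨_, rfl⟩
  rw [← hα] at ha hAd
  rw [← hβ] at hc
  have hαb : |α| ≤ 2 * Y := by
    rw [hα]
    exact abs_eval_le _ _ _ (hA d).2 hb2
  have hβb : |β| ≤ 2 * k₃ := by
    rw [hβ]
    exact abs_eval_le _ _ _ hCU₁ hb2
  have ha0 : (a : ℝ) ≠ 0 := by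
    rw [ha]
    exact mul_ne_zero (pow_ne_zero _ hb0.ne') hAd
  have hB : aeval t (C a * X - C c) = (b : ℝ) ^ h * (α * t - β) := by
    rw [map_sub, map_mul, aeval_C, aeval_C, aeval_X]
    simp only [algebraMap_int_eq, eq_intCast]
    rw [ha, hc]
    ring
  have hB0 : aeval t (C a * X - C c) ≠ 0 := by
    intro h0
    rw [map_sub, map_mul, aeval_C, aeval_C, aeval_X] at h0
    simp only [algebraMap_int_eq, eq_intCast] at h0
    have h1 : t = (c : ℝ) / a := by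
      rw [eq_div_iff ha0]
      linarith
    refine D.hirr ⟨(c : ℚ) / a, ?_⟩
    rw [h1]
    push_cast
    rfl
  -- the bound
  have hN : (d + 1) * h ≤ b - 2 := by
    have h1 := n.hMK
    have h2 := n.n8
    omega
  have hbN : (0 : ℝ) < (b : ℝ) ^ ((d + 1) * h) := pow_pos hb0 _
  have hpow : (b : ℝ) * (b : ℝ) ^ ((d + 1) * h) ≤ (b : ℝ) ^ (b - 1) := by
    rw [← pow_succ']
    exact pow_le_pow_right₀ hb1.le (by omega)
  have hsmall : |α * t - β| ≤ (2 * k₃ + 1) / (b : ℝ) ^ ((d + 1) * h) := by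
    have h1 : α * t - β = α * (t - aeval (1 / (b : ℝ)) V) + aeval (1 / (b : ℝ)) (U - U₁) := by
      rw [map_sub, ← hβ, hU, map_mul, ← hα]
      ring
    have h2 : |α * (t - aeval (1 / (b : ℝ)) V)| ≤ 1 / (b : ℝ) ^ ((d + 1) * h) := by
      rw [abs_mul]
      have h3 : (2 : ℝ) * Y ≤ b := by exact_mod_cast n.n2.le
      calc |α| * |t - aeval (1 / (b : ℝ)) V| ≤ b * (1 / (b : ℝ) ^ (b - 1)) :=
            mul_le_mul (hαb.trans h3) D.ht (abs_nonneg _) hb0.le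
        _ = b / (b : ℝ) ^ (b - 1) := by ring
        _ ≤ 1 / (b : ℝ) ^ ((d + 1) * h) := by
            rw [div_le_div_iff₀ (pow_pos hb0 _) hbN, one_mul]
            exact hpow
    rw [h1]
    refine (abs_add_le _ _).trans ((add_le_add h2 htail).trans (le_of_eq ?_))
    ring
  have hBs : |aeval t (C a * X - C c)| ≤
      (b : ℝ) ^ h * ((2 * k₃ + 1) / (b : ℝ) ^ ((d + 1) * h)) := by
    rw [hB, abs_mul, abs_of_pos (pow_pos hb0 h)]
    exact mul_le_mul_of_nonneg_left hsmall (pow_pos hb0 h).le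
  have hdeg : (C a * X - C c : ℤ[X]).natDegree ≤ 1 := by
    rw [natDegree_le_iff_coeff_eq_zero]
    intro k hk
    rw [coeff_sub, coeff_C_mul, coeff_X, if_neg (by omega), coeff_C, if_neg (by omega)]
    simp
  have hkr : (1 : ℝ) ≤ k₃ := by exact_mod_cast hk1
  have hH : ∀ i, |((C a * X - C c : ℤ[X]).coeff i : ℝ)| ≤ 2 * k₃ * (b : ℝ) ^ h := by
    intro i
    have hpos : (0 : ℝ) ≤ 2 * k₃ * (b : ℝ) ^ h := by positivity
    have hac : |(a : ℝ)| ≤ 2 * k₃ * (b : ℝ) ^ h := by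
      rw [ha, abs_mul, abs_of_pos (pow_pos hb0 h), mul_comm]
      refine mul_le_mul_of_nonneg_right (hαb.trans ?_) (pow_pos hb0 h).le
      have : (Y : ℝ) ≤ k₃ := by exact_mod_cast hYk
      linarith
    have hcc : |(c : ℝ)| ≤ 2 * k₃ * (b : ℝ) ^ h := by
      rw [hc, abs_mul, abs_of_pos (pow_pos hb0 h), mul_comm]
      exact mul_le_mul_of_nonneg_right hβb (pow_pos hb0 h).le
    rw [coeff_sub, coeff_C_mul, coeff_X, coeff_C]
    rcases i with _ | _ | i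
    · simpa using hcc
    · simpa using hac
    · simpa using hpos
  have hL := Helper2.Digits.liouville D.hF D.hFt hdeg hB0 hH
  rw [D.hFd, pow_one] at hL
  have hmah : Helper2.Digits.mah F ≤ (b : ℝ) ^ (2 * w ^ 2) := by
    refine le_trans ?_ D.hmah
    exact le_self_pow₀ (Helper2.Digits.one_le_mah D.hF.ne_zero) (by have := n.d2; omega)
  have hm0 := Helper2.Digits.mah_nonneg F
  have h6 : (4 * (k₃ : ℝ)) ^ d ≤ b := by
    rw [hk₃]
    exact_mod_cast n.n6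
  -- the conclusion
  have hd1 : d = (d - 1) + 1 := by have := n.d2; omega
  have e1 : ((((1 : ℕ) : ℝ) + 1) * (2 * k₃ * (b : ℝ) ^ h)) ^ (d - 1) =
      (4 * (k₃ : ℝ)) ^ (d - 1) * (b : ℝ) ^ (h * (d - 1)) := by
    rw [pow_mul, ← mul_pow]
    congr 1
    push_cast
    ring
  have h7 : (2 * (k₃ : ℝ) + 1) * (4 * (k₃ : ℝ)) ^ (d - 1) ≤ b := by
    refine le_trans ?_ h6
    conv_rhs => rw [hd1, pow_succ']
    exact mul_le_mul_of_nonneg_right (by linarith) (by positivity)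
  have h8 : 1 ≤ (b : ℝ) ^ h * ((2 * k₃ + 1) / (b : ℝ) ^ ((d + 1) * h)) *
      ((4 * (k₃ : ℝ)) ^ (d - 1) * (b : ℝ) ^ (h * (d - 1)) * (b : ℝ) ^ (2 * w ^ 2)) := by
    rw [e1] at hL
    refine hL.trans ?_
    refine mul_le_mul hBs ?_ (by positivity) (by positivity)
    exact mul_le_mul_of_nonneg_left hmah (by positivity)
  have h9 : (b : ℝ) ^ ((d + 1) * h) ≤ (b : ℝ) ^ (h + 1 + h * (d - 1) + 2 * w ^ 2) := by
    have h10 : (b : ℝ) ^ h * ((2 * k₃ + 1) / (b : ℝ) ^ ((d + 1) * h)) *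
        ((4 * (k₃ : ℝ)) ^ (d - 1) * (b : ℝ) ^ (h * (d - 1)) * (b : ℝ) ^ (2 * w ^ 2)) =
        ((b : ℝ) ^ h * ((2 * (k₃ : ℝ) + 1) * (4 * (k₃ : ℝ)) ^ (d - 1)) *
          ((b : ℝ) ^ (h * (d - 1)) * (b : ℝ) ^ (2 * w ^ 2))) / (b : ℝ) ^ ((d + 1) * h) := by
      ring
    rw [h10, le_div_iff₀ hbN, one_mul] at h8
    refine h8.trans ?_
    rw [pow_add, pow_add, pow_add, pow_one, mul_assoc ((b : ℝ) ^ h * b)]
    exact mul_le_mul_of_nonneg_right (mul_le_mul_of_nonneg_left h7 (by positivity))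
      (by positivity)
  have h11 := (pow_le_pow_iff_right₀ hb1).1 h9
  have h12 : (d + 1) * h = h + h + h * (d - 1) := by
    conv_lhs => rw [hd1]
    ring
  rw [h12] at h11
  have h13 := n.hlκ
  have h14 := n.hl
  have h15 : 16 ≤ w ^ 2 := by
    have := Nat.pow_le_pow_left n.w4 2
    omega
  omega

end Pool.Agent.Helper9.DG
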