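import Pool.Agent.Helper9.DG.Siegel
import Pool.Agent.Helper9.DG.Fatou
import Pool.Agent.Helper9.DG.NumMain
import Pool.Agent.Helper9.DG.Step1
import Pool.Agent.Helper9.DG.Step2
import Pool.Agent.Helper9.DG.Step3
import Pool.Agent.Helper9.DG.Step4
import Pool.Agent.Helper9.DG.Step5

/-!
PROJECT DG. The main argument. (helper9)
-/

set_option autoImplicit false

namespace Pool.Agent.Helper9.DG

open Polynomial Finset

theorem core {w b d l Y M K S κ : ℕ} (n : Num w b d l Y M K S κ) {F V : ℤ[X]} {t : ℝ}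
    (D : Dat w b d F V t) : False := by
  have hw := n.w4
  have hd := n.d2
  have hl : 1 ≤ l := by
    rw [n.hl]
    have : 0 < w ^ 2 := by positivity
    omega
  obtain ⟨A, hA, hne, hX⟩ := exists_form d l w Y V (by omega) hl (by omega) D.hV n.n1
  have h0 := step1 n D A hA hX
  obtain ⟨hAd, hG⟩ := step2 n D A hA hne h0
  have hAd0 : A d ≠ 0 := by
    intro h
    rw [h, map_zero] at hAd
    exact hAd rfl
  have hM := step3 n D A hA h0
  have hρ := step4 n D A hA hG
  obtain ⟨h, hκ, hK, hgap⟩ := finite_fatou d (2 * l) Y w M K S ((d + 1) * (2 * l)) κ hd (by omega)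
    n.Y1 A hA hAd0 V D.hV hM hρ n.K2 n.hMK n.hS n.hsm n.hκ n.hKκ
  exact step5 n D A hA hAd h hκ hK hgap

theorem core' (D w b d : ℕ) (hw : 2 * D ≤ w) (hb : w ^ (200 * D ^ 4) ≤ b) (hd : 2 ≤ d)
    (hdD : d ≤ D) {F V : ℤ[X]} {t : ℝ} (h : Dat w b d F V t) : False := by
  obtain ⟨l, Y, M, K, S, κ, n⟩ := num D w b d hw hb hd hdD
  exact core n h

end Pool.Agent.Helper9.DG
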