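import Pool.Agent.Helper2.Digits.Main
import Pool.Agent.Helper9.DG.Defs

/-!
PROJECT DG: the numerical hypotheses `Num` and the data `Dat` of the main argument. DONE.

`L = 16 w^2`, `l = 8 w^2`, `N = d (2 l + 1) + l`, `ρ = (d + 1) L`, `Y = w^(25 D^2)`, `M = w^(116 D^3)`, `K = w^(58 D^3)` (module NumMain).
-/

set_option autoImplicit false

namespace Pool.Agent.Helper9.DG

open Polynomial Finset

/-- The numerical hypotheses. -/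
structure Num (w b d l Y M K S κ : ℕ) : Prop where
  w4 : 4 ≤ w
  d2 : 2 ≤ d
  dw : 2 * d ≤ w
  hl : l = 8 * w ^ 2
  Y1 : 1 ≤ Y
  n1 : ((d + 1) * (2 * l + 1) * (w * (d * (2 * l + 1) + l)) ^ d) ^ (2 * d + 1) ≤ Y
  n2 : 2 * Y < b
  n3 : (2 * ((d + 1) * (2 * l + 1) * Y * w ^ d) * (d * (2 * l + 1) + l + 1) ^ d + 1) *
    ((d + 1) * ((2 * l + 1) * Y)) ^ (d - 1) ≤ b
  n4 : (2 * ((d + 1) * d * (2 * l + 1) * Y * w ^ d) * ((d + 1) * (2 * l) + 1) ^ d + 1) *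
    ((d + 1) * (d * ((2 * l + 1) * Y))) ^ (d - 1) ≤ b
  n5 : 8 * ((d + 1) * (2 * l + 1) * Y * w ^ d) * (M + 1) ^ d ≤ b
  n6 : (4 * ((2 * l + 1) * Y * w)) ^ d ≤ b
  n7 : 8 * ((d + 1) * d ^ 2 * 2 ^ d * Y) ≤ b
  n8 : M + 2 ≤ b
  n9 : 2 ^ (d + 1) ≤ b
  K2 : 2 ≤ K
  hMK : K + (5 * d ^ 3 * (2 * l) + d + ((d + 1) * (2 * l) + (d - 2) * (2 * l)) * (2 * d - 1)) ≤ M
  hS : 16 * (2 + d * ((2 * l + 1) * Y) ^ d) ^ 2 ≤ S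
  hsm : (1 - 1 / (K : ℝ)) ^ M * ((1 + (d : ℝ) * ((((2 * l : ℕ) : ℝ) + 1) * Y) ^ d) *
    (1 + (M : ℝ) * (((2 * l + 1) * Y * w : ℕ) : ℝ)) ^ d) ≤ 1
  hκ : (S + 2) * (d + 5 * d ^ 3 * (2 * l) + 1) ≤ κ
  hlκ : 2 * l ≤ κ
  hKκ : (2 * (d + 1)) ^ (d + 1) * κ ≤ K
  hNM : d * (2 * l + 1) + l ≤ M
  hρM : (d + 1) * (2 * l) ≤ M

/-- The data of the main argument. -/
structure Dat (w b d : ℕ) (F V : ℤ[X]) (t : ℝ) : Prop where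
  hV : CB w V
  hη : |aeval (1 / (b : ℝ)) V| ≤ 1
  ht : |t - aeval (1 / (b : ℝ)) V| ≤ 1 / (b : ℝ) ^ (b - 1)
  hirr : Irrational t
  hF : Irreducible F
  hFd : F.natDegree = d
  hFt : aeval t F = 0
  hmah : Helper2.Digits.mah F ^ d ≤ (b : ℝ) ^ (2 * w ^ 2)

end Pool.Agent.Helper9.DG
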