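import Pool.Agent.Helper2.Digits.Expansion
import Pool.Agent.Helper9.DG.Defs

/-!
PROJECT DG, module DG-30. The polynomial of the digits.

`coeff_VV`: the coefficient of index `n` is `e (n - 1)` for `1 ≤ n ≤ b` and `0` otherwise, at most `w`. `abs_eval_VV`: `0 ≤ ∑_{i < b} e_i b^(-i-1) ≤ w / (b - 1) ≤ 1` (geometric sum).
`near`: `x = 1 / b`. `Pool.Agent.Helper2.Digits.sum_digit` with `n = b`: `∑_{i < b} digit x^(i+1) = ⌊ξ b^b⌋ x^b - ⌊ξ⌋`. The left side is `c ∑_{i<b} x^(i+1) + h η`, `η = aeval x (VV b e)`,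
`∑_{i<b} x^(i+1) = (1 - x^b) / (b - 1)` (`geom_sum_eq` or induction). Hence `ξ - ⌊ξ⌋ - c/(b-1) - h η = (ξ b^b - ⌊ξ b^b⌋) x^b - c x^b / (b - 1)`, at most
`x^b (1 + b (w + 1)/(b - 1)) ≤ x^b (1 + 2 (w + 1)) ≤ x^b b = x^(b-1)` in absolute value; `|h| ≥ 1`.
-/

set_option autoImplicit false

namespace Pool.Agent.Helper9.DG

open Polynomial Finset

/-- The polynomial `∑_{i < b} e_i X ^ (i + 1)`. -/
noncomputable def VV (b : ℕ) (e : ℕ → ℕ) : ℤ[X] := ∑ i ∈ range b, monomial (i + 1) (e i : ℤ)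

theorem CB_VV (w b : ℕ) (e : ℕ → ℕ) (he : ∀ i, e i ≤ w) : CB w (VV b e) := by
  intro n
  unfold VV
  rw [finsetSum_coeff]
  simp only [coeff_monomial]
  cases n with
  | zero =>
    rw [Finset.sum_eq_zero fun i _ => if_neg (by omega)]
    simp
  | succ m =>
    have h1 : ∑ i ∈ range b, (if i + 1 = m + 1 then (e i : ℤ) else 0) = if m < b then (e m : ℤ) else 0 := by
      have h2 : ∀ i ∈ range b, (if i + 1 = m + 1 then (e i : ℤ) else 0) = if m = i then (e i : ℤ) else 0 := by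
        intro i _
        by_cases h : m = i
        · rw [if_pos (by omega), if_pos h]
        · rw [if_neg (by omega), if_neg h]
      rw [Finset.sum_congr rfl h2, Finset.sum_ite_eq]
      simp only [Finset.mem_range]
    rw [h1]
    split_ifs
    · rw [abs_of_nonneg (by positivity)]
      exact_mod_cast he m
    · simp

theorem aeval_VV (b : ℕ) (e : ℕ → ℕ) (x : ℝ) :
    aeval x (VV b e) = ∑ i ∈ range b, (e i : ℝ) * x ^ (i + 1) := by
  unfold VV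
  rw [map_sum]
  refine Finset.sum_congr rfl fun i _ => ?_
  rw [aeval_monomial]
  simp

theorem geom_x (b n : ℕ) (hb : 2 ≤ b) :
    ∑ i ∈ range n, (1 / (b : ℝ)) ^ (i + 1) = (1 - (1 / (b : ℝ)) ^ n) / ((b : ℝ) - 1) := by
  have hb' : (2 : ℝ) ≤ b := by exact_mod_cast hb
  have hb1 : (b : ℝ) - 1 ≠ 0 := by
    have : (0 : ℝ) < (b : ℝ) - 1 := by linarith
    exact this.ne'
  have hb0 : (b : ℝ) ≠ 0 := by
    have : (0 : ℝ) < (b : ℝ) := by linarith
    exact this.ne'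
  induction n with
  | zero => simp
  | succ n ih =>
    rw [Finset.sum_range_succ, ih, eq_div_iff hb1, add_mul, div_mul_cancel₀ _ hb1]
    have h1 : (1 / (b : ℝ)) ^ n = b * (1 / (b : ℝ)) ^ (n + 1) := by
      rw [pow_succ, mul_comm, mul_assoc, one_div_mul_cancel hb0, mul_one]
    rw [h1]
    ring

theorem abs_eval_VV (w b : ℕ) (e : ℕ → ℕ) (he : ∀ i, e i ≤ w) (hb : w + 1 ≤ b) (hb2 : 2 ≤ b) :
    |aeval (1 / (b : ℝ)) (VV b e)| ≤ 1 := by
  have hb2' : (2 : ℝ) ≤ b := by exact_mod_cast hb2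
  have hbw : (w : ℝ) + 1 ≤ b := by exact_mod_cast hb
  have hx0 : 0 ≤ 1 / (b : ℝ) := by positivity
  rw [aeval_VV, abs_of_nonneg (Finset.sum_nonneg fun i _ => by positivity)]
  calc ∑ i ∈ range b, (e i : ℝ) * (1 / (b : ℝ)) ^ (i + 1)
      ≤ ∑ i ∈ range b, (w : ℝ) * (1 / (b : ℝ)) ^ (i + 1) := by
        refine Finset.sum_le_sum fun i _ => ?_
        refine mul_le_mul_of_nonneg_right ?_ (by positivity)
        exact_mod_cast he i
    _ = (w : ℝ) * ((1 - (1 / (b : ℝ)) ^ b) / ((b : ℝ) - 1)) := by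
        rw [← Finset.mul_sum, geom_x b b hb2]
    _ ≤ (w : ℝ) * (1 / ((b : ℝ) - 1)) := by
        refine mul_le_mul_of_nonneg_left ?_ (by positivity)
        refine div_le_div_of_nonneg_right ?_ (by linarith)
        have : 0 ≤ (1 / (b : ℝ)) ^ b := by positivity
        linarith
    _ ≤ 1 := by
        rw [mul_one_div, div_le_one (by linarith)]
        linarith

theorem near (w b : ℕ) (e : ℕ → ℕ) (hb : 2 * w + 3 ≤ b) (c h : ℤ)
    (hh : h ≠ 0) (hc : |c| ≤ b * (w + 1)) (ξ : ℝ)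
    (hdig : ∀ i < b, Helper2.Digits.digit ξ b i = c + h * e i) :
    |(ξ - ⌊ξ⌋ - (c : ℝ) / ((b : ℝ) - 1)) / (h : ℝ) - aeval (1 / (b : ℝ)) (VV b e)| ≤
      1 / (b : ℝ) ^ (b - 1) := by
  have hb2 : 2 ≤ b := by omega
  have hb2' : (2 : ℝ) ≤ b := by exact_mod_cast hb2
  have hb0 : (b : ℝ) ≠ 0 := by
    have : (0 : ℝ) < (b : ℝ) := by linarith
    exact this.ne'
  have hb1 : (0 : ℝ) < (b : ℝ) - 1 := by linarith
  have hbw : 2 * (w : ℝ) + 3 ≤ b := by exact_mod_cast hb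
  have hh' : (h : ℝ) ≠ 0 := by exact_mod_cast hh
  have hh1 : (1 : ℝ) ≤ |(h : ℝ)| := by
    have : (1 : ℤ) ≤ |h| := Int.one_le_abs hh
    exact_mod_cast this
  have hc' : |(c : ℝ)| ≤ b * (w + 1) := by exact_mod_cast hc
  have hsum := Helper2.Digits.sum_digit ξ (b := b) (by omega) b
  have hlhs : ∑ i ∈ range b, (Helper2.Digits.digit ξ b i : ℝ) * (1 / (b : ℝ)) ^ (i + 1) =
      c * ((1 - (1 / (b : ℝ)) ^ b) / ((b : ℝ) - 1)) + h * aeval (1 / (b : ℝ)) (VV b e) := by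
    rw [aeval_VV, ← geom_x b b hb2, Finset.mul_sum, Finset.mul_sum, ← Finset.sum_add_distrib]
    refine Finset.sum_congr rfl fun i hi => ?_
    rw [hdig i (Finset.mem_range.1 hi)]
    push_cast
    ring
  rw [hlhs] at hsum
  set η : ℝ := aeval (1 / (b : ℝ)) (VV b e) with hη
  set y : ℝ := (1 / (b : ℝ)) ^ b with hy
  have hy0 : 0 < y := by positivity
  have hyb : (b : ℝ) ^ b * y = 1 := by
    rw [hy, ← mul_pow, mul_one_div_cancel hb0, one_pow]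
  have key : (ξ - ⌊ξ⌋ - (c : ℝ) / ((b : ℝ) - 1)) / (h : ℝ) - η =
      (y * (ξ * (b : ℝ) ^ b - ⌊ξ * (b : ℝ) ^ b⌋ - c / ((b : ℝ) - 1))) / h := by
    rw [eq_div_iff hh', sub_mul, div_mul_cancel₀ _ hh']
    have h1 : (h : ℝ) * η = ⌊ξ * (b : ℝ) ^ b⌋ * y - ⌊ξ⌋ - c * ((1 - y) / ((b : ℝ) - 1)) := by linarith
    have h2 : y * (ξ * (b : ℝ) ^ b) = ξ := by
      calc y * (ξ * (b : ℝ) ^ b) = ξ * ((b : ℝ) ^ b * y) := by ring
        _ = ξ := by rw [hyb, mul_one]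
    rw [mul_sub, mul_sub, h2, mul_comm η, h1]
    ring
  rw [key, abs_div, abs_mul, abs_of_pos hy0]
  have hfr : |ξ * (b : ℝ) ^ b - ⌊ξ * (b : ℝ) ^ b⌋ - c / ((b : ℝ) - 1)| ≤ b := by
    have h1 : |ξ * (b : ℝ) ^ b - ⌊ξ * (b : ℝ) ^ b⌋| ≤ 1 := by
      rw [abs_le]
      have h3 := Int.floor_le (ξ * (b : ℝ) ^ b)
      have h4 := Int.lt_floor_add_one (ξ * (b : ℝ) ^ b)
      constructor <;> linarith
    have h2 : |(c : ℝ) / ((b : ℝ) - 1)| ≤ 2 * (w + 1) := by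
      rw [abs_div, abs_of_pos hb1, div_le_iff₀ hb1]
      refine hc'.trans ?_
      have h5 : (b : ℝ) ≤ 2 * ((b : ℝ) - 1) := by linarith
      have h6 : (0 : ℝ) ≤ (w : ℝ) + 1 := by positivity
      nlinarith
    calc |ξ * (b : ℝ) ^ b - ⌊ξ * (b : ℝ) ^ b⌋ - c / ((b : ℝ) - 1)|
        ≤ |ξ * (b : ℝ) ^ b - ⌊ξ * (b : ℝ) ^ b⌋| + |(c : ℝ) / ((b : ℝ) - 1)| := abs_sub _ _
      _ ≤ 1 + 2 * (w + 1) := add_le_add h1 h2
      _ ≤ b := by linarith
  calc y * |ξ * (b : ℝ) ^ b - ⌊ξ * (b : ℝ) ^ b⌋ - c / ((b : ℝ) - 1)| / |(h : ℝ)|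
      ≤ y * b / 1 := by
        refine div_le_div₀ (by positivity) ?_ (by norm_num) hh1
        exact mul_le_mul_of_nonneg_left hfr hy0.le
    _ = 1 / (b : ℝ) ^ (b - 1) := by
        rw [div_one, eq_div_iff (pow_ne_zero _ hb0)]
        have h7 : (b : ℝ) ^ b = b * (b : ℝ) ^ (b - 1) := by
          rw [← pow_succ']
          congr 1
          omega
        rw [h7] at hyb
        linarith

end Pool.Agent.Helper9.DG
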