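import Pool.Agent.Helper2.Digits.Main
import Pool.Agent.Helper9.DG.Defs

/-!
PROJECT DG, module DG-32. The irreducible factor.

`Pool.Agent.Helper2.Digits.exists_irreducible_factor`: `F ∣ Q` irreducible with `aeval t F = 0`. `natDegree F ≤ D` (`natDegree_le_of_dvd`); `natDegree F ≥ 2`: it is positive
(`natDegree_pos_of_irreducible`) and if it were `1`, `t = - F_0 / F_1` would be rational. `mah F ≤ mah Q ≤ (D + 1)^2 e^w (b^3 e^w)^D` (`mah_le_of_dvd`, `mah_le_of_coeff_le`), and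
`(mah F)^d ≤ ((D + 1)^2 e^w (b^3 e^w)^D)^D` (base `≥ 1`, `d ≤ D`) `= (D + 1)^(2 D) e^(w D (D + 1)) b^(3 D^2) ≤ b^D b^w b^(3 D^2)`: `(D + 1)^2 ≤ b`; `e^(D (D + 1)) ≤ w^(200 D^4) ≤ b`
(`e ≤ 4 ≤ w`, `Real.exp_one_lt_d9`). Finally `D + w + 3 D^2 ≤ 2 w^2` as `2 D ≤ w`, `w ≥ 4`.
-/

set_option autoImplicit false

namespace Pool.Agent.Helper9.DG

open Polynomial Finset

theorem exists_F (D w b : ℕ) (hD : 2 ≤ D) (hw : 2 * D ≤ w) (hb : w ^ (200 * D ^ 4) ≤ b) (Q : ℤ[X])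
    (hQ : Q ≠ 0) (hQD : Q.natDegree ≤ D) (t : ℝ) (ht : Irrational t) (hQt : aeval t Q = 0)
    (hQc : ∀ i, |(Q.coeff i : ℝ)| ≤
      ((D : ℝ) + 1) * (Real.exp w * ((b : ℝ) ^ 3 * Real.exp w) ^ D)) :
    ∃ F : ℤ[X], Irreducible F ∧ 2 ≤ F.natDegree ∧ F.natDegree ≤ D ∧ aeval t F = 0 ∧
      Helper2.Digits.mah F ^ F.natDegree ≤ (b : ℝ) ^ (2 * w ^ 2) := by
  obtain ⟨F, hF, hFQ, hFt⟩ := Helper2.Digits.exists_irreducible_factor hQ hQt
  have hFD : F.natDegree ≤ D := (natDegree_le_of_dvd hFQ hQ).trans hQD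
  have hF2 : 2 ≤ F.natDegree := by
    by_contra hlt
    have h1 : F.natDegree = 0 ∨ F.natDegree = 1 := by omega
    rcases h1 with h1 | h1
    · rw [eq_C_of_natDegree_eq_zero h1] at hFt hF
      simp only [aeval_C, algebraMap_int_eq, eq_intCast, map_intCast, Int.cast_eq_zero] at hFt
      rw [hFt] at hF
      simp at hF
    · have h2 := eq_X_add_C_of_natDegree_le_one (p := F) h1.le
      rw [h2] at hFt
      simp only [map_add, map_mul, aeval_C, aeval_X, algebraMap_int_eq, eq_intCast, map_intCast] at hFt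
      have h3 : F.coeff 1 ≠ 0 := by
        have h4 : F.leadingCoeff ≠ 0 := leadingCoeff_ne_zero.2 hF.ne_zero
        rwa [leadingCoeff, h1] at h4
      have h3' : (F.coeff 1 : ℝ) ≠ 0 := by exact_mod_cast h3
      apply ht
      refine ⟨-(F.coeff 0 : ℚ) / (F.coeff 1 : ℚ), ?_⟩
      push_cast
      rw [div_eq_iff h3']
      linarith
  refine ⟨F, hF, hF2, hFD, hFt, ?_⟩
  set K : ℝ := ((D : ℝ) + 1) * (((D : ℝ) + 1) * (Real.exp w * ((b : ℝ) ^ 3 * Real.exp w) ^ D))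
    with hK
  have hmQ : Helper2.Digits.mah Q ≤ K := Helper2.Digits.mah_le_of_coeff_le hQD hQc
  have hmF : Helper2.Digits.mah F ≤ K := (Helper2.Digits.mah_le_of_dvd hFQ hQ).trans hmQ
  have hm1 : 1 ≤ Helper2.Digits.mah F := Helper2.Digits.one_le_mah hF.ne_zero
  have hK1 : 1 ≤ K := hm1.trans hmF
  have hw4 : 4 ≤ w := by omega
  have hpos : 1 ≤ D ^ 4 := Nat.one_le_pow _ _ (by omega)
  have hb2 : w ^ 2 ≤ b := (Nat.pow_le_pow_right (by omega) (by omega)).trans hb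
  have hbD : (D + 1) ^ 2 ≤ b := (Nat.pow_le_pow_left (by omega) 2).trans hb2
  have hDD : D * (D + 1) ≤ 200 * D ^ 4 := by
    have h5 : D * (D + 1) ≤ D * (2 * D) := Nat.mul_le_mul_left _ (by omega)
    have h6 : D ^ 2 ≤ D ^ 4 := Nat.pow_le_pow_right (by omega) (by norm_num)
    nlinarith
  have hbw : w ^ (D * (D + 1)) ≤ b := (Nat.pow_le_pow_right (by omega) hDD).trans hb
  have hb1 : 1 ≤ b := (Nat.one_le_pow 2 w (by omega)).trans hb2
  have hb1' : (1 : ℝ) ≤ b := by exact_mod_cast hb1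
  have hbD' : ((D : ℝ) + 1) ^ 2 ≤ b := by exact_mod_cast hbD
  have hbw' : (w : ℝ) ^ (D * (D + 1)) ≤ b := by exact_mod_cast hbw
  have hew : Real.exp 1 ≤ w := by
    have h7 := Real.exp_one_lt_d9
    have h8 : (4 : ℝ) ≤ w := by exact_mod_cast hw4
    linarith
  have hexp : ∀ n : ℕ, Real.exp (n : ℝ) = Real.exp 1 ^ n := fun n => by
    rw [← Real.exp_nat_mul, mul_one]
  have hKD : K ^ D = (((D : ℝ) + 1) ^ 2) ^ D * ((Real.exp 1) ^ (D * (D + 1))) ^ w *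
      (b : ℝ) ^ (3 * D ^ 2) := by
    have k1 : K = ((D : ℝ) + 1) ^ 2 * (Real.exp 1) ^ (w * (D + 1)) * (b : ℝ) ^ (3 * D) := by
      rw [hK, hexp w, mul_pow, ← pow_mul, ← pow_mul, mul_add, pow_add, mul_one]
      ring
    rw [k1, mul_pow, mul_pow, ← pow_mul (Real.exp 1), ← pow_mul (Real.exp 1), ← pow_mul (b : ℝ),
      show w * (D + 1) * D = D * (D + 1) * w by ring, show 3 * D * D = 3 * D ^ 2 by ring]
  have hfin : K ^ D ≤ (b : ℝ) ^ D * (b : ℝ) ^ w * (b : ℝ) ^ (3 * D ^ 2) := by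
    rw [hKD]
    have e1 : (((D : ℝ) + 1) ^ 2) ^ D ≤ (b : ℝ) ^ D := pow_le_pow_left₀ (by positivity) hbD' D
    have e2 : ((Real.exp 1) ^ (D * (D + 1))) ^ w ≤ (b : ℝ) ^ w := by
      refine pow_le_pow_left₀ (by positivity) (le_trans ?_ hbw') w
      exact pow_le_pow_left₀ (Real.exp_pos 1).le hew _
    gcongr
  have hexpo : D + w + 3 * D ^ 2 ≤ 2 * w ^ 2 := by nlinarith
  calc Helper2.Digits.mah F ^ F.natDegree ≤ K ^ F.natDegree :=
        pow_le_pow_left₀ (by linarith) hmF _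
    _ ≤ K ^ D := pow_le_pow_right₀ hK1 hFD
    _ ≤ (b : ℝ) ^ D * (b : ℝ) ^ w * (b : ℝ) ^ (3 * D ^ 2) := hfin
    _ = (b : ℝ) ^ (D + w + 3 * D ^ 2) := by rw [pow_add, pow_add]
    _ ≤ (b : ℝ) ^ (2 * w ^ 2) := pow_le_pow_right₀ hb1' hexpo

end Pool.Agent.Helper9.DG
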