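import Mathlib

/-!
PROJECT DG, module DG-29. Normalisation of the progression.

If all `a i`, `i < b`, are equal: `c = a 0`, `h = 1`, `e = 0`. Otherwise keep `c`, `h` (and replace `e i` by `0` for `i ≥ b`, or keep `min (e i) w`): there are `i, j < b` with `a i ≠ a j`, so `h ≠ 0` and
`|h| ≤ |h| |e i - e j| = |a i - a j| ≤ b`; `|c| = |a 0 - h e 0| ≤ b + b w`. Compare the proof of `Pool.Agent.Helper2.Digits.not_in_progression` (Pool/Agent/Helper2/Digits/Expansion.lean, `hhb`, `hcb`).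
-/

set_option autoImplicit false

namespace Pool.Agent.Helper9.DG

theorem normalise (w b : ℕ) (hb : 1 ≤ b) (a : ℕ → ℤ) (ha : ∀ i < b, 0 ≤ a i ∧ a i ≤ b)
    (c h : ℤ) (hc : ∀ i < b, ∃ e : ℕ, e ≤ w ∧ a i = c + h * e) :
    ∃ (c' h' : ℤ) (e : ℕ → ℕ), h' ≠ 0 ∧ |h'| ≤ b ∧ |c'| ≤ b * (w + 1) ∧ (∀ i, e i ≤ w) ∧
      ∀ i < b, a i = c' + h' * e i := by
  classical
  by_cases hall : ∀ i < b, a i = a 0
  · refine ⟨a 0, 1, fun _ => 0, one_ne_zero, ?_, ?_, fun _ => Nat.zero_le _, fun i hi => ?_⟩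
    · rw [abs_one]; exact_mod_cast hb
    · obtain ⟨h1, h2⟩ := ha 0 (by omega)
      rw [abs_of_nonneg h1]
      nlinarith [(Nat.cast_nonneg w : (0 : ℤ) ≤ w), (Nat.cast_nonneg b : (0 : ℤ) ≤ b)]
    · simpa using hall i hi
  · push Not at hall
    obtain ⟨i, hi, hne⟩ := hall
    choose! e he1 he2 using hc
    have h0 : 0 < b := by omega
    have hi' := ha i hi
    have h0' := ha 0 h0
    have hdiff : a i - a 0 = h * ((e i : ℤ) - e 0) := by
      rw [he2 i hi, he2 0 h0]; ring
    have hh : h ≠ 0 := by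
      intro h1
      rw [h1] at hdiff
      apply hne
      linarith
    have hee : (e i : ℤ) - e 0 ≠ 0 := by
      intro h1
      rw [h1] at hdiff
      apply hne
      linarith
    have hbd : |h| ≤ b := by
      have h1 : |h| * |(e i : ℤ) - e 0| = |a i - a 0| := by rw [hdiff, abs_mul]
      have h2 : 1 ≤ |(e i : ℤ) - e 0| := Int.one_le_abs hee
      have h3 : |a i - a 0| ≤ b := by rw [abs_le]; constructor <;> linarith
      nlinarith [abs_nonneg h]
    have hcb : |c| ≤ b * (w + 1) := by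
      have h1 : c = a 0 - h * e 0 := by rw [he2 0 h0]; ring
      have h2 : |c| ≤ |a 0| + |h * e 0| := by rw [h1]; exact abs_sub _ _
      have h3 : |h * (e 0 : ℤ)| = |h| * e 0 := by
        rw [abs_mul, abs_of_nonneg (Nat.cast_nonneg (e 0) : (0 : ℤ) ≤ e 0)]
      have h4 : (e 0 : ℤ) ≤ w := by exact_mod_cast he1 0 h0
      have h5 : |a 0| ≤ b := by rw [abs_of_nonneg h0'.1]; exact h0'.2
      rw [h3] at h2
      have h6 : |h| * e 0 ≤ b * w :=
        mul_le_mul hbd h4 (Nat.cast_nonneg _) (Nat.cast_nonneg _)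
      linarith [h6]
    refine ⟨c, h, fun j => if j < b then e j else 0, hh, hbd, hcb, fun j => ?_, fun j hj => ?_⟩
    · by_cases hj : j < b
      · simp only [hj, if_true]; exact he1 j hj
      · simp only [hj, if_false]; exact Nat.zero_le _
    · simp only [hj, if_true]; exact he2 j hj

end Pool.Agent.Helper9.DG
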