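import Pool.Agent.Helper2.Digits.Expansion
import Pool.Agent.Helper9.DG.Defs

/-!
PROJECT DG, module DG-31. The integer polynomial of `t`.

`α = h (b - 1)`, `β = ⌊ξ⌋ (b - 1) + c`, `Q = ∑_{k ≤ D} C (P_k (b - 1)^(D - k)) (C α X + C β)^k`, `aeval y Q = (b - 1)^D aeval (h y + ⌊ξ⌋ + c / (b - 1)) P`: exactly as in the proof of
`Pool.Agent.Helper2.Digits.not_in_progression` (Pool/Agent/Helper2/Digits/Expansion.lean, from `set α` on: `hQeval`, `hQη`, `hQ0`, `hQD`).
Coefficients: `H = exp w ≥ 1`. `|⌊ξ⌋| ≤ 2 + D H` (`abs_root_le`), `|α| + |β| ≤ b^2 + (2 + D H) b + b (w + 1) = b (b + 3 + w + D H) ≤ b^3 H` (`3 + w + D ≤ b`), so (`coeff_linear_pow_le`)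
`|Q_i| ≤ ∑_{k ≤ D} H b^(D - k) (b^3 H)^k ≤ (D + 1) H (b^3 H)^D`.
-/

set_option autoImplicit false

namespace Pool.Agent.Helper9.DG

open Polynomial Finset

theorem exists_Q (D w b : ℕ) (hb : 3 + w + D ≤ b) (P : ℤ[X]) (hP : P ≠ 0) (hPD : P.natDegree ≤ D)
    (hPc : ∀ i, |(P.coeff i : ℝ)| ≤ Real.exp w) (ξ : ℝ) (hξ : aeval ξ P = 0) (c h : ℤ)
    (hh : h ≠ 0) (hhb : |h| ≤ b) (hcb : |c| ≤ b * (w + 1)) :
    ∃ Q : ℤ[X], Q ≠ 0 ∧ Q.natDegree ≤ D ∧
      aeval ((ξ - ⌊ξ⌋ - (c : ℝ) / ((b : ℝ) - 1)) / (h : ℝ)) Q = 0 ∧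
      ∀ i, |(Q.coeff i : ℝ)| ≤ ((D : ℝ) + 1) * (Real.exp w * ((b : ℝ) ^ 3 * Real.exp w) ^ D) := by
  have hH1 : (1 : ℝ) ≤ Real.exp w := Real.one_le_exp (Nat.cast_nonneg w)
  generalize Real.exp (w : ℝ) = H at hPc hH1 ⊢
  have hbR : (3 : ℝ) + w + D ≤ b := by exact_mod_cast hb
  have hD0 : (0 : ℝ) ≤ D := Nat.cast_nonneg D
  have hw0 : (0 : ℝ) ≤ w := Nat.cast_nonneg w
  have hbpos : (0 : ℝ) < b := by linarith
  have hb1R : (1 : ℝ) ≤ b := by linarith
  have hb2R : (2 : ℝ) ≤ b := by linarith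
  have hbm1 : (0 : ℝ) < (b : ℝ) - 1 := by linarith
  have hhR : (h : ℝ) ≠ 0 := by exact_mod_cast hh
  set N : ℤ := ⌊ξ⌋ with hN
  have hNb : |(N : ℝ)| ≤ 2 + D * H := by
    have h1 := Pool.Agent.Helper2.Digits.abs_root_le hP hPD hPc hξ
    have h2 := Int.floor_le ξ
    have h3 := Int.lt_floor_add_one ξ
    rw [abs_le] at h1 ⊢
    rw [← hN] at h2 h3
    constructor <;> linarith
  set α : ℤ := h * ((b : ℤ) - 1) with hα
  set β : ℤ := N * ((b : ℤ) - 1) + c with hβ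
  set Q : ℤ[X] := ∑ k ∈ Finset.range (D + 1),
    Polynomial.C (P.coeff k * ((b : ℤ) - 1) ^ (D - k)) *
      (Polynomial.C α * X + Polynomial.C β) ^ k with hQ
  have hQeval : ∀ y : ℝ, aeval y Q =
      ((b : ℝ) - 1) ^ D * aeval ((h : ℝ) * y + (N + c / ((b : ℝ) - 1))) P := by
    intro y
    rw [hQ, map_sum, aeval_eq_sum_range' (Nat.lt_succ_of_le hPD), Finset.mul_sum]
    refine Finset.sum_congr rfl fun k hk => ?_
    have hk' : k ≤ D := Nat.lt_succ_iff.mp (Finset.mem_range.mp hk)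
    have h0 : aeval y (Polynomial.C (P.coeff k * ((b : ℤ) - 1) ^ (D - k)) *
        (Polynomial.C α * X + Polynomial.C β) ^ k) =
        ((P.coeff k * ((b : ℤ) - 1) ^ (D - k) : ℤ) : ℝ) * ((α : ℝ) * y + (β : ℝ)) ^ k := by
      rw [map_mul, map_pow, map_add, map_mul (aeval y) (Polynomial.C α), aeval_X, aeval_C, aeval_C,
        aeval_C]
      rfl
    rw [h0]
    rw [zsmul_eq_mul]
    have h1 : (α : ℝ) * y + (β : ℝ) =
        ((b : ℝ) - 1) * ((h : ℝ) * y + (N + c / ((b : ℝ) - 1))) := by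
      rw [hα, hβ]
      push_cast
      field_simp
    rw [h1, mul_pow]
    have h2 : ((b : ℝ) - 1) ^ D = ((b : ℝ) - 1) ^ (D - k) * ((b : ℝ) - 1) ^ k := by
      rw [← pow_add, Nat.sub_add_cancel hk']
    rw [h2]
    push_cast
    ring
  refine ⟨Q, ?_, ?_, ?_, ?_⟩
  · intro h0
    apply hP
    have h1 : P.map (Int.castRingHom ℝ) = 0 := by
      apply Polynomial.funext
      intro t
      rw [eval_zero, eval_map]
      have h2 := hQeval ((t - (N + c / ((b : ℝ) - 1))) / h)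
      rw [h0, map_zero, mul_div_cancel₀ _ hhR, sub_add_cancel] at h2
      rcases mul_eq_zero.mp h2.symm with h3 | h3
      · exact absurd h3 (by positivity)
      · exact h3
    exact (Polynomial.map_eq_zero_iff (Int.castRingHom ℝ).injective_int).mp h1
  · refine natDegree_sum_le_of_forall_le _ _ fun k hk => ?_
    refine (natDegree_C_mul_le _ _).trans ?_
    refine (natDegree_pow_le_of_le k (natDegree_linear_le)).trans ?_
    have := Nat.lt_succ_iff.mp (Finset.mem_range.mp hk)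
    omega
  · rw [hQeval]
    have h1 : (h : ℝ) * ((ξ - (N : ℝ) - (c : ℝ) / ((b : ℝ) - 1)) / (h : ℝ)) +
        (N + c / ((b : ℝ) - 1)) = ξ := by
      rw [mul_div_cancel₀ _ hhR]
      ring
    rw [h1, hξ, mul_zero]
  -- coefficient bounds
  intro i
  set K : ℝ := (b : ℝ) ^ 3 * H with hK
  have hH0 : 0 ≤ H := by linarith
  have hb3 : (b : ℝ) ≤ (b : ℝ) ^ 3 := le_self_pow₀ hb1R (by norm_num)
  have hbK : (b : ℝ) ≤ K := by
    rw [hK]
    exact hb3.trans (le_mul_of_one_le_right (by positivity) hH1)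
  have hK0 : 0 ≤ K := by positivity
  have hαβ : (|(α : ℝ)| + |(β : ℝ)|) ≤ K := by
    have h1 : |(α : ℝ)| ≤ b * b := by
      rw [hα]
      push_cast
      rw [abs_mul, abs_of_pos hbm1]
      have : |(h : ℝ)| ≤ b := by exact_mod_cast hhb
      exact mul_le_mul this (by linarith) hbm1.le hbpos.le
    have h2 : |(β : ℝ)| ≤ (2 + D * H) * b + b * (w + 1) := by
      rw [hβ]
      push_cast
      refine (abs_add_le _ _).trans (add_le_add ?_ ?_)
      · rw [abs_mul, abs_of_pos hbm1]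
        exact mul_le_mul hNb (by linarith) hbm1.le (by positivity)
      · exact_mod_cast hcb
    have h3 : (b : ℝ) * b + ((2 + D * H) * b + b * (w + 1)) = b * (b + 3 + w + D * H) := by ring
    have h4 : (b : ℝ) + 3 + w + D * H ≤ H * (b + 3 + w + D) := by nlinarith
    have h5 : H * ((b : ℝ) + 3 + w + D) ≤ H * (b * b) := by
      refine mul_le_mul_of_nonneg_left ?_ hH0
      nlinarith
    have h6 : (b : ℝ) * (b + 3 + w + D * H) ≤ b * (H * (b * b)) :=
      mul_le_mul_of_nonneg_left (h4.trans h5) hbpos.le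
    have h7 : K = b * (H * (b * b)) := by rw [hK]; ring
    rw [h7]
    linarith
  have hcoef : ∀ k ∈ Finset.range (D + 1),
      |((Polynomial.C (P.coeff k * ((b : ℤ) - 1) ^ (D - k)) *
        (Polynomial.C α * X + Polynomial.C β) ^ k).coeff i : ℝ)| ≤ H * K ^ D := by
    intro k hk
    have hk' : k ≤ D := Nat.lt_succ_iff.mp (Finset.mem_range.mp hk)
    rw [coeff_C_mul]
    push_cast
    rw [abs_mul, abs_mul, mul_assoc]
    refine mul_le_mul (hPc k) ?_ (by positivity) (by positivity)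
    have h1 : |((b : ℝ) - 1) ^ (D - k)| ≤ K ^ (D - k) := by
      rw [abs_pow, abs_of_pos hbm1]
      refine pow_le_pow_left₀ hbm1.le ?_ _
      linarith
    have h3 : |(((Polynomial.C α * X + Polynomial.C β) ^ k).coeff i : ℝ)| ≤ K ^ k := by
      have h4 := Pool.Agent.Helper2.Digits.coeff_linear_pow_le α β k i
      have h5 : |(((Polynomial.C α * X + Polynomial.C β) ^ k).coeff i : ℝ)| ≤
          (|(α : ℝ)| + |(β : ℝ)|) ^ k := by exact_mod_cast h4
      exact h5.trans (pow_le_pow_left₀ (by positivity) hαβ k)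
    calc |((b : ℝ) - 1) ^ (D - k)| * |(((Polynomial.C α * X + Polynomial.C β) ^ k).coeff i : ℝ)|
        ≤ K ^ (D - k) * K ^ k := mul_le_mul h1 h3 (abs_nonneg _) (by positivity)
      _ = K ^ D := by rw [← pow_add, Nat.sub_add_cancel hk']
  rw [hQ, finsetSum_coeff]
  push_cast
  refine (Finset.abs_sum_le_sum_abs _ _).trans ((Finset.sum_le_sum hcoef).trans ?_)
  rw [Finset.sum_const, Finset.card_range, nsmul_eq_mul]
  push_cast
  exact le_rfl

end Pool.Agent.Helper9.DG
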