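import Pool.Agent.Helper9.DG.Core
import Pool.Agent.Helper9.DG.Norm
import Pool.Agent.Helper9.DG.DigV
import Pool.Agent.Helper9.DG.PolyQ
import Pool.Agent.Helper9.DG.ExF

/-!
PROJECT DG. The theorem on digits. (helper9)
-/

set_option autoImplicit false

namespace Pool.Agent.Helper9.DG

open Polynomial Finset

theorem w_le (D w b : ℕ) (hD : 2 ≤ D) (hw : 2 * D ≤ w) (hb : w ^ (200 * D ^ 4) ≤ b) :
    w ^ 4 ≤ b := by
  refine le_trans (Nat.pow_le_pow_right (by omega) ?_) hb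
  have : 0 < D ^ 4 := by positivity
  omega

/-- **Theorem DG.** Let `D ≥ 2`, `w ≥ 2 D`, `b ≥ w ^ (200 D ^ 4)`, and let `ξ` be an irrational real root of a
nonzero integer polynomial of degree at most `D` with coefficients at most `e ^ w`. The first `b` digits of `ξ` to the
base `b` do not lie in an arithmetic progression with `w + 1` terms. -/
theorem digits_not_in_progression (D w b : ℕ) (hD : 2 ≤ D) (hw : 2 * D ≤ w)
    (hb : w ^ (200 * D ^ 4) ≤ b) (ξ : ℝ) (hξ : Irrational ξ) (P : ℤ[X]) (hP : P ≠ 0)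
    (hPD : P.natDegree ≤ D) (hPc : ∀ i, |(P.coeff i : ℝ)| ≤ Real.exp w) (hPξ : aeval ξ P = 0)
    (c h : ℤ) : ∃ i < b, ∀ e : ℕ, e ≤ w → Helper2.Digits.digit ξ b i ≠ c + h * e := by
  by_contra hcon
  push Not at hcon
  have hwb := w_le D w b hD hw hb
  have hw4 : 4 ≤ w := by omega
  have hwb' : 64 * w ≤ b := by
    refine le_trans ?_ hwb
    have : w ^ 4 = w * w * w * w := by ring
    rw [this]
    nlinarith [Nat.mul_le_mul hw4 hw4, Nat.mul_le_mul (Nat.mul_le_mul hw4 hw4) hw4]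
  have hb0 : 0 < b := by omega
  obtain ⟨c', h', e, hh, hhb, hcb, he, hdig⟩ := normalise w b (by omega)
    (fun i => Helper2.Digits.digit ξ b i)
    (fun i _ => ⟨Helper2.Digits.digit_nonneg ξ b i, Helper2.Digits.digit_le ξ hb0 i⟩) c h hcon
  obtain ⟨Q, hQ, hQD, hQt, hQc⟩ := exists_Q D w b (by omega) P hP hPD hPc ξ hPξ c' h' hh hhb hcb
  have hb1 : (0 : ℝ) < (b : ℝ) - 1 := by
    have : (1 : ℝ) < b := by exact_mod_cast (by omega : 1 < b)
    linarith
  have hhR : (h' : ℝ) ≠ 0 := by exact_mod_cast hh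
  have hirr : Irrational ((ξ - ⌊ξ⌋ - (c' : ℝ) / ((b : ℝ) - 1)) / (h' : ℝ)) := by
    rintro ⟨r, hr⟩
    apply hξ
    refine ⟨h' * r + ⌊ξ⌋ + c' / ((b : ℚ) - 1), ?_⟩
    push_cast
    rw [hr]
    field_simp
    ring
  obtain ⟨F, hF, hF2, hFD, hFt, hmah⟩ := exists_F D w b hD hw hb Q hQ hQD _ hirr hQt hQc
  refine core' D w b F.natDegree hw hb hF2 hFD
    (F := F) (V := VV b e) (t := (ξ - ⌊ξ⌋ - (c' : ℝ) / ((b : ℝ) - 1)) / (h' : ℝ))
    ⟨CB_VV w b e he, abs_eval_VV w b e he (by omega) (by omega),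
      near w b e (by omega) c' h' hh hcb ξ hdig, hirr, hF, rfl, hFt, hmah⟩

end Pool.Agent.Helper9.DG
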