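import Pool.Agent.Helper9.DG.Biv

/-!
PROJECT DG, module DG-14. Implicit differentiation.

Write `P = (derivative f).eval U`, `f_X = dX f`, `f_T = derivative f`, congruences modulo the indicated power of `X`; `derivative` of a multiple of `X^N` is a multiple of `X^(N-1)`.
`k = 1`: `derivative (f.eval U) = f_X(U) + P U'` (`derivative_eval_biv`) is divisible by `X^(M-1)`.
`k → k + 1` (`k ≥ 1`): `R = P^(2k-1) U^(k) - Q_k(U)` is divisible by `X^(M-k)`, so `X^(M-k-1) ∣ R' = (2k-1) P^(2k-2) P' U^(k) + P^(2k-1) U^(k+1) - (Q_k)_X(U) - (Q_k)_T(U) U'`.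
Multiply by `P^2`, and use `P U' = - f_X(U)` and `P^(2k-1) U^(k) = Q_k(U)` (both modulo `X^(M-k-1)`) and `P' = (f_T)_X(U) + f_TT(U) U'`, so `P P' = (f_T)_X(U) P - f_TT(U) f_X(U)`:
`P^(2k+1) U^(k+1) = P^2 (Q_k)_X(U) - P f_X(U) (Q_k)_T(U) - (2k-1) ((f_T)_X(U) P - f_TT(U) f_X(U)) Q_k(U)` modulo `X^(M-k-1)`, which is `(QQ f (k+1)).eval U` (`eval_sub`, `eval_mul`, `eval_pow`).
An explicit combination is best: with `E1 = f_X(U) + P U'` and `R`, the difference of the two sides is `P^2 R' - (stuff) E1 - (stuff) R` (`linear_combination`).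
Proved by helper59.
-/

set_option autoImplicit false

namespace Pool.Agent.Helper9.DG

open Polynomial Finset

theorem X_pow_dvd_derivative {N : ℕ} {p : ℤ[X]} (h : X ^ N ∣ p) : X ^ (N - 1) ∣ derivative p := by
  obtain ⟨q, rfl⟩ := h
  rw [derivative_mul, derivative_X_pow]
  refine dvd_add ?_ ?_
  · exact ⟨C (N : ℤ) * q, by ring⟩
  · exact (pow_dvd_pow _ (Nat.sub_le _ _)).trans (dvd_mul_right _ _)

theorem eval_QQ (f : ℤ[X][X]) (U : ℤ[X]) (M : ℕ) (hf : X ^ M ∣ f.eval U) (k : ℕ) (hk : 1 ≤ k) :
    X ^ (M - k) ∣ (derivative f).eval U ^ (2 * k - 1) * derivative^[k] U - (QQ f k).eval U := by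
  have h1 : X ^ (M - 1) ∣ (dX f).eval U + (derivative f).eval U * derivative U := by
    rw [← derivative_eval_biv]
    exact X_pow_dvd_derivative hf
  induction k, hk using Nat.le_induction with
  | base =>
    show X ^ (M - 1) ∣ (derivative f).eval U ^ (2 * 1 - 1) * derivative^[1] U - (-dX f).eval U
    rw [eval_neg]
    simpa [add_comm] using h1
  | succ k hk ih =>
    obtain ⟨k, rfl⟩ : ∃ m, k = m + 1 := ⟨k - 1, by omega⟩
    have hE : X ^ (M - (k + 1 + 1)) ∣ (dX f).eval U + (derivative f).eval U * derivative U :=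
      (pow_dvd_pow _ (by omega)).trans h1
    have hR : X ^ (M - (k + 1 + 1)) ∣ (derivative f).eval U ^ (2 * (k + 1) - 1) *
        derivative^[k + 1] U - (QQ f (k + 1)).eval U :=
      (pow_dvd_pow _ (by omega)).trans ih
    have hR' : X ^ (M - (k + 1 + 1)) ∣ derivative ((derivative f).eval U ^ (2 * (k + 1) - 1) *
        derivative^[k + 1] U - (QQ f (k + 1)).eval U) := by
      have := X_pow_dvd_derivative ih
      rwa [Nat.sub_sub] at this
    rw [derivative_sub, derivative_mul, derivative_pow, derivative_eval_biv, derivative_eval_biv]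
      at hR'
    have e1 : derivative (derivative^[k + 1] U) = derivative^[k + 1 + 1] U :=
      (Function.iterate_succ_apply' derivative (k + 1) U).symm
    rw [e1] at hR'
    have e2 : (QQ f (k + 1 + 1)).eval U = (derivative f).eval U ^ 2 * (dX (QQ f (k + 1))).eval U
        - (derivative f).eval U * (dX f).eval U * (derivative (QQ f (k + 1))).eval U
        - (2 * ((k : ℤ[X]) + 1) - 1) * ((dX (derivative f)).eval U * (derivative f).eval U -
          (derivative (derivative f)).eval U * (dX f).eval U) * (QQ f (k + 1)).eval U := by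
      show (derivative f ^ 2 * dX (QQ f (k + 1)) - derivative f * dX f *
        derivative (QQ f (k + 1)) - ((2 * (k + 1) - 1 : ℤ) : ℤ[X][X]) *
        (dX (derivative f) * derivative f - derivative (derivative f) * dX f) *
        QQ f (k + 1)).eval U = _
      simp only [eval_sub, eval_mul, eval_pow, eval_intCast]
      push_cast
      ring
    rw [e2]
    have e3 : 2 * (k + 1) - 1 = 2 * k + 1 := by omega
    have e4 : 2 * (k + 1 + 1) - 1 = 2 * k + 3 := by omega
    have e5 : 2 * k + 1 - 1 = 2 * k := by omega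
    rw [e3] at hR hR'
    rw [e5] at hR'
    rw [e4]
    generalize (derivative f).eval U = P at *
    generalize (dX f).eval U = A at *
    generalize derivative^[k + 1 + 1] U = V at *
    generalize derivative^[k + 1] U = W at *
    generalize (QQ f (k + 1)).eval U = Q at *
    generalize (dX (QQ f (k + 1))).eval U = QX at *
    generalize (derivative (QQ f (k + 1))).eval U = QT at *
    generalize (dX (derivative f)).eval U = B at *
    generalize (derivative (derivative f)).eval U = G at *
    generalize derivative U = U' at *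
    have hc : (((2 * k + 1 : ℕ) : ℤ) : ℤ[X]) = 2 * (k : ℤ[X]) + 1 := by push_cast; ring
    have hc' : (C ((2 * k + 1 : ℕ) : ℤ) : ℤ[X]) = 2 * (k : ℤ[X]) + 1 := by
      rw [← hc]; simp
    rw [hc'] at hR'
    have key : P ^ (2 * k + 3) * V - (P ^ 2 * QX - P * A * QT - (2 * ((k : ℤ[X]) + 1) - 1) *
        (B * P - G * A) * Q) =
        P ^ 2 * ((2 * (k : ℤ[X]) + 1) * P ^ (2 * k) * (B + G * U') * W + P ^ (2 * k + 1) * V -
          (QX + QT * U')) +
        (P * QT - (2 * (k : ℤ[X]) + 1) * P ^ (2 * k + 1) * G * W) * (A + P * U') -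
        (2 * (k : ℤ[X]) + 1) * (B * P - G * A) * (P ^ (2 * k + 1) * W - Q) := by
      ring
    rw [key]
    exact dvd_sub (dvd_add (hR'.mul_left _) (hE.mul_left _)) (hR.mul_left _)

theorem eval_WW (f : ℤ[X][X]) (U : ℤ[X]) (M d : ℕ) (hf : X ^ M ∣ f.eval U) (hd : 1 ≤ d) (k : ℕ)
    (hk : k ≤ d) :
    X ^ (M - d) ∣ (derivative f).eval U ^ (2 * d - 1) * derivative^[k] U - (WW f d k).eval U := by
  unfold WW
  split_ifs with h
  · subst h
    rw [eval_mul, eval_pow, eval_X]
    have : (derivative f).eval U ^ (2 * d - 1) * derivative^[0] U -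
        U * (derivative f).eval U ^ (2 * d - 1) = 0 := by
      simp only [Function.iterate_zero, id_eq]
      ring
    rw [this]
    exact dvd_zero _
  · have h2 := eval_QQ f U M hf k (by omega)
    rw [eval_mul, eval_pow]
    have e : 2 * d - 1 = (2 * k - 1) + 2 * (d - k) := by omega
    rw [e, pow_add]
    have : (derivative f).eval U ^ (2 * k - 1) * (derivative f).eval U ^ (2 * (d - k)) *
        derivative^[k] U - (QQ f k).eval U * (derivative f).eval U ^ (2 * (d - k)) =
        ((derivative f).eval U ^ (2 * k - 1) * derivative^[k] U - (QQ f k).eval U) *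
          (derivative f).eval U ^ (2 * (d - k)) := by ring
    rw [this]
    exact ((pow_dvd_pow _ (by omega)).trans h2).mul_right _

end Pool.Agent.Helper9.DG
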