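import Pool.Agent.Helper9.DG.PowC

/-!
PROJECT DG, module DG-02. Siegel's lemma for the forms. (Proved by helper9.)

Unknowns: the coefficients `t (i, j)`, `i ∈ Fin (d + 1)`, `j ∈ Fin (2 l + 1)`, of `A_i = ∑ t (i, j) X^j` (`A_i = 0` for `i > d`): `n = (d + 1)(2 l + 1)` unknowns; equations: the
coefficients of `X^k`, `k < N = d (2 l + 1) + l`, of `fm d A V`; entry at `(k, (i, j))`: `(X^j * V^i).coeff k` (`= (V^i).coeff (k - j)` or `0`), at most
`(s (k + 1))^i ≤ (s N)^d` in absolute value (`coeff_pow_le`, `s N ≥ 1`). `n - N = l + 1 > 0`, `N > 0`. `Int.Matrix.exists_ne_zero_int_vec_norm_le` gives `t ≠ 0` with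
`‖t‖ ≤ (n max(1, ‖B‖))^(N / (n - N))`, and `N ≤ (2 d + 1)(n - N)`, base `≥ 1`: `≤ (n (s N)^d)^(2 d + 1) ≤ Y`. The rest is as in `Pool.Agent.Helper2.Digits.exists_pade` (file
Pool/Agent/Helper2/Digits/Pade.lean), with polynomials instead of power series.
-/

set_option autoImplicit false

namespace Pool.Agent.Helper9.DG

open Polynomial Finset

attribute [local instance] Matrix.seminormedAddCommGroup

theorem exists_form (d l s Y : ℕ) (V : ℤ[X]) (hd : 1 ≤ d) (hl : 1 ≤ l) (hs : 1 ≤ s) (hV : CB s V)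
    (hY : ((d + 1) * (2 * l + 1) * (s * (d * (2 * l + 1) + l)) ^ d) ^ (2 * d + 1) ≤ Y) :
    ∃ A : ℕ → ℤ[X], (∀ i, (A i).natDegree ≤ 2 * l ∧ CB Y (A i)) ∧ (∃ i ≤ d, A i ≠ 0) ∧
      X ^ (d * (2 * l + 1) + l) ∣ fm d A V := by
  classical
  obtain ⟨N, hN⟩ : ∃ N, N = d * (2 * l + 1) + l := ⟨_, rfl⟩
  rw [← hN] at hY ⊢
  have hN1 : 1 ≤ N := by
    rw [hN]
    omega
  have hnN : (d + 1) * (2 * l + 1) = N + (l + 1) := by
    rw [hN]
    ring
  have hsN : 1 ≤ s * N := Nat.mul_pos (by omega) (by omega)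
  obtain ⟨B, hB⟩ : ∃ B : Matrix (Fin N) (Fin (d + 1) × Fin (2 * l + 1)) ℤ,
      B = fun k ij => (X ^ ij.2.1 * V ^ ij.1.1 : ℤ[X]).coeff k.1 := ⟨_, rfl⟩
  have hcardN : Fintype.card (Fin N) = N := Fintype.card_fin N
  have hcardn : Fintype.card (Fin (d + 1) × Fin (2 * l + 1)) = (d + 1) * (2 * l + 1) := by
    rw [Fintype.card_prod, Fintype.card_fin, Fintype.card_fin]
  obtain ⟨t, ht0, htB, htn⟩ := Int.Matrix.exists_ne_zero_int_vec_norm_le B
    (by rw [hcardN, hcardn, hnN]; omega) (by rw [hcardN]; omega)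
  rw [hcardN, hcardn] at htn
  -- the norm of the matrix
  have hBn : max 1 ‖B‖ ≤ ((s * N : ℕ) : ℝ) ^ d := by
    have h1 : (1 : ℝ) ≤ ((s * N : ℕ) : ℝ) ^ d := one_le_pow₀ (by exact_mod_cast hsN)
    refine max_le h1 ?_
    rw [Matrix.norm_le_iff (by positivity)]
    intro k ij
    rw [hB, Int.norm_eq_abs]
    simp only
    rw [coeff_X_pow_mul']
    split_ifs with hj
    · have h2 := coeff_pow_le V s hV ij.1.1 (k.1 - ij.2.1)
      have h3 : (s * (k.1 - ij.2.1 + 1)) ^ ij.1.1 ≤ (s * N) ^ d := by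
        have h4 : s * (k.1 - ij.2.1 + 1) ≤ s * N := by
          apply Nat.mul_le_mul_left
          have := k.2
          omega
        have h5 : ij.1.1 ≤ d := Nat.lt_succ_iff.1 ij.1.2
        exact (Nat.pow_le_pow_left h4 _).trans (Nat.pow_le_pow_right hsN h5)
      have h6 : |(V ^ ij.1.1).coeff (k.1 - ij.2.1)| ≤ (((s * N) ^ d : ℕ) : ℤ) := by
        refine h2.trans ?_
        exact_mod_cast h3
      have h7 : ((|(V ^ ij.1.1).coeff (k.1 - ij.2.1)| : ℤ) : ℝ) ≤ ((((s * N) ^ d : ℕ) : ℤ) : ℝ) := by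
        exact_mod_cast h6
      rw [Int.cast_abs] at h7
      refine h7.trans (le_of_eq ?_)
      push_cast
      ring
    · rw [Int.cast_zero, abs_zero]
      positivity
  have htY : ‖t‖ ≤ (Y : ℝ) := by
    refine htn.trans ?_
    have hbase : ((((d + 1) * (2 * l + 1) : ℕ) : ℝ) * max 1 ‖B‖) ≤
        (((d + 1) * (2 * l + 1) * (s * N) ^ d : ℕ) : ℝ) := by
      push_cast
      push_cast at hBn
      exact mul_le_mul_of_nonneg_left hBn (by positivity)
    have hbase1 : (1 : ℝ) ≤ (((d + 1) * (2 * l + 1) : ℕ) : ℝ) * max 1 ‖B‖ := by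
      have h1 : (1 : ℝ) ≤ (((d + 1) * (2 * l + 1) : ℕ) : ℝ) := by
        exact_mod_cast Nat.mul_pos (Nat.succ_pos d) (Nat.succ_pos (2 * l))
      exact one_le_mul_of_one_le_of_one_le h1 (le_max_left _ _)
    have hexp : ((N : ℝ) / ((((d + 1) * (2 * l + 1) : ℕ) : ℝ) - N)) ≤ ((2 * d + 1 : ℕ) : ℝ) := by
      rw [hnN]
      push_cast
      rw [div_le_iff₀ (by linarith [show (0 : ℝ) ≤ l from Nat.cast_nonneg l])]
      have h1 : N ≤ (2 * d + 1) * (l + 1) := by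
        rw [hN]
        nlinarith
      have h2 : (N : ℝ) ≤ (2 * (d : ℝ) + 1) * ((l : ℝ) + 1) := by exact_mod_cast h1
      linarith
    calc (((((d + 1) * (2 * l + 1) : ℕ) : ℝ) * max 1 ‖B‖)) ^
          ((N : ℝ) / ((((d + 1) * (2 * l + 1) : ℕ) : ℝ) - N))
        ≤ (((((d + 1) * (2 * l + 1) : ℕ) : ℝ) * max 1 ‖B‖)) ^ (((2 * d + 1 : ℕ) : ℝ)) :=
          Real.rpow_le_rpow_of_exponent_le hbase1 hexp
      _ = (((((d + 1) * (2 * l + 1) : ℕ) : ℝ) * max 1 ‖B‖)) ^ (2 * d + 1) := Real.rpow_natCast _ _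
      _ ≤ ((((d + 1) * (2 * l + 1) * (s * N) ^ d : ℕ) : ℝ)) ^ (2 * d + 1) :=
          pow_le_pow_left₀ (by linarith) hbase _
      _ ≤ (Y : ℝ) := by exact_mod_cast hY
  have htc : ∀ ij, |t ij| ≤ (Y : ℤ) := by
    intro ij
    have h1 : ‖t ij‖ ≤ (Y : ℝ) := (norm_le_pi_norm t ij).trans htY
    rw [Int.norm_eq_abs] at h1
    have h2 : ((|t ij| : ℤ) : ℝ) ≤ ((Y : ℤ) : ℝ) := by
      rw [Int.cast_abs]
      exact_mod_cast h1
    exact_mod_cast h2
  obtain ⟨A, hA⟩ : ∃ A : ℕ → ℤ[X], A = fun i => if hi : i < d + 1 then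
      ∑ j : Fin (2 * l + 1), Polynomial.C (t (⟨i, hi⟩, j)) * X ^ j.1 else 0 := ⟨_, rfl⟩
  have hAk : ∀ i : Fin (d + 1), A i.1 =
      ∑ j : Fin (2 * l + 1), Polynomial.C (t (i, j)) * X ^ j.1 := by
    intro i
    rw [hA]
    show (if hi : i.1 < d + 1 then _ else _) = _
    rw [dif_pos i.2]
  have hA0 : ∀ i, ¬ i < d + 1 → A i = 0 := by
    intro i hi
    rw [hA]
    show (if hi : i < d + 1 then _ else (0 : ℤ[X])) = 0
    rw [dif_neg hi]
  have hcoef : ∀ (i : Fin (d + 1)) (j : Fin (2 * l + 1)), (A i.1).coeff j.1 = t (i, j) := by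
    intro i j
    rw [hAk i, finsetSum_coeff, Finset.sum_eq_single j]
    · simp
    · intro j' _ hj
      have : j.1 ≠ j'.1 := fun h => hj (Fin.ext h.symm)
      rw [coeff_C_mul, coeff_X_pow, if_neg this, mul_zero]
    · intro h
      exact absurd (Finset.mem_univ j) h
  have hdeg : ∀ i, (A i).natDegree ≤ 2 * l := by
    intro i
    by_cases hi : i < d + 1
    · rw [hAk ⟨i, hi⟩]
      refine natDegree_sum_le_of_forall_le _ _ fun j _ => ?_
      refine (natDegree_C_mul_X_pow_le _ _).trans ?_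
      exact Nat.lt_succ_iff.mp j.2
    · rw [hA0 i hi, natDegree_zero]
      exact Nat.zero_le _
  refine ⟨A, fun i => ⟨hdeg i, ?_⟩, ?_, ?_⟩
  · intro m
    by_cases hi : i < d + 1
    · by_cases hm : m < 2 * l + 1
      · have := hcoef ⟨i, hi⟩ ⟨m, hm⟩
        simp only at this
        rw [this]
        exact htc _
      · rw [coeff_eq_zero_of_natDegree_lt (lt_of_le_of_lt (hdeg i) (by omega)), abs_zero]
        exact Int.natCast_nonneg Y
    · rw [hA0 i hi, coeff_zero, abs_zero]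
      exact Int.natCast_nonneg Y
  · obtain ⟨⟨i, j⟩, hij⟩ : ∃ ij, t ij ≠ 0 := by
      by_contra hcon
      push Not at hcon
      exact ht0 (funext hcon)
    refine ⟨i.1, Nat.lt_succ_iff.mp i.2, fun h0 => hij ?_⟩
    rw [← hcoef i j, h0, coeff_zero]
  · rw [X_pow_dvd_iff]
    intro k hk
    have h1 : Matrix.mulVec B t ⟨k, hk⟩ = 0 := by rw [htB]; rfl
    rw [Matrix.mulVec, dotProduct, Fintype.sum_prod_type, hB] at h1
    rw [fm, finsetSum_coeff, ← h1, Finset.sum_range]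
    refine Finset.sum_congr rfl fun i _ => ?_
    rw [hAk i, Finset.sum_mul, finsetSum_coeff]
    refine Finset.sum_congr rfl fun j _ => ?_
    rw [mul_assoc, coeff_C_mul]
    ring

end Pool.Agent.Helper9.DG
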