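import Pool.Agent.Helper9.DG.Main

/-!
PROJECT DG. Three distinct digits. (helper9)
-/

set_option autoImplicit false

namespace Pool.Agent.Helper9.DG

/-- A set of integers with at most two elements lies in a progression with two terms. -/
theorem exists_progression (s : Finset ℤ) (hs : s.card ≤ 2) :
    ∃ c h : ℤ, ∀ x ∈ s, ∃ e : ℕ, e ≤ 1 ∧ x = c + h * e := by
  classical
  rcases s.eq_empty_or_nonempty with rfl | ⟨x, hx⟩
  · exact ⟨0, 0, fun x hx => absurd hx (Finset.notMem_empty x)⟩
  · have h1 : (s.erase x).card ≤ 1 := by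
      rw [Finset.card_erase_of_mem hx]
      omega
    rcases (s.erase x).eq_empty_or_nonempty with h2 | ⟨y, hy⟩
    · refine ⟨x, 0, fun z hz => ⟨0, by omega, ?_⟩⟩
      by_contra hne
      have : z ∈ s.erase x := Finset.mem_erase.2 ⟨fun h => hne (by rw [h]; simp), hz⟩
      rw [h2] at this
      exact absurd this (Finset.notMem_empty z)
    · refine ⟨x, y - x, fun z hz => ?_⟩
      by_cases hzx : z = x
      · exact ⟨0, by omega, by rw [hzx]; simp⟩
      · refine ⟨1, le_rfl, ?_⟩
        have : z = y := Finset.card_le_one.1 h1 z (Finset.mem_erase.2 ⟨hzx, hz⟩) y hy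
        rw [this]
        push_cast
        ring

theorem three_digits (D w b : ℕ) (hD : 2 ≤ D) (hw : 2 * D ≤ w)
    (hb : w ^ (200 * D ^ 4) ≤ b) (ξ : ℝ) (hξ : Irrational ξ) (P : Polynomial ℤ) (hP : P ≠ 0)
    (hPD : P.natDegree ≤ D) (hPc : ∀ i, |(P.coeff i : ℝ)| ≤ Real.exp w)
    (hPξ : Polynomial.aeval ξ P = 0) :
    3 ≤ ((Finset.range b).image fun i : ℕ => Helper2.Digits.digit ξ b i).card := by
  by_contra hcon
  obtain ⟨c, h, hch⟩ := exists_progression
    ((Finset.range b).image fun i : ℕ => Helper2.Digits.digit ξ b i) (by omega)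
  obtain ⟨i, hi, hne⟩ := digits_not_in_progression D w b hD hw hb ξ hξ P hP hPD hPc hPξ c h
  obtain ⟨e, he, he'⟩ := hch (Helper2.Digits.digit ξ b i)
    (Finset.mem_image_of_mem _ (Finset.mem_range.2 hi))
  exact hne e (by omega) he'

end Pool.Agent.Helper9.DG
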